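import Pool.Agent.Lib.MP_4d37d6_al.Lie.Rep

/-!
The family of relations imposed by the machine is computable.
-/

set_option autoImplicit false

namespace Pool.Agent.Lib.MP_4d37d6_al.Lie

open Function

noncomputable instance : Primcodable X :=
  Primcodable.ofEquiv (Fin (Fintype.card X)) (Fintype.equivFin X)

variable {K Γ : Type} [Fintype K] [Primcodable K] [Primcodable Γ]

theorem pr_flatC [Finite Γ] : Primrec (flatC : Cfg K Γ → List (Gen K Γ)) :=
  Primrec.list_flatMap (Primrec.const _) (Primrec.list_map (pr_app₂ Primrec.fst Primrec.snd)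
    ((Primrec.dom_finite gC).comp ((Primrec.snd.comp Primrec.fst).pair Primrec.snd)).to₂).to₂

omit [Fintype K] in
theorem pr_aw : Primrec (aw : ℕ → List (Gen K Γ)) :=
  Primrec.list_cons.comp (Primrec.const _) (Primrec.list_append.comp
    (pr_replicate Primrec.id (Primrec.const _)) (Primrec.const _))

theorem pr_flatM [Finite Γ] : Primrec (flatM : Mid K Γ → List (Gen K Γ)) :=
  Primrec.list_append.comp (pr_flatC.comp Primrec.fst)
    (Primrec.list_flatMap Primrec.snd (pr_aw.comp Primrec.snd).to₂)

theorem pr_flat [Finite Γ] : Primrec (flat : Word K Γ → List (Gen K Γ)) :=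
  Primrec.list_append.comp (pr_flatM.comp Primrec.fst)
    (Primrec.list_flatMap Primrec.snd (Primrec.list_cons.comp
      ((Primrec.dom_finite gX).comp (Primrec.fst.comp Primrec.snd))
      (pr_flatM.comp (Primrec.snd.comp Primrec.snd))).to₂)

omit [Primcodable K] in
theorem pr_consX (ξ : X) : Primrec (consX ξ : Word K Γ → Word K Γ) :=
  (Primrec.const _).pair
    (Primrec.list_cons.comp ((Primrec.const ξ).pair Primrec.fst) Primrec.snd)

omit [Primcodable K] in
theorem pr_isA : PrimrecPred (IsA : Word K Γ → Prop) := by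
  classical
  have hr : Primrec fun p : ℕ × Word K Γ => p.2.2.drop p.1 :=
    Primrec.list_drop.comp Primrec.fst (Primrec.snd.comp Primrec.snd)
  have h1 : PrimrecRel fun (i : ℕ) (ω : Word K Γ) => ω = aT i
      (((ω.2.drop i).head?.getD (X.b, one)).2, (ω.2.drop i).tail) :=
    Primrec.eq.comp Primrec.snd ((Primrec.const _).pair (Primrec.list_append.comp
      (pr_replicate Primrec.fst (Primrec.const _)) (Primrec.list_cons.comp
        ((Primrec.const _).pair (Primrec.snd.comp (Primrec.option_getD.comp
          (Primrec.list_head?.comp hr) (Primrec.const _)))) (Primrec.list_tail.comp hr))))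
  refine (h1.exists_mem_list.comp (Primrec.list_range.comp
    (Primrec.list_length.comp Primrec.snd)) Primrec.id).of_eq fun ω => ⟨?_, ?_⟩
  · rintro ⟨i, -, h⟩
    exact ⟨i, _, h⟩
  · rintro ⟨i, ω', rfl⟩
    exact ⟨i, by simp [aT], by simp [aT]⟩

namespace Setup

variable [DecidableEq K] [Finite Γ] (S : Setup K Γ)

omit [DecidableEq K] [Finite Γ] in
theorem pr_wt : Primrec S.wt :=
  Primrec.nat_add.comp (S.pr_wtC.comp (Primrec.fst.comp Primrec.fst))
    (pr_sum.comp (Primrec.list_map Primrec.snd
      (S.pr_wtC.comp (Primrec.fst.comp (Primrec.snd.comp Primrec.snd))).to₂))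

omit [Primcodable K] [Finite Γ] in
theorem pr_idx : Primrec S.idx :=
  (pr_stk _ (Primrec.list_map (pr_replicate Primrec.id (Primrec.const 0))
    ((Primrec.dom_finite S.inl).comp Primrec.snd).to₂)).pair (Primrec.const [])

omit [Primcodable K] [Finite Γ] in
theorem pr_red {α : Type} [Primcodable α] {N : α → ℕ} {o ω : α → Word K Γ} (hN : Primrec N)
    (ho : Primrec o) (hω : Primrec ω) : Primrec fun a => S.red (N a) (o a) (ω a) :=
  (S.pr_idx.comp hN).pair (Primrec.list_cons.comp ((Primrec.const X.w).pair (Primrec.fst.comp ho))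
    (Primrec.list_append.comp (Primrec.snd.comp ho)
      (Primrec.list_cons.comp ((Primrec.const X.y).pair (S.pr_idx.comp hN))
        (Primrec.list_cons.comp ((Primrec.const X.w).pair (Primrec.fst.comp hω))
          (Primrec.snd.comp hω)))))

variable {S} (hd : Primrec S.data)
include hd

omit [Primcodable K] [DecidableEq K] [Finite Γ] in
theorem pr_ell : Primrec S.ell := Primrec.fst.comp hd

omit [Finite Γ] in
theorem pr_isRed : PrimrecPred S.IsRed := by
  have hN : Primrec fun ω : Word K Γ => S.wtC ω.1.1 :=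
    S.pr_wtC.comp (Primrec.fst.comp Primrec.fst)
  have hl : Primrec fun ω : Word K Γ => S.ell (S.wtC ω.1.1) := (pr_ell hd).comp hN
  have hr : Primrec fun ω : Word K Γ => ω.2.drop ((S.ell (S.wtC ω.1.1)).2.length + 2) :=
    Primrec.list_drop.comp (Primrec.nat_add.comp (Primrec.list_length.comp (Primrec.snd.comp hl))
      (Primrec.const 2)) Primrec.snd
  have hω : Primrec fun ω : Word K Γ =>
      ((((ω.2.drop ((S.ell (S.wtC ω.1.1)).2.length + 2)).head?.getD (X.w, one)).2,
        (ω.2.drop ((S.ell (S.wtC ω.1.1)).2.length + 2)).tail) : Word K Γ) :=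
    (Primrec.snd.comp (Primrec.option_getD.comp (Primrec.list_head?.comp hr)
      (Primrec.const _))).pair (Primrec.list_tail.comp hr)
  refine ((Primrec.nat_lt.comp (S.pr_wt.comp hl) hN).and
    (Primrec.eq.comp Primrec.id (S.pr_red hN hl hω))).of_eq fun ω => ⟨fun h => ⟨_, _, h⟩, ?_⟩
  rintro ⟨N, ω', hw, rfl⟩
  have h1 : S.wtC (S.red N (S.ell N) ω').1.1 = N := S.wtC_idx N
  rw [h1]
  refine ⟨hw, ?_⟩
  have h2 : (S.red N (S.ell N) ω').2.drop ((S.ell N).2.length + 2) = (X.w, ω'.1) :: ω'.2 := by
    simp [red, vT, List.drop_append]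
  rw [h2]
  rfl

theorem pr_irr : PrimrecPred fun p : (Cfg K Γ × Word K Γ) × X => S.irr p.1.1 p.2 p.1.2 := by
  refine prp_cases (R := fun (a : Cfg K Γ × Word K Γ) ξ => S.irr a.1 ξ a.2) fun ξ => ?_
  have hc : Primrec fun a : Cfg K Γ × Word K Γ => a.2.1.1 :=
    Primrec.fst.comp (Primrec.fst.comp Primrec.snd)
  cases ξ with
  | E =>
    exact (Primrec.eq.comp (S.pr_bwd.comp hc) (Primrec.const none)).and
      ((Primrec.eq.comp (pr_strip Primrec.fst hc) (Primrec.const none)).and
        (S.pr_dead.comp hc).not)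
  | e1 => exact Primrec.eq.comp (pr_app hc _) (Primrec.const [])
  | e2 =>
    exact (prp_forall fun τ =>
      Primrec.eq.comp (pr_strip (Primrec.const _) hc) (Primrec.const none)).and
      ((Primrec.eq.comp (Primrec.list_head?.comp (pr_app hc _)) (Primrec.const _)).not.and
        (Primrec.eq.comp (Primrec.list_head?.comp (pr_app hc _)) (Primrec.const _)).not)
  | e3 =>
    exact (Primrec.eq.comp hc (Primrec.const _)).and
      ((Primrec.eq.comp (Primrec.snd.comp (Primrec.fst.comp Primrec.snd)) (Primrec.const _)).and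
        (Primrec.eq.comp ((Primrec.option_map₁ Primrec.fst).comp
          (Primrec.list_head?.comp (Primrec.snd.comp Primrec.snd))) (Primrec.const _))).not
  | x => exact ((pr_isRed hd).comp Primrec.snd).not
  | y => exact ((Primrec.eq.comp (Primrec.const 0) (Primrec.const 0))).of_eq fun _ => by simp [irr]
  | w => exact ((Primrec.eq.comp (Primrec.const 0) (Primrec.const 0))).of_eq fun _ => by simp [irr]
  | a => exact (pr_isA.comp Primrec.snd).not
  | s => exact ((Primrec.eq.comp (Primrec.const 0) (Primrec.const 0))).of_eq fun _ => by simp [irr]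
  | b => exact ((Primrec.eq.comp (Primrec.const 0) (Primrec.const 0))).of_eq fun _ => by simp [irr]
  | z =>
    have hh : Primrec fun a : Cfg K Γ × Word K Γ => a.2.2.head?.map Prod.fst :=
      (Primrec.option_map₁ Primrec.fst).comp
        (Primrec.list_head?.comp (Primrec.snd.comp Primrec.snd))
    exact (Primrec.eq.comp hc (Primrec.const _)).and
      ((Primrec.eq.comp (Primrec.snd.comp (Primrec.fst.comp Primrec.snd)) (Primrec.const _)).and
        ((Primrec.eq.comp hh (Primrec.const _)).or (Primrec.eq.comp hh (Primrec.const _)))).not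
  | t => exact ((Primrec.eq.comp (Primrec.const 0) (Primrec.const 0))).of_eq fun _ => by simp [irr]

theorem pr_irrAll : PrimrecPred fun p : Cfg K Γ × Tail K Γ => S.IrrAll p.1 p.2 := by
  classical
  have h1 : Primrec fun q : (Cfg K Γ × Tail K Γ) × ((X × Mid K Γ) × Tail K Γ × Bool) =>
      decide (S.irr q.1.1 q.2.1.1 (q.2.1.2, q.2.2.1)) :=
    (pr_irr hd).decide.comp (((Primrec.fst.comp Primrec.fst).pair
      ((Primrec.snd.comp (Primrec.fst.comp Primrec.snd)).pair
        (Primrec.fst.comp (Primrec.snd.comp Primrec.snd)))).pair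
      (Primrec.fst.comp (Primrec.fst.comp Primrec.snd)))
  have h2 := Primrec.list_rec (f := fun p : Cfg K Γ × Tail K Γ => p.2) (g := fun _ => true)
    (h := fun p q => (decide (S.irr p.1 q.1.1 (q.1.2, q.2.1)) && q.2.2)) Primrec.snd
    (Primrec.const true)
    (Primrec.and.comp h1 (Primrec.snd.comp (Primrec.snd.comp Primrec.snd))).to₂
  refine (Primrec.eq.comp h2 (Primrec.const true)).of_eq fun p => ?_
  obtain ⟨ι, tl⟩ := p
  induction tl with
  | nil => simp [IrrAll]
  | cons q tl ih =>
    simp only at ih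
    simp [IrrAll, ih]

variable (hB : ComputablePred fun b => b ∈ S.B)
include hB

theorem cp_NF : ComputablePred fun p : Cfg K Γ × Word K Γ => S.NF p.1 p.2 :=
  cp_and (cp_comp hB (Primrec.snd.comp (Primrec.fst.comp Primrec.snd)).to_comp)
    (cp_and (cp_forall_mem (R := fun _ (q : X × Mid K Γ) => q.2.2 ∈ S.B)
        (Primrec.snd.comp Primrec.snd).to_comp
        (cp_comp hB (Primrec.snd.comp (Primrec.snd.comp Primrec.snd)).to_comp))
      ((pr_irrAll hd).comp (Primrec.fst.pair (Primrec.snd.comp Primrec.snd))).computablePred)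

theorem comp_os : Computable fun p : Cfg K Γ × ℕ => S.os p.1 p.2 := by
  classical
  have hl : Primrec fun q : (Cfg K Γ × ℕ) × (Bool × Word K Γ) => S.ell q.1.2 :=
    (pr_ell hd).comp (Primrec.snd.comp Primrec.fst)
  have ho : Primrec fun q : (Cfg K Γ × ℕ) × (Bool × Word K Γ) => q.2.2 :=
    Primrec.snd.comp Primrec.snd
  refine (comp_filter (R := fun (p : Cfg K Γ × ℕ) (q : Bool × Word K Γ) =>
      S.NF p.1 q.2 ∧ q.2 ≠ S.ell p.2 ∧ S.wt q.2 ≤ S.wt (S.ell p.2))
    (Primrec.snd.comp (Primrec.snd.comp (hd.comp Primrec.snd))).to_comp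
    (cp_and (cp_comp (cp_NF hd hB) ((Primrec.fst.comp Primrec.fst).pair ho).to_comp)
      ((Primrec.eq.comp ho hl).not.and
        (Primrec.nat_le.comp (S.pr_wt.comp ho) (S.pr_wt.comp hl))).computablePred)).of_eq
    fun p => ?_
  unfold os
  exact List.filter_congr fun q _ => decide_eq_decide.2 Iff.rfl

omit hB [Primcodable K] [DecidableEq K] [Finite Γ] in
theorem pr_kk : Primrec S.kk := by
  have h1 : Primrec fun N => (S.data N).2.1 := Primrec.fst.comp (Primrec.snd.comp hd)
  exact Primrec.ite ((Primrec.eq.comp (Primrec.nat_mod.comp h1 (Primrec.const S.ch))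
    (Primrec.const 0)).of_eq fun N => (Nat.dvd_iff_mod_eq_zero ..).symm) (Primrec.const 1) h1

omit hB hd in
theorem pr_uv : Primrec₂ S.uv :=
  pr_flat.comp ((pr_consX X.x).comp (S.pr_red Primrec.fst Primrec.snd (Primrec.const _)))

theorem comp_simpTerms : Computable fun p : Cfg K Γ × ℕ => S.simpTerms p.1 p.2 := by
  classical
  have hl : Primrec fun p : Cfg K Γ × ℕ => S.ell p.2 := (pr_ell hd).comp Primrec.snd
  refine comp_ite (cp_and (cp_comp (cp_NF hd hB) (Primrec.fst.pair hl).to_comp)
    (Primrec.nat_lt.comp (S.pr_wt.comp hl) Primrec.snd).computablePred) ?_ (Computable.const _)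
  refine Computable.list_cons.comp (Computable.const _) (Computable.list_append.comp
    (pr_replicate ((pr_kk hd).comp Primrec.snd)
      ((Primrec.const false).pair (pr_uv.comp Primrec.snd hl))).to_comp ?_)
  exact comp_list_map (comp_os hd hB) ((Primrec.fst.comp Primrec.snd).pair
    (pr_uv.comp (Primrec.snd.comp Primrec.fst) (Primrec.snd.comp Primrec.snd))).to₂.to_comp

omit hB hd [DecidableEq K] [Fintype K] [Finite Γ] in
theorem pr_commTerms (hc : Primrec S.cdata) : Primrec S.commTerms := by
  have h1 : Primrec fun N => (gC (S.cdata N).1 : Gen K Γ) :=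
    Primrec.sumInl.comp (Primrec.fst.comp hc)
  have h2 : Primrec fun N => (aw (S.cdata N).2 : List (Gen K Γ)) :=
    pr_aw.comp (Primrec.snd.comp hc)
  exact Primrec.list_cons.comp ((Primrec.const false).pair (Primrec.list_cons.comp h1 h2))
    (Primrec.list_cons.comp ((Primrec.const true).pair (Primrec.list_append.comp h2
      (Primrec.list_cons.comp h1 (Primrec.const [])))) (Primrec.const []))

theorem comp_relTerms (hc : Primrec S.cdata) {gR : ℕ → Terms ℕ} (hg : Computable gR) :
    Computable fun p : Cfg K Γ × ℕ => S.relTerms p.1 gR p.2 := by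
  have h2 : Primrec fun p : Cfg K Γ × ℕ => p.2 / 3 :=
    Primrec.nat_div.comp Primrec.snd (Primrec.const 3)
  have h4 : Primrec fun p : Cfg K Γ × ℕ => p.2 % 3 :=
    Primrec.nat_mod.comp Primrec.snd (Primrec.const 3)
  refine comp_ite (Primrec.eq.comp h4 (Primrec.const 0)).computablePred ?_
    (comp_ite (Primrec.eq.comp h4 (Primrec.const 1)).computablePred
      ((comp_simpTerms hd hB).comp (Primrec.fst.pair h2).to_comp)
      ((pr_commTerms hc).comp h2).to_comp)
  have h3 : Primrec fun t : Terms ℕ =>
      (t.map fun p => (p.1, p.2.flatMap aw) : Terms (Gen K Γ)) :=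
    Primrec.list_map Primrec.id ((Primrec.fst.comp Primrec.snd).pair
      (Primrec.list_flatMap (Primrec.snd.comp Primrec.snd) (pr_aw.comp Primrec.snd).to₂)).to₂
  exact h3.to_comp.comp (hg.comp h2.to_comp)

omit hB hd [DecidableEq K] in
theorem pr_str : Primrec S.str := by
  have h1 : Primrec S.strT :=
    Primrec.list_append.comp (Primrec.cond Primrec.fst (Primrec.const _) (Primrec.const _))
      (Primrec.list_flatMap Primrec.snd
        ((Primrec.dom_finite fun σ => S.tk (some σ)).comp Primrec.snd).to₂)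
  exact Primrec.list_append.comp (Primrec.list_flatMap Primrec.id
    (Primrec.list_cons.comp (Primrec.const 2) (h1.comp Primrec.snd)).to₂) (Primrec.const _)

end Setup

end Pool.Agent.Lib.MP_4d37d6_al.Lie
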