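import Pool.Agent.Lib.MP_4d37d6_al.Lie.Rep
import Pool.Agent.Lib.MP_4d37d6_al.Compat

/-!
Consequences of the relations: normal forms span, and the algebra is simple.
-/

set_option autoImplicit false

namespace Pool.Agent.Lib.MP_4d37d6_al.Lie

open Function

variable {K Γ : Type}

namespace Model

variable {F A : Type*} [DecidableEq K] [Fintype K] [Field F] [Ring A] [Algebra F A]
  (P : Model K Γ F A) {Q : Type*} [Ring Q] [Algebra F Q] (g : Gen K Γ → Q)

noncomputable def pi : P.V →ₗ[F] Q := P.ext fun ω => ev g (flat ω)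

theorem pi_sg {ω : Word K Γ} (h : P.nf ω) : P.pi g (P.sg ω) = ev g (flat ω) := P.ext_sg _ h

/-- the hypotheses on the target algebra -/
structure Good (φ : A →ₐ[F] Q) : Prop extends P.Rels P.ι g where
  simp : ∀ N, poly g (P.simpTerms P.ι N) = 0
  phi : ∀ i, φ (P.a i) = gA g i
  commA : ∀ l i, Commute (g (gC l)) (gA g i)

variable {P g} {φ : A →ₐ[F] Q}

theorem Good.evA_eq (h : P.Good g φ) (b : List ℕ) : evA g b = φ (ev P.a b) := by
  rw [evA_eq_ev, map_ev]
  congr 1
  funext i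
  exact (h.phi i).symm

theorem Good.pi_jA (h : P.Good g φ) (c : Cfg K Γ) {tl : Tail K Γ} (htl : P.NFT P.ι tl) (α : A) :
    P.pi g (P.jA c tl α) = evC g c * φ α * ev g (flatT tl) := by
  have : P.pi g ∘ₗ P.jA c tl = LinearMap.mulRight F (ev g (flatT tl)) ∘ₗ
      LinearMap.mulLeft F (evC g c) ∘ₗ φ.toLinearMap := by
    refine P.bs.ext fun b => ?_
    have hb : P.nf ((c, b.1), tl) := ⟨b.2, htl⟩
    rw [LinearMap.comp_apply, P.bs_eq, P.jA_ev _ _ b.2, P.pi_sg _ hb, ev_flat, h.evA_eq]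
    rfl
  exact LinearMap.congr_fun this α

theorem Good.act3 (h : P.Good g φ) {ω : Word K Γ} (hω : P.nf ω) :
    P.pi g (P.act3 ω) = g (gX .e3) * ev g (flat ω) := by
  obtain ⟨⟨c, b⟩, tl⟩ := ω
  rw [ev_flat, ← mul_assoc, ← mul_assoc, h.e3_evC]
  unfold Model.act3
  split_ifs with h1
  · obtain ⟨h2, h3⟩ := h1
    simp only at h2 h3
    subst h2
    match tl, h3, hω with
    | (ξ, μ) :: tl, h3, hω =>
      obtain rfl : ξ = X.w := by simpa using h3
      have h4 : P.nf (μ, tl) := (Setup.NFT_cons.1 hω.2).1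
      simp only [List.headD_cons, List.tail_cons]
      rw [P.pi_sg _ h4, flatT_cons, ev_cons, evA_nil, mul_one, ← mul_assoc, h.e3w, one_mul]
  · have h4 : P.nf (consX X.e3 ((nil, b), tl)) :=
      Setup.NF_consX.2 ⟨hω.change _, rfl, h1⟩
    rw [P.pi_sg _ h4, flat_consX, ev_cons, ev_flat, evC_nil, one_mul, mul_assoc]

theorem Good.actX (h : P.Good g φ) {ω : Word K Γ} (hω : P.nf ω) :
    P.pi g (P.actX ω) = g (gX .x) * ev g (flat ω) := by
  by_cases hr : P.IsRed ω
  · obtain ⟨N, ω', hN, rfl⟩ := hr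
    obtain ⟨h1, h2⟩ := Setup.NF_of_red hω
    have h3 := h.simp N
    rw [Setup.simpTerms, if_pos ⟨h1, hN⟩, poly_cons, poly_append, poly_replicate] at h3
    have h4 : ∀ l : List (Bool × Word K Γ), (∀ p ∈ l, p ∈ P.os P.ι N) →
        P.pi g (l.map fun p => bif p.1 then - P.sg (consX X.x (P.red N p.2 ω'))
          else P.sg (consX X.x (P.red N p.2 ω'))).sum =
        poly g (l.map fun p => (p.1, P.uv N p.2)) * ev g (flat ω') := by
      intro l hl
      induction l with
      | nil => simp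
      | cons p l ih =>
        obtain ⟨h5, h6, h7⟩ := P.mem_os P.ι (hl p (by simp))
        have h8 : P.wt p.2 < N := by omega
        have h9 : P.nf (consX X.x (P.red N p.2 ω')) :=
          Setup.NF_consX.2 ⟨Setup.NF_red_iff.2 (Setup.NF_glue h5 h8 h2),
            Setup.not_isRed_red h8 h6⟩
        have h10 := P.pi_sg g h9
        rw [Setup.flat_red, ev_append] at h10
        rw [List.map_cons, List.sum_cons, map_add, ih fun q hq => hl q (by simp [hq]),
          List.map_cons, poly_cons, add_mul]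
        obtain ⟨s, o⟩ := p
        cases s <;> simp [h10]
    rw [P.actX_red hN, map_smul, map_sub, P.pi_sg _ h2, others, h4 _ fun p hp => hp, ← ev_cons,
      ← flat_consX, Setup.flat_red, ev_append]
    have h5 : poly g ((P.os P.ι N).map fun p => (p.1, P.uv N p.2)) =
        1 - (P.kk N : F) • ev g (P.uv N (P.ell N)) := by
      rw [Nat.cast_smul_eq_nsmul]
      simp only [tv_true, ev_nil, tv_false] at h3
      rw [← sub_eq_zero, ← h3]
      abel
    rw [h5, sub_mul, one_mul, sub_sub_cancel, smul_mul_assoc, smul_smul,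
      inv_mul_cancel₀ (P.kk_ne_zero N), one_smul]
  · rw [P.actX_of_not hr, P.pi_sg _ ((Setup.NF_consX (ξ := X.x)).2 ⟨hω, hr⟩), flat_consX, ev_cons]

theorem Good.act1aux (h : P.Good g φ) {G : Module.End F P.V} {j : ℕ}
    (hG : ∀ v ∈ P.Fil j, P.pi g (G v) = g (gX .e2) * P.pi g v) {c : Cfg K Γ} {b : List ℕ}
    {tl : Tail K Γ} (hω : P.nf ((c, b), tl)) (l : List Γ)
    (hl : l.length + (c P.kHist).length + P.wtT tl ≤ j) :
    P.pi g (P.act1aux G c b tl l) = g (gX .e1) * ev g (flat ((update c P.kIn l, b), tl)) := by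
  induction l with
  | nil =>
    have h1 : P.nf (consX X.e1 ((update c P.kIn [], b), tl)) :=
      Setup.NF_consX.2 ⟨hω.change _, update_self _ _ _⟩
    rw [Model.act1aux, P.pi_sg _ h1, flat_consX, ev_cons]
  | cons γ l ih =>
    simp only [List.length_cons] at hl
    have h1 : update c P.kIn (γ :: l) = cat (stk P.kIn [γ]) (update c P.kIn l) := by
      have := eq_cat_stk (c := update c P.kIn (γ :: l)) (k := P.kIn) (l := [γ]) (r := l) (by simp)
      rwa [update_idem] at this
    have h2 : g (gX .e1) * ev g (flat ((update c P.kIn (γ :: l), b), tl)) =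
        g (gX .e1) * g (gC (P.kIn, γ)) * ev g (flat ((update c P.kIn l, b), tl)) := by
      rw [h1, ev_flat, ev_flat, evC_cat h.comm, evC_single]
      simp only [mul_assoc]
    rw [h2]
    unfold Model.act1aux
    split_ifs with h3 h4
    · rw [h3, h.e1bot, zero_mul, map_zero]
    · rw [h4, h.e1sep, map_add, ih (by omega), hG _ (P.sg_mem_Fil ?_), P.pi_sg _ (hω.change _),
        add_mul]
      simp only [Setup.wt_mk, wtC_update_in]
      omega
    · rw [h.e1skip γ h4 h3, ih (by omega)]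

theorem Good.act1 (h : P.Good g φ) {G : Module.End F P.V} {j : ℕ}
    (hG : ∀ v ∈ P.Fil j, P.pi g (G v) = g (gX .e2) * P.pi g v) {ω : Word K Γ} (hω : P.nf ω)
    (hj : P.wt ω ≤ j) : P.pi g (P.act1 G ω) = g (gX .e1) * ev g (flat ω) := by
  obtain ⟨⟨c, b⟩, tl⟩ := ω
  rw [Model.act1, h.act1aux hG hω _ hj, update_eq_self]

theorem Good.actE (h : P.Good g φ) {G : Module.End F P.V} {j : ℕ}
    (hG : ∀ v ∈ P.Fil j, P.pi g (G v) = g (gX .e2) * P.pi g v) {ω : Word K Γ} (hω : P.nf ω)
    (hj : P.wt ω ≤ j) : P.pi g (P.actE G ω) = g (gX .E) * ev g (flat ω) := by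
  obtain ⟨⟨c, b⟩, tl⟩ := ω
  rw [ev_flat, ← mul_assoc, ← mul_assoc, ← h.reach (P.reach_root c)]
  unfold Model.actE
  split
  · rename_i c' hc
    have h1 := P.wt_of_strip hc
    simp only at hc
    rw [h.act1 hG (hω.change _) (by simp only [Setup.wt] at hj h1 ⊢; omega), strip_eq_some.1 hc,
      evC_cat h.comm, ← mul_assoc, h.init, ev_flat]
    simp only [mul_assoc]
  · rename_i hc
    split_ifs with hd
    · rw [h.dead hd]; simp
    · have h1 : P.nf (consX X.E ((P.root c, b), tl)) :=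
        Setup.NF_consX.2 ⟨hω.change _, P.bwd_root c, hc, hd⟩
      rw [P.pi_sg _ h1, flat_consX, ev_cons, ev_flat]
      simp only [mul_assoc]

theorem Good.actA (h : P.Good g φ) {ω : Word K Γ} (hω : P.nf ω) :
    P.pi g (P.actA ω) = g (gX .a) * ev g (flat ω) := by
  by_cases hr : IsA ω
  · obtain ⟨i, ⟨⟨c, b⟩, tl⟩, rfl⟩ := hr
    have h2 := Setup.NF_aT.1 hω
    have h1 : Commute (evC g c) (gA g i) := commute_evC (fun l => h.commA l i) c
    rw [P.actA_aT, h.pi_jA _ h2.2, map_mul, h.phi, ← h.evA_eq, ← ev_cons, flat_aT, ev_append,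
      ev_flat, ← mul_assoc, h1.eq]
    simp only [mul_assoc]
    rfl
  · rw [P.actA_of_not hr, P.pi_sg _ ((Setup.NF_consX (ξ := X.a)).2 ⟨hω, hr⟩), flat_consX, ev_cons]

theorem Good.preC (h : P.Good g φ) (u : Cfg K Γ) (v : P.V) :
    P.pi g (P.preC u v) = evC g u * P.pi g v := by
  have : P.pi g ∘ₗ P.preC u = LinearMap.mulLeft F (evC g u) ∘ₗ P.pi g :=
    P.hom_ext fun ⟨⟨c, b⟩, tl⟩ hω => by
      simp only [LinearMap.comp_apply, LinearMap.mulLeft_apply]
      rw [Model.preC, P.ext_sg _ hω, P.pi_sg _ (hω.change _), P.pi_sg _ hω, ev_flat, ev_flat,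
        evC_cat h.comm]
      simp only [mul_assoc]
  exact LinearMap.congr_fun this v

theorem pi_preX {ξ : X} (hξ : ∀ ω, P.irr P.ι ξ ω) (v : P.V) :
    P.pi g (P.preX ξ v) = g (gX ξ) * P.pi g v := by
  have : P.pi g ∘ₗ P.preX ξ = LinearMap.mulLeft F (g (gX ξ)) ∘ₗ P.pi g :=
    P.hom_ext fun ω hω => by
      simp only [LinearMap.comp_apply, LinearMap.mulLeft_apply]
      rw [Model.preX, P.ext_sg _ hω, P.pi_sg _ (Setup.NF_consX.2 ⟨hω, hξ ω⟩), P.pi_sg _ hω,
        flat_consX, ev_cons]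
  exact LinearMap.congr_fun this v

theorem Good.actZ (h : P.Good g φ) {G : Module.End F P.V} {j : ℕ}
    (hG : ∀ v ∈ P.Fil j, P.pi g (G v) = g (gX .e2) * P.pi g v) (μ : Mid K Γ) (tl : Tail K Γ)
    (hω : P.nf (μ, tl)) (hj : P.wt (μ, tl) ≤ j) :
    P.pi g (P.actZ G μ tl) = g (gX .z) * ev g (flat (μ, tl)) := by
  have key : ∀ (c : Cfg K Γ) (b : List ℕ) (tl : Tail K Γ), P.nf ((c, b), tl) →
      P.irr P.ι X.z ((nil, b), tl) → P.pi g (P.sg ((c, []), (X.z, (nil, b)) :: tl)) =
        g (gX .z) * ev g (flat ((c, b), tl)) := fun c b tl h1 h2 => by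
    have h3 : P.nf ((c, []), (X.z, (nil, b)) :: tl) :=
      ((Setup.NF_consX (ξ := X.z) (ω := ((nil, b), tl))).2 ⟨h1.change _, h2⟩).change _
    rw [P.pi_sg _ h3, ev_flat, flatT_cons, ev_cons, ev_flat, ev_flat, evA_nil, evC_nil, mul_one,
      one_mul, ← mul_assoc, (commute_evC h.zC c).eq]
    simp only [mul_assoc]
  induction tl generalizing μ with
  | nil => exact key _ _ _ hω ⟨rfl, by simp⟩
  | cons p tl ih =>
    obtain ⟨c, b⟩ := μ
    obtain ⟨ξ, ν⟩ := p
    have h1 : P.wt ((c, b), (ξ, ν) :: tl) = P.wtC c + P.wt (ν, tl) := by simp [Setup.wt]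
    have h2 : P.nf (ν, tl) := (Setup.NFT_cons.1 hω.2).1
    have h3 := ih ν h2 (by omega)
    unfold Model.actZ
    split_ifs with h4 h5
    · obtain ⟨rfl, rfl⟩ : b = [] ∧ ξ = X.w := h4
      rw [h.preC, pi_preX (ξ := X.w) fun _ => trivial, h3, ev_flat g c, flatT_cons, ev_cons, evA_nil,
        mul_one, ← mul_assoc (g (gX .z)), ← (commute_evC h.zC c).eq, ← mul_assoc (g (gX .w)),
        h.zw.eq]
      simp only [mul_assoc]
    · obtain ⟨rfl, rfl⟩ : b = [] ∧ ξ = X.t := h5
      rw [h.preC, map_sub, pi_preX (ξ := X.t) fun _ => trivial, h3, h.act1 hG h2 (by omega),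
        ev_flat g c, flatT_cons, ev_cons, evA_nil, mul_one, ← mul_assoc (g (gX .z)),
        ← (commute_evC h.zC c).eq, ← mul_assoc (g (gX .t)), ← sub_mul, ← h.zt]
      simp only [mul_assoc]
    · refine key _ _ _ hω ⟨rfl, ?_⟩
      simp only [List.head?_cons, Option.map_some, Option.some.injEq]
      tauto

theorem Good.act (h : P.Good g φ) {G : Module.End F P.V} {j : ℕ}
    (hG : ∀ v ∈ P.Fil j, P.pi g (G v) = g (gX .e2) * P.pi g v) (σ : Gen K Γ) {ω : Word K Γ}
    (hω : P.nf ω) (hj : P.wt ω ≤ j) : P.pi g (P.act G σ ω) = g σ * ev g (flat ω) := by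
  rcases σ with l | ξ
  · obtain ⟨⟨c, b⟩, tl⟩ := ω
    simp only [Model.act]
    rw [P.pi_sg _ (hω.change _), ev_flat, ev_flat, evC_cat h.comm, evC_single]
    simp only [mul_assoc]
    rfl
  · cases ξ
    · exact h.actE hG hω hj
    · exact h.act1 hG hω hj
    · rw [← P.pi_sg g hω]
      exact hG _ (P.sg_mem_Fil hj)
    · exact h.act3 hω
    · exact h.actX hω
    · simp only [Model.act]
      rw [P.pi_sg _ ((Setup.NF_consX (ξ := X.y)).2 ⟨hω, trivial⟩), flat_consX, ev_cons]
      rfl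
    · simp only [Model.act]
      rw [P.pi_sg _ ((Setup.NF_consX (ξ := X.w)).2 ⟨hω, trivial⟩), flat_consX, ev_cons]
      rfl
    · exact h.actA hω
    · simp only [Model.act]
      rw [P.pi_sg _ ((Setup.NF_consX (ξ := X.s)).2 ⟨hω, trivial⟩), flat_consX, ev_cons]
      rfl
    · simp only [Model.act]
      rw [P.pi_sg _ ((Setup.NF_consX (ξ := X.b)).2 ⟨hω, trivial⟩), flat_consX, ev_cons]
      rfl
    · exact h.actZ hG _ _ hω hj
    · simp only [Model.act]
      rw [P.pi_sg _ ((Setup.NF_consX (ξ := X.t)).2 ⟨hω, trivial⟩), flat_consX, ev_cons]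
      rfl

theorem Good.G (h : P.Good g φ) (j : ℕ) :
    ∀ v ∈ P.Fil j, P.pi g (P.G v) = g (gX .e2) * P.pi g v := by
  induction j using Nat.strong_induction_on with
  | _ j ih =>
    intro v hv
    refine P.eq_of_Fil (φ := P.pi g ∘ₗ P.G) (ψ := LinearMap.mulLeft F (g (gX .e2)) ∘ₗ P.pi g)
      (fun ω hω hj => ?_) hv
    simp only [LinearMap.comp_apply, LinearMap.mulLeft_apply]
    rw [P.G_sg hω, P.pi_sg _ hω]
    obtain ⟨⟨c, b⟩, tl⟩ := ω
    by_cases hc : ∃ τ c', c = cat (P.inW (P.tk τ)) c'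
    · obtain ⟨τ, c', rfl⟩ := hc
      have h1 := P.wt_tok τ c' b tl
      have h2 := ih (P.wt ((c', b), tl)) (by omega)
      have h3 := P.sg_mem_Fil (ω := ((c', b), tl)) le_rfl
      have h4 : g (gX .e2) * ev g (flat ((cat (P.inW (P.tk τ)) c', b), tl)) =
          Setup.tokv g τ * P.pi g (P.G (P.sg ((c', b), tl))) := by
        rw [h2 _ h3, P.pi_sg _ (hω.change _), ev_flat, ev_flat, evC_cat h.comm, ← mul_assoc,
          ← mul_assoc, ← mul_assoc, h.e2tok]
        simp only [mul_assoc]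
      rw [P.step2_tok, h4]
      cases τ with
      | none => simp [Setup.tokv]
      | some σ =>
        refine P.eq_of_Fil (φ := P.pi g ∘ₗ P.LG P.G σ) (ψ := LinearMap.mulLeft F (g σ) ∘ₗ P.pi g)
          (fun ω' hω' hj' => ?_) (P.G_bdd _ _ h3)
        simp only [LinearMap.comp_apply, LinearMap.mulLeft_apply]
        rw [LG, P.ext_sg _ hω', h.act h2 σ hω' hj', P.pi_sg _ hω']
    · push Not at hc
      rw [P.step2_of_not _ hc]
      have key : ∀ γ, (c P.kIn).head? = some γ → g (gX .e2) * ev g (flat ((c, b), tl)) =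
          g (gX .e2) * g (gC (P.kIn, γ)) *
            ev g (flat ((update c P.kIn (c P.kIn).tail, b), tl)) := by
        intro γ hγ
        have h1 : c P.kIn = [γ] ++ (c P.kIn).tail := by
          cases hk : c P.kIn with
          | nil => simp [hk] at hγ
          | cons a r => simpa [hk] using hγ
        conv_lhs => rw [eq_cat_stk h1]
        rw [ev_flat, ev_flat, evC_cat h.comm, evC_single]
        simp only [mul_assoc]
      split_ifs with h1 h2
      · rw [key _ h1, h.e2sep, ← h.act3 (hω.change _)]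
        rfl
      · rw [key _ h2, h.e2bot, zero_mul, map_zero]
      · have h3 : P.nf (consX X.e2 ((c, b), tl)) :=
          Setup.NF_consX.2 ⟨hω, fun τ => strip_eq_none.2 (hc τ), h1, h2⟩
        rw [P.pi_sg _ h3, flat_consX, ev_cons]

theorem Good.pi_L (h : P.Good g φ) (σ : Gen K Γ) (v : P.V) :
    P.pi g (P.L σ v) = g σ * P.pi g v := by
  have : P.pi g ∘ₗ P.L σ = LinearMap.mulLeft F (g σ) ∘ₗ P.pi g := by
    refine P.hom_ext fun ω hω => ?_
    simp only [LinearMap.comp_apply, LinearMap.mulLeft_apply]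
    rw [P.L_sg _ hω, h.act (h.G _) σ hω le_rfl, P.pi_sg _ hω]
  exact LinearMap.congr_fun this v

theorem Good.pi_surjective (h : P.Good g φ) (hg : Algebra.adjoin F (Set.range g) = ⊤) :
    Surjective (P.pi g) := by
  have key : ∀ x ∈ Algebra.adjoin F (Set.range g), ∀ y ∈ LinearMap.range (P.pi g),
      x * y ∈ LinearMap.range (P.pi g) := by
    intro x hx
    induction hx using Algebra.adjoin_induction with
    | mem x hx =>
      obtain ⟨σ, rfl⟩ := hx
      rintro _ ⟨v, rfl⟩
      exact ⟨_, h.pi_L σ v⟩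
    | algebraMap r =>
      intro y hy
      rw [← Algebra.smul_def]
      exact Submodule.smul_mem _ _ hy
    | add x x' _ _ h1 h2 =>
      intro y hy
      rw [add_mul]
      exact add_mem (h1 y hy) (h2 y hy)
    | mul x x' _ _ h1 h2 =>
      intro y hy
      rw [mul_assoc]
      exact h1 _ (h2 y hy)
  intro x
  have h1 : (1 : Q) ∈ LinearMap.range (P.pi g) :=
    ⟨P.sg (one, []), by rw [P.pi_sg _ Setup.NF_one, flat_one, ev_nil]⟩
  have := key x (hg ▸ Algebra.mem_top) 1 h1
  rwa [mul_one] at this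

theorem Good.exists_inv (h : P.Good g φ)
    (hF : ∀ x : F, ∃ (z : ℤ) (d : ℕ), (d : F) ≠ 0 ∧ (d : F) * x = z) {v : P.V} (hv : v ≠ 0) :
    ∃ u w : Q, u * P.pi g v * w = 1 := by
  classical
  obtain ⟨l, hl, hmax⟩ := Finset.exists_max_image v.support (fun ω => P.wt ω.1)
    (Finsupp.support_nonempty_iff.2 hv)
  have hl0 : v l ≠ 0 := Finsupp.mem_support_iff.1 hl
  obtain ⟨d, hd, hz⟩ := exists_common_den hF v.support fun ω => (v l)⁻¹ * v ω
  choose! z hz using hz
  let os₀ : List (Bool × Word K Γ) := (v.support.erase l).toList.flatMap fun ω =>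
    List.replicate (z ω).natAbs (decide (z ω < 0), ω.1)
  obtain ⟨N, hN, hdata⟩ := P.data_surj (l.1, d, os₀) (P.wt l.1 + 1)
  have hell : P.ell N = l.1 := by rw [Setup.ell, hdata]
  have hkk : P.kk N = d := by
    rw [Setup.kk, hdata, if_neg]
    rw [P.ch_eq, ← ringChar.spec]
    exact hd
  have hos : P.os P.ι N = os₀ := by
    rw [Setup.os, hdata, List.filter_eq_self]
    intro p hp
    simp only [os₀, List.mem_flatMap, Finset.mem_toList, Finset.mem_erase] at hp
    obtain ⟨ω, ⟨h1, h2⟩, h3⟩ := hp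
    rw [List.eq_of_mem_replicate h3, hell]
    simp only [decide_eq_true_eq]
    exact ⟨ω.2, fun e => h1 (Subtype.ext e), hmax ω h2⟩
  have h1 := h.simp N
  rw [Setup.simpTerms, if_pos ⟨hell ▸ l.2, by rw [hell]; omega⟩, hkk, hos, hell, poly_cons,
    poly_append, poly_replicate] at h1
  set U := ev g (gX X.x :: (flatM (P.idx N) ++ [gX X.w])) with hU
  set W := ev g (gX X.y :: (flatM (P.idx N) ++ [gX X.w])) with hW
  have huv : ∀ o, ev g (P.uv N o) = U * ev g (flat o) * W := fun o => by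
    rw [Setup.uv_eq', ev_append, ev_append]
  have h2 : ∀ L : List (Bool × Word K Γ), poly g (L.map fun p => (p.1, P.uv N p.2)) =
      U * (L.map fun p => bif p.1 then - ev g (flat p.2) else ev g (flat p.2)).sum * W := by
    intro L
    induction L with
    | nil => simp
    | cons p L ih =>
      obtain ⟨s, o⟩ := p
      rw [List.map_cons, poly_cons, ih, List.map_cons, List.sum_cons, mul_add, add_mul]
      cases s <;> simp [huv]
  have h3 : (os₀.map fun p => bif p.1 then - ev g (flat p.2) else ev g (flat p.2)).sum =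
      ∑ ω ∈ v.support.erase l, z ω • ev g (flat ω.1) := by
    rw [← Finset.sum_map_toList]
    simp only [os₀]
    generalize (v.support.erase l).toList = L
    induction L with
    | nil => simp
    | cons ω L ih =>
      rw [List.flatMap_cons, List.map_append, List.sum_append, ih,
        sum_replicate_sign (fun o => ev g (flat o))]
      simp
  have h4 : ((d : F) * (v l)⁻¹) • P.pi g v =
      d • ev g (flat l.1) + ∑ ω ∈ v.support.erase l, z ω • ev g (flat ω.1) := by
    rw [pi, ext, Finsupp.linearCombination_apply, Finsupp.sum, Finset.smul_sum,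
      ← Finset.add_sum_erase _ _ hl, smul_smul, mul_assoc, inv_mul_cancel₀ hl0, mul_one,
      Nat.cast_smul_eq_nsmul]
    congr 1
    refine Finset.sum_congr rfl fun ω hω => ?_
    rw [smul_smul, mul_assoc, hz ω (Finset.mem_of_mem_erase hω), Int.cast_smul_eq_zsmul]
  refine ⟨((d : F) * (v l)⁻¹) • U, W, ?_⟩
  rw [smul_mul_assoc, ← mul_smul_comm, h4, ← h3, mul_add, add_mul, ← h2, mul_smul_comm,
    smul_mul_assoc, ← huv]
  simp only [tv_true, ev_nil, tv_false] at h1
  rw [← sub_eq_zero, ← h1]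
  abel

end Model

end Pool.Agent.Lib.MP_4d37d6_al.Lie
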