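import Pool.Agent.Lib.MP_4d37d6_al.Lie.Pres
import Pool.Agent.Lib.MP_4d37d6_al.Lie.Comp
import Pool.Agent.Lib.MP_4d37d6_al.Machine

/-!
The core embedding theorem, by Kleene's recursion theorem.
-/

set_option autoImplicit false

namespace Pool.Agent.Lib.MP_4d37d6_al.Lie

open Function

universe u

theorem core {F : Type u} [Field F] {A : Type*} [Ring A] [Algebra F A] (a : ℕ → A)
    (hF : ∀ x : F, ∃ (z : ℤ) (d : ℕ), (d : F) ≠ 0 ∧ (d : F) * x = z)
    (hgen : Algebra.adjoin F (Set.range a) = ⊤)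
    (B : Set (List ℕ)) (hB : ComputablePred fun b => b ∈ B) (hnil : [] ∈ B)
    (bs : Module.Basis B F A) (hbs : ∀ b, bs b = ev a b.1)
    (gR : ℕ → Terms ℕ) (hgc : Computable gR) (hR : ∀ j, poly a (gR j) = 0)
    (huniv : ∀ (Q : Type u) [Ring Q] [Algebra F Q] (a' : ℕ → Q), (∀ j, poly a' (gR j) = 0) →
      ∃ φ : A →ₐ[F] Q, ∀ i, φ (a i) = a' i) :
    ∃ (m : ℕ) (R : Finset (FreeAlgebra F (Fin m))),
      IsSimpleRing (TwoSidedIdeal.span (R : Set (FreeAlgebra F (Fin m)))).ringCon.Quotient ∧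
      Algebra.IsCentral F (TwoSidedIdeal.span (R : Set (FreeAlgebra F (Fin m)))).ringCon.Quotient ∧
      Perf F (TwoSidedIdeal.span (R : Set (FreeAlgebra F (Fin m)))).ringCon.Quotient ∧
      ∃ φ : A →ₐ[F] (TwoSidedIdeal.span (R : Set (FreeAlgebra F (Fin m)))).ringCon.Quotient,
        Injective φ := by
  classical
  obtain ⟨SS, q₀, hfin, hc, hq₀, hU⟩ := TM.exists_universal
  have : Finite SS := hfin.to_subtype
  let _ : Primcodable TM.KK := Primcodable.ofEquiv _ (Finite.equivFin TM.KK)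
  let _ : Primcodable (TM.Γ₀ SS) := Primcodable.ofEquiv _ (Finite.equivFin (TM.Γ₀ SS))
  let enc₀ : Primcodable (Data TM.KK (TM.Γ₀ SS)) := inferInstance
  let enc₁ : Primcodable (Tok TM.KK (TM.Γ₀ SS)) := inferInstance
  let enc₂ : Primcodable ((TM.KK × TM.Γ₀ SS) × ℕ) := inferInstance
  let d₀ : (TM.KK × TM.Γ₀ SS) × ℕ := (((TM.mach SS q₀).kIn, (TM.mach SS q₀).bot), 0)
  let S : Setup TM.KK (TM.Γ₀ SS) :=
    { TM.mach SS q₀ with
      B := B
      data := fun N => (enc₀.decode N.unpair.1).getD ((one, []), 0, [])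
      cdata := fun N => (enc₂.decode N).getD d₀
      cdata_surj := fun d => ⟨enc₂.encode d, by simp [Encodable.encodek]⟩
      tidx := enc₁.encode
      ch := ringChar F
      tidx_inj := @Encodable.encode_injective _ enc₁.toEncodable
      data_surj := fun d j => ⟨Nat.pair (enc₀.encode d) j, Nat.right_le_pair _ _, by
        simp [Encodable.encodek]⟩
      nil_mem := hnil }
  have hd : Primrec S.data :=
    Primrec.option_getD.comp (Primrec.decode.comp (Primrec.fst.comp Primrec.unpair))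
      (Primrec.const _)
  have hcd : Primrec S.cdata := Primrec.option_getD.comp Primrec.decode (Primrec.const _)
  let code : Nat.Partrec.Code → ℕ → ℕ := fun c j =>
    TM.enc (S.str (S.relTerms (TM.iota SS (Encodable.encode c)) gR j))
  have hcode : Computable₂ code :=
    (TM.pr_enc.comp Setup.pr_str).to_comp.comp ((Setup.comp_relTerms hd hB hcd hgc).comp
      (((TM.pr_iota SS).comp (Primrec.encode.comp Primrec.fst)).pair Primrec.snd).to_comp)
  let f : Nat.Partrec.Code → ℕ →. ℕ := fun c N =>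
    Nat.rfind fun j => Part.some (decide (code c j = N))
  have hf : Partrec₂ f := by
    have h1 : Computable₂ fun (p : Nat.Partrec.Code × ℕ) (j : ℕ) => decide (code p.1 j = p.2) :=
      (Primrec.eq (α := ℕ)).decide.to_comp.comp
        (hcode.comp (Computable.fst.comp Computable.fst) Computable.snd)
        (Computable.snd.comp Computable.fst)
    exact Partrec.rfind h1.partrec₂
  obtain ⟨c₀, hc₀⟩ := Nat.Partrec.Code.fixed_point₂ hf
  have key : ∀ s, TM.H q₀ none (TM.S₀ (TM.enc s) (Encodable.encode c₀)) ↔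
      ∃ j, s = S.str (S.relTerms (TM.iota SS (Encodable.encode c₀)) gR j) := by
    intro s
    rw [hU, Denumerable.ofNat_encode, hc₀]
    refine Nat.rfind_dom.trans (exists_congr fun j => ?_)
    simp only [Part.mem_some_iff, true_eq_decide_iff, Part.some_dom, implies_true, and_true]
    exact ⟨fun h => (TM.enc_injective h).symm, fun h => congrArg TM.enc h.symm⟩
  let P : Model TM.KK (TM.Γ₀ SS) F A :=
    { S with
      ι := TM.iota SS (Encodable.encode c₀)
      bwd_ι := TM.bwd_iota SS q₀ _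
      a := a
      bs := bs
      bs_eq := hbs
      ch_eq := rfl }
  refine P.main hF hgen hR huniv (fun j => ?_) fun c hd => ?_
  · obtain ⟨c, h1, h2⟩ := TM.dead_of_H hc hq₀ ((key _).2 ⟨j, rfl⟩)
    exact ⟨c, [], h1, h2⟩
  · obtain ⟨s, t, h1, h2⟩ := TM.of_dead hc hq₀ hd
    obtain ⟨j, rfl⟩ := (key s).1 h2
    exact ⟨j, t, h1⟩

end Pool.Agent.Lib.MP_4d37d6_al.Lie
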