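import Pool.Agent.Lib.MP_4d37d6_al.Lie.Inj

/-!
The Lie algebra of five by five matrices modulo scalars: simplicity and finite presentation.
-/

set_option autoImplicit false

namespace Pool.Agent.Lib.MP_4d37d6_al.Lie

open Function

universe u

attribute [local instance 100] LieRing.ofAssociativeRing

variable {F : Type u} [Field F]

/-- the quotient map as a morphism of Lie algebras -/
def qmk {L : Type*} [LieRing L] [LieAlgebra F L] (I : LieIdeal F L) : L →ₗ⁅F⁆ L ⧸ I :=
  { I.toSubmodule.mkQ with map_lie' := rfl }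

theorem qmk_surjective {L : Type*} [LieRing L] [LieAlgebra F L] (I : LieIdeal F L) :
    Surjective (qmk I) := Quot.mk_surjective

theorem qmk_eq_zero {L : Type*} [LieRing L] [LieAlgebra F L] (I : LieIdeal F L) (x : L) :
    qmk I x = 0 ↔ x ∈ I := LieSubmodule.Quotient.mk_eq_zero'

theorem exists_lie_lift {A B C : Type*} [LieRing A] [LieRing B] [LieRing C] [LieAlgebra F A]
    [LieAlgebra F B] [LieAlgebra F C] (f : A →ₗ⁅F⁆ B) (hf : Surjective f) (g : A →ₗ⁅F⁆ C)
    (h : ∀ a, f a = 0 → g a = 0) : ∃ k : B →ₗ⁅F⁆ C, ∀ a, k (f a) = g a := by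
  obtain ⟨ρ, hρ⟩ := f.toLinearMap.exists_rightInverse_of_surjective (LinearMap.range_eq_top.2 hf)
  have hρ' : ∀ b, f (ρ b) = b := fun b => congr($hρ b)
  have hk : ∀ a, g (ρ (f a)) = g a := fun a => by
    rw [← sub_eq_zero, ← map_sub]
    exact h _ (by rw [map_sub, hρ', sub_self])
  refine ⟨{ g.toLinearMap ∘ₗ ρ with map_lie' := fun {x y} => ?_ }, hk⟩
  obtain ⟨x, rfl⟩ := hf x
  obtain ⟨y, rfl⟩ := hf y
  change g (ρ ⁅f x, f y⁆) = ⁅g (ρ (f x)), g (ρ (f y))⁆
  rw [← LieHom.map_lie, hk, hk, hk, LieHom.map_lie]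

theorem free_gen {Z : Type*} (K : LieSubalgebra F (FreeLieAlgebra F Z))
    (h : ∀ z, FreeLieAlgebra.of F z ∈ K) : K = ⊤ := by
  let φ : FreeLieAlgebra F Z →ₗ⁅F⁆ K := FreeLieAlgebra.lift F fun z => ⟨_, h z⟩
  have e : K.incl.comp φ = LieHom.id := FreeLieAlgebra.hom_ext fun z => by simp [φ]
  rw [eq_top_iff]
  rintro x -
  have : K.incl (φ x) = x := congr($e x)
  rw [← this]
  exact (φ x).2

/-- finitely presented Lie algebra -/
def LieFP (F L : Type u) [Field F] [LieRing L] [LieAlgebra F L] : Prop :=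
  ∃ (m : ℕ) (π : FreeLieAlgebra F (Fin m) →ₗ⁅F⁆ L) (T : Finset (FreeLieAlgebra F (Fin m))),
    Surjective π ∧ π.ker = LieSubmodule.lieSpan F _ (T : Set (FreeLieAlgebra F (Fin m)))

theorem LieFP.quot {L : Type u} [LieRing L] [LieAlgebra F L] (h : LieFP F L) (I : LieIdeal F L)
    (z : L) (hz : z ∈ I) (hI : ∀ x ∈ I, ∃ c : F, x = c • z) : LieFP F (L ⧸ I) := by
  classical
  obtain ⟨m, π, T, hπ, hT⟩ := h
  obtain ⟨z, rfl⟩ := hπ z
  refine ⟨m, (qmk I).comp π, insert z T, (qmk_surjective I).comp hπ, le_antisymm ?_ ?_⟩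
  · intro x hx
    rw [LieHom.mem_ker, LieHom.comp_apply, qmk_eq_zero] at hx
    obtain ⟨c, hc⟩ := hI _ hx
    have h1 : x - c • z ∈ π.ker := by rw [LieHom.mem_ker, map_sub, map_smul, hc, sub_self]
    rw [hT] at h1
    have h2 := LieSubmodule.lieSpan_mono (R := F) (L := FreeLieAlgebra F (Fin m))
      (Finset.coe_subset.2 (Finset.subset_insert z T)) h1
    have h3 : z ∈ LieSubmodule.lieSpan F (FreeLieAlgebra F (Fin m))
        ((insert z T : Finset _) : Set (FreeLieAlgebra F (Fin m))) :=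
      LieSubmodule.subset_lieSpan (by simp)
    simpa using add_mem h2 (SMulMemClass.smul_mem c h3)
  · rw [LieSubmodule.lieSpan_le]
    intro x hx
    rw [SetLike.mem_coe, LieHom.mem_ker, LieHom.comp_apply, qmk_eq_zero]
    rcases Finset.mem_insert.1 hx with rfl | hx
    · exact hz
    · have : x ∈ π.ker := by rw [hT]; exact LieSubmodule.subset_lieSpan hx
      rw [LieHom.mem_ker.1 this]
      exact zero_mem _

variable {R : Type u} [Ring R] [Algebra F R]

open Matrix

theorem lie_single_mul {i j k : Fin 5} (h : i ≠ k) (a b : R) :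
    ⁅single i j a, single j k b⁆ = single i k (a * b) := by
  rw [LieRing.of_associative_ring_bracket, single_mul_single_same,
    single_mul_single_of_ne _ _ _ _ h.symm, sub_zero]

theorem lie_single_zero {i j k l : Fin 5} (h : j ≠ k) (h' : i ≠ l) (a b : R) :
    ⁅single i j a, single k l b⁆ = 0 := by
  rw [LieRing.of_associative_ring_bracket, single_mul_single_of_ne _ _ _ _ h,
    single_mul_single_of_ne _ _ _ _ h'.symm, sub_zero]

theorem lie_single_diag (i j : Fin 5) (a b : R) :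
    ⁅single i j a, single j i b⁆ = single i i (a * b) - single j j (b * a) := by
  rw [LieRing.of_associative_ring_bracket, single_mul_single_same, single_mul_single_same]

theorem submodule_eq_top (hp : Perf F R) (K : Submodule F (Matrix (Fin 5) (Fin 5) R))
    (h1 : ∀ i j r, i ≠ j → single i j r ∈ K)
    (h2 : ∀ i j (a b : R), i ≠ j → ⁅single i j a, single j i b⁆ ∈ K) : K = ⊤ := by
  have h3 : ∀ i r, single i i r ∈ K := by
    intro i r
    have hx : r ∈ Submodule.span F {r : R | ∃ u v, r = u * v - v * u} := by rw [hp]; trivial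
    induction hx using Submodule.span_induction with
    | mem x hx =>
      obtain ⟨a, b, rfl⟩ := hx
      have e1 := h2 i _ a b (pk_ne i i).1
      have e2 := h2 i _ (b * a) 1 (pk_ne i i).1
      rw [lie_single_diag] at e1 e2
      rw [mul_one, one_mul] at e2
      have e3 := sub_mem e1 e2
      rw [sub_sub_sub_cancel_right] at e3
      have e4 : single i i (a * b - b * a) = single i i (a * b) - single i i (b * a) :=
        map_sub (singleLinearMap F i i) _ _
      rwa [e4]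
    | zero => simp
    | add x y _ _ hx hy => rw [single_add]; exact add_mem hx hy
    | smul c x _ hx => rw [← smul_single]; exact K.smul_mem _ hx
  rw [eq_top_iff]
  rintro M -
  rw [matrix_eq_sum_single M]
  refine sum_mem fun i _ => sum_mem fun j _ => ?_
  by_cases h : i = j
  · subst h; exact h3 _ _
  · exact h1 _ _ _ h

theorem gl_fp (hp : Perf F R) (hc : HC F R) (hf : FP F R) :
    LieFP F (Matrix (Fin 5) (Fin 5) R) := by
  classical
  obtain ⟨Z, hZ, ψ, T, hT, hψ, hker⟩ := hf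
  obtain ⟨m, ⟨e⟩⟩ := Finite.exists_equiv_fin (Fin 5 × Fin 5 × Option Z)
  let γ : Fin 5 → Fin 5 → Option Z → FreeLieAlgebra F (Fin m) := fun i j o =>
    FreeLieAlgebra.of F (e (i, j, o))
  let val : Option Z → R := fun o => o.elim 1 fun s => ψ (FreeAlgebra.ι F s)
  let π : FreeLieAlgebra F (Fin m) →ₗ⁅F⁆ Matrix (Fin 5) (Fin 5) R :=
    FreeLieAlgebra.lift F fun n => if (e.symm n).1 = (e.symm n).2.1 then 0 else
      single (e.symm n).1 (e.symm n).2.1 (val (e.symm n).2.2)
  have hπ0 : ∀ i o, π (γ i i o) = 0 := fun i o => by simp [π, γ]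
  have hπ1 : ∀ i j o, i ≠ j → π (γ i j o) = single i j (val o) := fun i j o h => by
    simp [π, γ, h]
  have hπw : ∀ (w : List Z) i j, i ≠ j → π (xw γ w i j) =
      single i j (ψ (FreeMonoid.lift (FreeAlgebra.ι F) (FreeMonoid.ofList w))) := by
    intro w
    induction w with
    | nil => intro i j h; simp [xw, hπ1 _ _ _ h, val]
    | cons s w ih =>
      intro i j h
      rw [xw, LieHom.map_lie, hπ1 _ _ _ (pk_ne i j).1, ih _ _ (pk_ne i j).2, lie_single_mul h]
      simp [val]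
  have hπX : ∀ i j a, i ≠ j → π (XF F γ i j a) = single i j (ψ a) := by
    intro i j a h
    have : π.toLinearMap ∘ₗ XF F γ i j = singleLinearMap F i j ∘ₗ ψ.toLinearMap :=
      (FreeAlgebra.basisFreeMonoid F Z).ext fun w => by
        rw [LinearMap.comp_apply, XF_basis, basisFreeMonoid_apply]
        exact hπw _ _ _ h
    exact congr($this a)
  let T₁ : Set (FreeLieAlgebra F (Fin m)) := {x | ∃ i o, x = γ i i o}
  let T₂ : Set (FreeLieAlgebra F (Fin m)) :=
    {x | ∃ i j k l o o', i ≠ j ∧ k ≠ l ∧ j ≠ k ∧ i ≠ l ∧ x = ⁅γ i j o, γ k l o'⁆}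
  let T₃ : Set (FreeLieAlgebra F (Fin m)) :=
    {x | ∃ i j k o, i ≠ j ∧ j ≠ k ∧ i ≠ k ∧ x = ⁅γ i j none, γ j k o⁆ - γ i k o}
  let T₄ : Set (FreeLieAlgebra F (Fin m)) :=
    {x | ∃ i j k o, i ≠ j ∧ j ≠ k ∧ i ≠ k ∧ x = ⁅γ i j o, γ j k none⁆ - γ i k o}
  let T₅ : Set (FreeLieAlgebra F (Fin m)) := {x | ∃ i j, ∃ r ∈ T, i ≠ j ∧ x = XF F γ i j r}
  have f₁ : T₁.Finite := (Set.finite_range fun p : Fin 5 × Option Z => γ p.1 p.1 p.2).subset (by
    rintro _ ⟨i, o, rfl⟩; exact ⟨(i, o), rfl⟩)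
  have f₂ : T₂.Finite := (Set.finite_range
    fun p : (Fin 5 × Fin 5 × Option Z) × (Fin 5 × Fin 5 × Option Z) =>
      ⁅γ p.1.1 p.1.2.1 p.1.2.2, γ p.2.1 p.2.2.1 p.2.2.2⁆).subset (by
    rintro _ ⟨i, j, k, l, o, o', -, -, -, -, rfl⟩; exact ⟨((i, j, o), (k, l, o')), rfl⟩)
  have f₃ : T₃.Finite := (Set.finite_range fun p : Fin 5 × Fin 5 × Fin 5 × Option Z =>
      ⁅γ p.1 p.2.1 none, γ p.2.1 p.2.2.1 p.2.2.2⁆ - γ p.1 p.2.2.1 p.2.2.2).subset (by
    rintro _ ⟨i, j, k, o, -, -, -, rfl⟩; exact ⟨(i, j, k, o), rfl⟩)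
  have f₄ : T₄.Finite := (Set.finite_range fun p : Fin 5 × Fin 5 × Fin 5 × Option Z =>
      ⁅γ p.1 p.2.1 p.2.2.2, γ p.2.1 p.2.2.1 none⁆ - γ p.1 p.2.2.1 p.2.2.2).subset (by
    rintro _ ⟨i, j, k, o, -, -, -, rfl⟩; exact ⟨(i, j, k, o), rfl⟩)
  have f₅ : T₅.Finite := (((Set.finite_univ (α := Fin 5 × Fin 5)).prod hT).image
      fun p => XF F γ p.1.1 p.1.2 p.2).subset (by
    rintro _ ⟨i, j, r, hr, -, rfl⟩; exact ⟨((i, j), r), ⟨trivial, hr⟩, rfl⟩)
  have hfin : (T₁ ∪ T₂ ∪ T₃ ∪ T₄ ∪ T₅).Finite := (((f₁.union f₂).union f₃).union f₄).union f₅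
  refine ⟨m, π, hfin.toFinset, ?_, ?_⟩
  · rw [← LieHom.coe_toLinearMap, ← LinearMap.range_eq_top]
    have h1 : ∀ i j r, i ≠ j → ∃ x, π x = single i j r := fun i j r h => by
      obtain ⟨a, rfl⟩ := hψ r
      exact ⟨_, hπX i j a h⟩
    refine submodule_eq_top hp _ h1 fun i j a b h => ?_
    obtain ⟨x, hx⟩ := h1 i j a h
    obtain ⟨y, hy⟩ := h1 j i b h.symm
    exact ⟨⁅x, y⁆, by rw [← hx, ← hy]; exact π.map_lie x y⟩
  rw [Set.Finite.coe_toFinset]
  set I := LieSubmodule.lieSpan F (FreeLieAlgebra F (Fin m)) (T₁ ∪ T₂ ∪ T₃ ∪ T₄ ∪ T₅) with hI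
  have hle : I ≤ π.ker := by
    rw [hI, LieSubmodule.lieSpan_le]
    rintro x ((((⟨i, o, rfl⟩ | ⟨i, j, k, l, o, o', h1, h2, h3, h4, rfl⟩) |
      ⟨i, j, k, o, h1, h2, h3, rfl⟩) | ⟨i, j, k, o, h1, h2, h3, rfl⟩) | ⟨i, j, r, hr, h1, rfl⟩) <;>
      rw [SetLike.mem_coe, LieHom.mem_ker]
    · exact hπ0 _ _
    · rw [LieHom.map_lie, hπ1 _ _ _ h1, hπ1 _ _ _ h2, lie_single_zero h3 h4]
    · rw [map_sub, LieHom.map_lie, hπ1 _ _ _ h1, hπ1 _ _ _ h2, hπ1 _ _ _ h3, lie_single_mul h3]
      simp [val]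
    · rw [map_sub, LieHom.map_lie, hπ1 _ _ _ h1, hπ1 _ _ _ h2, hπ1 _ _ _ h3, lie_single_mul h3]
      simp [val]
    · rw [hπX _ _ _ h1, (hker r).2 (TwoSidedIdeal.subset_span hr), single_zero]
  refine le_antisymm ?_ hle
  have hq : ∀ x ∈ T₁ ∪ T₂ ∪ T₃ ∪ T₄ ∪ T₅, qmk I x = 0 := fun x hx =>
    (qmk_eq_zero I x).2 (LieSubmodule.subset_lieSpan hx)
  let g : Fin 5 → Fin 5 → Option Z → FreeLieAlgebra F (Fin m) ⧸ I := fun i j o => qmk I (γ i j o)
  have hg : StRel g :=
    { comm := fun i j k l o o' h1 h2 h3 h4 => by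
        rw [← LieHom.map_lie]
        exact hq _ (Or.inl (Or.inl (Or.inl (Or.inr ⟨i, j, k, l, o, o', h1, h2, h3, h4, rfl⟩))))
      left := fun i j k o h1 h2 h3 => by
        rw [← LieHom.map_lie, ← sub_eq_zero, ← map_sub]
        exact hq _ (Or.inl (Or.inl (Or.inr ⟨i, j, k, o, h1, h2, h3, rfl⟩)))
      right := fun i j k o h1 h2 h3 => by
        rw [← LieHom.map_lie, ← sub_eq_zero, ← map_sub]
        exact hq _ (Or.inl (Or.inr ⟨i, j, k, o, h1, h2, h3, rfl⟩)) }
  have hX0 : ∀ a, ψ a = 0 → ∀ i j, i ≠ j → XF F g i j a = 0 := fun a ha =>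
    hg.XF_span (T := T) (fun r hr i j h => by
      rw [← map_XF]
      exact hq _ (Or.inr ⟨i, j, r, hr, h, rfl⟩)) ((hker a).1 ha)
  obtain ⟨ρ, hρ⟩ := ψ.toLinearMap.exists_rightInverse_of_surjective (LinearMap.range_eq_top.2 hψ)
  have hρ' : ∀ b, ψ (ρ b) = b := fun b => congr($hρ b)
  let Y : Fin 5 → Fin 5 → R →ₗ[F] FreeLieAlgebra F (Fin m) ⧸ I := fun i j => XF F g i j ∘ₗ ρ
  have hY : ∀ i j a, i ≠ j → Y i j (ψ a) = XF F g i j a := fun i j a h => by
    change XF F g i j (ρ (ψ a)) = _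
    rw [← sub_eq_zero, ← map_sub]
    exact hX0 _ (by rw [map_sub, hρ', sub_self]) _ _ h
  obtain ⟨π', hπ'⟩ := exists_lie_lift (qmk I) (qmk_surjective I) π fun a ha =>
    hle ((qmk_eq_zero I a).1 ha)
  have hinj : Injective π' := by
    refine st_injective hc Y (fun i j k l a b h1 h2 h3 h4 => hg.XF_comm h1 h2 h3 h4 _ _)
      (fun i j k a b h1 h2 h3 => ?_) (fun K hK => ?_) π' fun i j r h => ?_
    · obtain ⟨a, rfl⟩ := hψ a
      obtain ⟨b, rfl⟩ := hψ b
      rw [← map_mul, hY _ _ _ h1, hY _ _ _ h2, hY _ _ _ h3, hg.XF_mul h1 h2 h3]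
    · have h1 : K.comap (qmk I) = ⊤ := free_gen _ fun n => by
        obtain ⟨⟨i, j, o⟩, rfl⟩ := e.surjective n
        change g i j o ∈ K
        by_cases h : i = j
        · subst h
          have : g i i o = 0 := hq _ (Or.inl (Or.inl (Or.inl (Or.inl ⟨i, o, rfl⟩))))
          rw [this]; exact zero_mem _
        · cases o with
          | none => rw [← StRel.XF_one (F := F) (g := g), ← hY _ _ _ h]; exact hK _ _ _ h
          | some s => rw [← hg.XF_ι (F := F) h, ← hY _ _ _ h]; exact hK _ _ _ h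
      rw [eq_top_iff]
      rintro x -
      obtain ⟨x, rfl⟩ := qmk_surjective I x
      have : x ∈ K.comap (qmk I) := by rw [h1]; trivial
      exact this
    · obtain ⟨a, rfl⟩ := hψ r
      rw [hY _ _ _ h, ← map_XF, hπ', hπX _ _ _ h]
  intro x hx
  rw [← qmk_eq_zero]
  apply hinj
  rw [hπ', map_zero]
  exact hx

variable (F R) in
/-- the scalar matrices -/
def scal : LieIdeal F (Matrix (Fin 5) (Fin 5) R) :=
  { Submodule.span F {(1 : Matrix (Fin 5) (Fin 5) R)} with
    lie_mem := fun {x y} hy => by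
      obtain ⟨c, rfl⟩ := Submodule.mem_span_singleton.1 hy
      have : ⁅x, c • (1 : Matrix (Fin 5) (Fin 5) R)⁆ = 0 := by
        rw [LieRing.of_associative_ring_bracket]; simp
      rw [this]
      exact Submodule.zero_mem _ }

theorem mem_scal {M : Matrix (Fin 5) (Fin 5) R} : M ∈ scal F R ↔ ∃ c : F, c • 1 = M :=
  Submodule.mem_span_singleton

theorem ideal_eq_top [IsSimpleRing R] (hp : Perf F R) (J : LieIdeal F (Matrix (Fin 5) (Fin 5) R))
    {M : Matrix (Fin 5) (Fin 5) R} (hM : M ∈ J) {i j : Fin 5} (hij : i ≠ j) (h0 : M i j ≠ 0) :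
    J = ⊤ := by
  obtain ⟨p, p1, p2, -, -⟩ := exists_ne4 i j j j
  have h1 : ∀ x y, single p j (x * M i j * y) ∈ J := by
    intro x y
    have e : ⁅single p i (1 : R), ⁅single i i x, ⁅single j j y, M⁆⁆⁆ =
        -single p j (x * M i j * y) := by
      have e1 : ⁅single i i x, ⁅single j j y, M⁆⁆ =
          -single i j (x * M i j * y) - single j i (y * M j i * x) := by
        simp only [LieRing.of_associative_ring_bracket, mul_sub, sub_mul]
        rw [← mul_assoc, single_mul_single_of_ne _ _ _ _ hij, ← mul_assoc, single_mul_mul_single,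
          single_mul_mul_single, mul_assoc M, single_mul_single_of_ne _ _ _ _ hij.symm]
        simp
      rw [e1, lie_sub, lie_neg, lie_single_mul p2, lie_single_zero hij p1, one_mul, sub_zero]
    rw [← neg_mem_iff, ← e]
    exact J.lie_mem (J.lie_mem (J.lie_mem hM))
  have h2 : ∀ r, single p j r ∈ J := by
    intro r
    have h3 : (1 : R) ∈ TwoSidedIdeal.span {M i j} :=
      IsSimpleRing.one_mem_of_ne_zero_mem _ h0 (TwoSidedIdeal.subset_span rfl)
    have h4 : ∀ a ∈ TwoSidedIdeal.span {M i j}, ∀ x y, single p j (x * a * y) ∈ J := by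
      intro a ha
      induction ha using TwoSidedIdeal.span_induction with
      | mem x hx => obtain rfl := hx; exact h1
      | zero => simp
      | add a b _ _ ha hb =>
        intro x y; rw [mul_add, add_mul, single_add]; exact add_mem (ha x y) (hb x y)
      | neg a _ ha =>
        intro x y; rw [mul_neg, neg_mul, ← single_neg]; exact neg_mem (ha x y)
      | left_absorb b a _ ha => intro x y; rw [← mul_assoc]; exact ha _ _
      | right_absorb b a _ ha => intro x y; rw [← mul_assoc, mul_assoc _ b]; exact ha _ _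
    simpa using h4 1 h3 r 1
  have h3 : ∀ k r, k ≠ j → single k j r ∈ J := by
    intro k r hk
    have := J.lie_mem (x := single k p 1) (h2 r)
    rwa [lie_single_mul hk, one_mul] at this
  have h4 : ∀ k l r, k ≠ l → single k l r ∈ J := by
    intro k l r hkl
    obtain ⟨q, q1, q2, q3, -⟩ := exists_ne4 k l j j
    have e1 : single q l r ∈ J := by
      have := J.lie_mem (x := single j l 1) (h3 q r q3)
      rw [← lie_skew, lie_single_mul q2, mul_one] at this
      exact neg_mem_iff.1 this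
    have := J.lie_mem (x := single k q 1) e1
    rwa [lie_single_mul hkl, one_mul] at this
  rw [← LieSubmodule.toSubmodule_eq_top]
  exact submodule_eq_top hp _ h4 fun i j a b h => J.lie_mem (h4 _ _ _ h.symm)

theorem pgl_simple [IsSimpleRing R] [Algebra.IsCentral F R] (hp : Perf F R) :
    LieAlgebra.IsSimple F (Matrix (Fin 5) (Fin 5) R ⧸ scal F R) := by
  constructor
  · intro I
    rw [or_iff_not_imp_right]
    intro hI
    let J := I.comap (qmk (scal F R))
    have hJ : ∀ M ∈ J, ∀ i j, i ≠ j → M i j = 0 := by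
      intro M hM i j hij
      by_contra h0
      apply hI
      rw [eq_top_iff]
      rintro x -
      obtain ⟨x, rfl⟩ := qmk_surjective _ x
      have : x ∈ J := by rw [ideal_eq_top hp J hM hij h0]; trivial
      exact this
    rw [eq_bot_iff]
    intro x hx
    obtain ⟨M, rfl⟩ := qmk_surjective _ x
    have hM : M ∈ J := hx
    have h1 : ∀ i j r, i ≠ j → r * M j j = M i i * r := by
      intro i j r hij
      have := hJ _ (J.lie_mem (x := single i j r) hM) i j hij
      rw [LieRing.of_associative_ring_bracket, Matrix.sub_apply, single_mul_apply_same,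
        mul_single_apply_same, sub_eq_zero] at this
      exact this
    have h2 : ∀ i, M i i = M 0 0 := by
      intro i
      by_cases h : i = 0
      · rw [h]
      · simpa using (h1 i 0 1 h).symm
    have h3 : M 0 0 ∈ Subalgebra.center F R := by
      rw [Subalgebra.mem_center_iff]
      intro r
      have := h1 0 1 r (by decide)
      rwa [h2 1] at this
    obtain ⟨c, hc⟩ := (Algebra.IsCentral.mem_center_iff F).1 h3
    rw [LieSubmodule.mem_bot, qmk_eq_zero, mem_scal]
    refine ⟨c, ?_⟩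
    ext i j
    by_cases h : i = j
    · subst h; simp [h2, hc, Algebra.algebraMap_eq_smul_one]
    · simp [hJ M hM i j h, h]
  · intro h
    have h1 := h.trivial (qmk (scal F R) (single 0 1 1)) (qmk (scal F R) (single 1 2 1))
    rw [← LieHom.map_lie, lie_single_mul (by decide), qmk_eq_zero, mem_scal] at h1
    obtain ⟨c, hc⟩ := h1
    have := congr($hc 0 2)
    simp at this

theorem exists_simple_lie [IsSimpleRing R] [Algebra.IsCentral F R] (hp : Perf F R) (hc : HC F R)
    (hf : FP F R) : ∃ (G : Type u) (_ : LieRing G) (_ : LieAlgebra F G),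
      LieAlgebra.IsSimple F G ∧ LieFP F G ∧ ∃ φ : R →ₗ⁅F⁆ G, Injective φ := by
  let c : R →ₗ⁅F⁆ Matrix (Fin 5) (Fin 5) R :=
    { singleLinearMap F 0 0 with
      map_lie' := fun {x y} => by
        change single 0 0 (x * y - y * x) = ⁅single 0 0 x, single 0 0 y⁆
        rw [lie_single_diag]
        exact map_sub (singleLinearMap F (0 : Fin 5) (0 : Fin 5)) _ _ }
  refine ⟨Matrix (Fin 5) (Fin 5) R ⧸ scal F R, inferInstance, inferInstance, pgl_simple hp,
    (gl_fp hp hc hf).quot _ 1 (mem_scal.2 ⟨1, one_smul _ _⟩) fun x hx => ?_,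
    (qmk _).comp c, ?_⟩
  · obtain ⟨c, rfl⟩ := mem_scal.1 hx
    exact ⟨c, rfl⟩
  · rw [injective_iff_map_eq_zero]
    intro a ha
    rw [LieHom.comp_apply, qmk_eq_zero, mem_scal] at ha
    obtain ⟨d, hd⟩ := ha
    have e : c a = single 0 0 a := rfl
    have h1 := congr($hd 1 1)
    have h2 := congr($hd 0 0)
    rw [e] at h1 h2
    simp only [Matrix.smul_apply, one_apply_eq, single_apply_same] at h1 h2
    rw [← h2, h1]
    simp

theorem exists_simple_lie' {S : Type u} [Ring S] [Algebra F S] [IsSimpleRing S]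
    [Algebra.IsCentral F S] (hp : Perf F S) (hf : FP F S) :
    ∃ (G : Type u) (_ : LieRing G) (_ : LieAlgebra F G),
      LieAlgebra.IsSimple F G ∧ LieFP F G ∧ ∃ φ : S →ₗ⁅F⁆ G, Injective φ := by
  have := simple_tensor (F := F) (S := S)
  have := central_tensor (F := F) (S := S)
  obtain ⟨G, _, _, h1, h2, φ, hφ⟩ := exists_simple_lie (perf_tensor hp) (hc_tensor hp)
    (fp_tensor hf)
  refine ⟨G, _, _, h1, h2, φ.comp (Algebra.TensorProduct.includeRight (R := F) (A := S)
    (B := S)).toLieHom, hφ.comp ?_⟩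
  exact Algebra.TensorProduct.includeRight_injective (algebraMap F S).injective

end Pool.Agent.Lib.MP_4d37d6_al.Lie
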