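import Pool.Agent.Lib.MP_4d37d6_al.Lie.Stein

/-!
A Lie algebra generated by Steinberg elements injects into the matrix Lie algebra when
cyclic one-cocycles are coboundaries.
-/

set_option autoImplicit false

namespace Pool.Agent.Lib.MP_4d37d6_al.Lie

open Function

universe u

attribute [local instance 100] LieRing.ofAssociativeRing

variable {F : Type u} [Field F] {L : Type u} [LieRing L] [LieAlgebra F L]
  {R : Type u} [Ring R] [Algebra F R]

theorem st_injective (hc : HC F R) (Y : Fin 5 → Fin 5 → R →ₗ[F] L)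
    (hcomm : ∀ i j k l a b, i ≠ j → k ≠ l → j ≠ k → i ≠ l → ⁅Y i j a, Y k l b⁆ = 0)
    (hmul : ∀ i j k a b, i ≠ j → j ≠ k → i ≠ k → ⁅Y i j a, Y j k b⁆ = Y i k (a * b))
    (hgen : ∀ K : LieSubalgebra F L, (∀ i j r, i ≠ j → Y i j r ∈ K) → K = ⊤)
    (π : L →ₗ⁅F⁆ Matrix (Fin 5) (Fin 5) R)
    (hπ : ∀ i j r, i ≠ j → π (Y i j r) = Matrix.single i j r) : Injective π := by
  classical
  let N : Submodule F L := Submodule.span F {x | ∃ i j r, i ≠ j ∧ x = Y i j r}
  let V : Submodule F L := N ⊔ Submodule.span F {x | ∃ i j a b, i ≠ j ∧ x = ⁅Y i j a, Y j i b⁆}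
  have hN : ∀ i j r, i ≠ j → Y i j r ∈ N := fun i j r h => Submodule.subset_span ⟨i, j, r, h, rfl⟩
  have hNV : N ≤ V := le_sup_left
  have hH : ∀ i j a b, i ≠ j → ⁅Y i j a, Y j i b⁆ ∈ V := fun i j a b h =>
    Submodule.mem_sup_right (Submodule.subset_span ⟨i, j, a, b, h, rfl⟩)
  have hYY : ∀ k l r i j a, k ≠ l → i ≠ j → ⁅Y k l r, Y i j a⁆ ∈ V := by
    intro k l r i j a h1 h2
    by_cases c1 : l = i
    · subst c1
      by_cases c2 : k = j
      · subst c2; exact hH _ _ _ _ h1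
      · rw [hmul _ _ _ _ _ h1 h2 c2]; exact hNV (hN _ _ _ c2)
    · by_cases c2 : k = j
      · subst c2
        rw [← lie_skew, hmul _ _ _ _ _ h2 h1 (Ne.symm c1)]
        exact neg_mem (hNV (hN _ _ _ (Ne.symm c1)))
      · rw [hcomm _ _ _ _ _ _ h1 h2 c1 c2]; exact zero_mem _
  have hYN : ∀ k l r, k ≠ l → ∀ x ∈ N, ⁅Y k l r, x⁆ ∈ V := by
    intro k l r h1 x hx
    induction hx using Submodule.span_induction with
    | mem x hx => obtain ⟨i, j, a, h2, rfl⟩ := hx; exact hYY _ _ _ _ _ _ h1 h2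
    | zero => rw [lie_zero]; exact zero_mem _
    | add x y _ _ hx hy => rw [lie_add]; exact add_mem hx hy
    | smul c x _ hx => rw [lie_smul]; exact Submodule.smul_mem _ _ hx
  have L1 : ∀ k l r i j a b, k ≠ l → i ≠ j → ¬ (l = i ∧ k = j) →
      ⁅⁅Y k l r, Y i j a⁆, Y j i b⁆ ∈ N := by
    intro k l r i j a b h1 h2 h3
    by_cases c1 : l = i
    · subst c1
      have c2 : k ≠ j := fun c => h3 ⟨rfl, c⟩
      rw [hmul _ _ _ _ _ h1 h2 c2, hmul _ _ _ _ _ c2 h2.symm h1]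
      exact hN _ _ _ h1
    · by_cases c2 : k = j
      · subst c2
        rw [← lie_skew (Y k l r), hmul _ _ _ _ _ h2 h1 (Ne.symm c1), neg_lie, lie_skew,
          hmul _ _ _ _ _ h2.symm (Ne.symm c1) h1]
        exact hN _ _ _ h1
      · rw [hcomm _ _ _ _ _ _ h1 h2 c1 c2, zero_lie]; exact zero_mem _
  have L2 : ∀ k l r i j a b, k ≠ l → i ≠ j → ¬ (l = i ∧ k = j) → ¬ (l = j ∧ k = i) →
      ⁅Y k l r, ⁅Y i j a, Y j i b⁆⁆ ∈ N := by
    intro k l r i j a b h1 h2 h3 h4
    rw [leibniz_lie, ← lie_skew (Y i j a)]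
    exact add_mem (L1 _ _ _ _ _ _ _ h1 h2 h3) (neg_mem (L1 _ _ _ _ _ _ _ h1 h2.symm h4))
  have L3 : ∀ k l r i j a b, k ≠ l → i ≠ j → ⁅Y k l r, ⁅Y i j a, Y j i b⁆⁆ ∈ V := by
    intro k l r i j a b h1 h2
    obtain ⟨q, q1, q2, q3, q4⟩ := exists_ne4 i j k l
    have e := hmul k q l r 1 q3.symm q4 h1
    rw [mul_one] at e
    rw [← e, lie_lie]
    exact sub_mem (hYN _ _ _ q3.symm _ (L2 _ _ _ _ _ _ _ q4 h2 (fun c => q2 c.2) fun c => q1 c.2))
      (hYN _ _ _ q4 _ (L2 _ _ _ _ _ _ _ q3.symm h2 (fun c => q1 c.1) fun c => q2 c.1))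
  have hYV : ∀ k l r, k ≠ l → ∀ x ∈ V, ⁅Y k l r, x⁆ ∈ V := by
    intro k l r h1 x hx
    obtain ⟨y, hy, z, hz, rfl⟩ := Submodule.mem_sup.1 hx
    rw [lie_add]
    refine add_mem (hYN _ _ _ h1 _ hy) ?_
    clear hx
    induction hz using Submodule.span_induction with
    | mem x hx => obtain ⟨i, j, a, b, h2, rfl⟩ := hx; exact L3 _ _ _ _ _ _ _ h1 h2
    | zero => rw [lie_zero]; exact zero_mem _
    | add x y _ _ hx hy => rw [lie_add]; exact add_mem hx hy
    | smul c x _ hx => rw [lie_smul]; exact Submodule.smul_mem _ _ hx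
  let K₁ : LieSubalgebra F L :=
    { carrier := {y | ∀ v ∈ V, ⁅y, v⁆ ∈ V}
      add_mem' := fun ha hb v hv => by rw [add_lie]; exact add_mem (ha v hv) (hb v hv)
      zero_mem' := fun v hv => by rw [zero_lie]; exact zero_mem _
      smul_mem' := fun c x hx v hv => by rw [smul_lie]; exact Submodule.smul_mem _ _ (hx v hv)
      lie_mem' := fun ha hb v hv => by
        rw [lie_lie]; exact sub_mem (ha _ (hb v hv)) (hb _ (ha v hv)) }
  have hK₁ : ∀ y, ∀ v ∈ V, ⁅y, v⁆ ∈ V := fun y => by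
    have : y ∈ K₁ := by rw [hgen K₁ fun i j r h => hYV i j r h]; trivial
    exact this
  let K₂ : LieSubalgebra F L := { V with lie_mem' := fun _ hb => hK₁ _ _ hb }
  have hV : ∀ y, y ∈ V := fun y => by
    have : y ∈ K₂ := by rw [hgen K₂ fun i j r h => hNV (hN i j r h)]; trivial
    exact this
  let h : Fin 5 → Fin 5 → R →ₗ[F] R →ₗ[F] L := fun i j =>
    ((LieAlgebra.ad F L).toLinearMap ∘ₗ Y i j).compl₂ (Y j i)
  have hh : ∀ i j a b, h i j a b = ⁅Y i j a, Y j i b⁆ := fun i j a b => by simp [h]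
  have hskew : ∀ i j a b, h i j a b = -h j i b a := fun i j a b => by rw [hh, hh, lie_skew]
  have hJ : ∀ i j k a b c, i ≠ j → j ≠ k → i ≠ k →
      h i j a (b * c) + h j k b (c * a) + h k i c (a * b) = 0 := by
    intro i j k a b c h1 h2 h3
    rw [hh, hh, hh, ← hmul j k i b c h2 h3.symm h1.symm, ← hmul k i j c a h3.symm h1 h2.symm,
      ← hmul i j k a b h1 h2 h3]
    exact lie_jacobi _ _ _
  have hA : ∀ j k b c, j ≠ 0 → k ≠ 0 → j ≠ k → h j k b c = h 0 k b c - h 0 j 1 (b * c) := by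
    intro j k b c h1 h2 h3
    have := hJ 0 j k 1 b c h1.symm h3 h2.symm
    rw [mul_one, one_mul, hskew k 0] at this
    linear_combination (norm := abel1) this
  have hB : ∀ j k a c, j ≠ 0 → k ≠ 0 →
      h 0 j a c - h 0 j 1 (c * a) = h 0 k a c - h 0 k 1 (c * a) := by
    intro j k a c h1 h2
    by_cases h3 : j = k
    · rw [h3]
    have e1 := hJ 0 j k a 1 c h1.symm h3 h2.symm
    have e2 := hA j k 1 (c * a) h1 h2 h3
    rw [mul_one, one_mul, hskew k 0] at e1
    rw [one_mul] at e2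
    linear_combination (norm := abel1) e1 - e2
  let t : R →ₗ[F] R →ₗ[F] L := h 0 1 - (LinearMap.mul F R).flip.compr₂ (h 0 1 1)
  have ht : ∀ j a c, j ≠ 0 → t a c = h 0 j a c - h 0 j 1 (c * a) := fun j a c hj => by
    rw [← hB 1 j a c (by decide) hj]; simp [t]
  obtain ⟨τ, hτ⟩ := hc L t fun a b c => by
    have e1 := hJ 0 1 2 a b c (by decide) (by decide) (by decide)
    rw [hA 1 2 _ _ (by decide) (by decide) (by decide), hskew 2 0] at e1
    rw [ht 2 (a * b) c (by decide), ht 1 a _ (by decide), ht 2 b _ (by decide)]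
    simp only [mul_assoc] at e1 ⊢
    linear_combination (norm := abel1) -e1
  let cc : Fin 5 → Fin 5 → R →ₗ[F] L := fun i j =>
    if i = j then (τ - if i = 0 then 0 else h 0 i 1) else Y i j
  let σ : Matrix (Fin 5) (Fin 5) R →ₗ[F] L := Matrix.liftLinear F cc
  have hσ : ∀ i j r, σ (Matrix.single i j r) = cc i j r := fun i j r =>
    Matrix.liftLinear_single F cc i j r
  have hσh : ∀ i j a b, i ≠ j → σ (π (h i j a b)) = cc i i (a * b) - cc j j (b * a) := by
    intro i j a b hij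
    rw [hh, LieHom.map_lie, hπ _ _ _ hij, hπ _ _ _ hij.symm, LieRing.of_associative_ring_bracket,
      Matrix.single_mul_single_same, Matrix.single_mul_single_same, map_sub, hσ, hσ]
  have hσ0 : ∀ j a b, j ≠ 0 → σ (π (h 0 j a b)) = h 0 j a b := by
    intro j a b hj
    have e := hτ a b
    rw [ht j a b hj, map_sub] at e
    rw [hσh _ _ _ _ hj.symm]
    simp only [cc, if_true, if_neg hj, LinearMap.sub_apply, sub_zero]
    linear_combination (norm := abel1) e
  have hσ1 : ∀ i j a b, i ≠ j → σ (π (h i j a b)) = h i j a b := by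
    intro i j a b hij
    by_cases c1 : i = 0
    · subst c1; exact hσ0 _ _ _ hij.symm
    by_cases c2 : j = 0
    · subst c2; rw [hskew, map_neg, map_neg, hσ0 _ _ _ c1]
    rw [hA _ _ _ _ c1 c2 hij, map_sub, map_sub, hσ0 _ _ _ c2, hσ0 _ _ _ c1]
  have hall : ∀ y, σ (π y) = y := by
    intro y
    have hle : V ≤ LinearMap.eqLocus (σ ∘ₗ π.toLinearMap) LinearMap.id := by
      refine sup_le (Submodule.span_le.2 ?_) (Submodule.span_le.2 ?_)
      · rintro _ ⟨i, j, r, hij, rfl⟩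
        change σ (π _) = _
        rw [hπ _ _ _ hij, hσ]
        simp [cc, hij]
      · rintro _ ⟨i, j, a, b, hij, rfl⟩
        change σ (π _) = _
        rw [← hh, hσ1 _ _ _ _ hij]
        rfl
    exact hle (hV y)
  exact LeftInverse.injective hall

end Pool.Agent.Lib.MP_4d37d6_al.Lie
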