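import Pool.Agent.Lib.MP_4d37d6_al.Rels

/-!
The Poincare-Birkhoff-Witt theorem.
-/

set_option autoImplicit false

namespace Pool.Agent.Lib.MP_4d37d6_al.Lie.PBW

open Function

attribute [local instance 100] LieRing.ofAssociativeRing

variable {F : Type*} [Field F] {L : Type*} [LieRing L] [LieAlgebra F L] {I : Type}
  [LinearOrder I] (e : Module.Basis I F L)

abbrev M (F : Type*) [Field F] (I : Type) := Multiset I →₀ F

noncomputable def z (F : Type*) [Field F] (m : Multiset I) : M F I := Finsupp.single m 1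

noncomputable def Fil (F : Type*) [Field F] (I : Type) (j : ℕ) : Submodule F (M F I) :=
  Submodule.span F {v | ∃ m : Multiset I, m.card ≤ j ∧ v = z F m}

omit [LinearOrder I] in
theorem z_mem {m : Multiset I} {j : ℕ} (h : m.card ≤ j) : z F m ∈ Fil F I j :=
  Submodule.subset_span ⟨m, h, rfl⟩

omit [LinearOrder I] in
theorem Fil_mono {i j : ℕ} (h : i ≤ j) : Fil F I i ≤ Fil F I j :=
  Submodule.span_mono fun _ ⟨m, h1, h2⟩ => ⟨m, h1.trans h, h2⟩

omit [LinearOrder I] in
theorem exists_Fil (v : M F I) : ∃ j, v ∈ Fil F I j := by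
  induction v using Finsupp.induction_linear with
  | zero => exact ⟨0, zero_mem _⟩
  | add v w h1 h2 =>
    obtain ⟨i, h1⟩ := h1
    obtain ⟨j, h2⟩ := h2
    exact ⟨max i j, add_mem (Fil_mono (le_max_left _ _) h1) (Fil_mono (le_max_right _ _) h2)⟩
  | single m c =>
    refine ⟨m.card, ?_⟩
    have := Submodule.smul_mem _ c (z_mem (F := F) (m := m) le_rfl)
    rwa [z, Finsupp.smul_single, smul_eq_mul, mul_one] at this

omit [LinearOrder I] in
theorem eq_of_Fil {W : Type*} [AddCommGroup W] [Module F W] {φ ψ : M F I →ₗ[F] W} {j : ℕ}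
    (h : ∀ m : Multiset I, m.card ≤ j → φ (z F m) = ψ (z F m)) {v : M F I} (hv : v ∈ Fil F I j) :
    φ v = ψ v :=
  LinearMap.eqOn_span (by
    rintro _ ⟨m, h1, rfl⟩
    exact h m h1) hv

abbrev Act (F : Type*) [Field F] (L : Type*) [LieRing L] [LieAlgebra F L] (I : Type) :=
  L →ₗ[F] Module.End F (M F I)

noncomputable def mk (f : I → Multiset I → M F I) : Act F L I :=
  e.constr F fun i => Finsupp.linearCombination F (f i)

omit [LinearOrder I] in
theorem mk_apply (f : I → Multiset I → M F I) (i : I) (m : Multiset I) :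
    mk e f (e i) (z F m) = f i m := by
  simp [mk, z]

def Good (ρ : Act F L I) : Prop := ∀ i m, ρ (e i) (z F m) - z F (i ::ₘ m) ∈ Fil F I m.card

omit [LinearOrder I] in
theorem Good.mem {ρ : Act F L I} (h : Good e ρ) (x : L) {j : ℕ} {v : M F I} (hv : v ∈ Fil F I j) :
    ρ x v ∈ Fil F I (j + 1) := by
  have h1 : ⊤ ≤ (Fil F I (j + 1)).comap (LinearMap.applyₗ v ∘ₗ ρ) := by
    rw [← e.span_eq, Submodule.span_le]
    rintro _ ⟨i, rfl⟩
    have : Fil F I j ≤ (Fil F I (j + 1)).comap (ρ (e i)) := Submodule.span_le.2 (by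
      rintro _ ⟨m, h1, rfl⟩
      have := add_mem (Fil_mono (show m.card ≤ j + 1 by omega) (h i m))
        (z_mem (m := i ::ₘ m) (by simpa using h1))
      rwa [sub_add_cancel] at this)
    exact this hv
  exact h1 (Submodule.mem_top (x := x))

open Classical in
noncomputable def step (ρ : Act F L I) (i : I) (m : Multiset I) : M F I :=
  if h : ∃ j, j < i ∧ j ∈ m ∧ ∀ k ∈ m, j ≤ k then
    z F (i ::ₘ m) + ρ (e h.choose) (ρ (e i) (z F (m.erase h.choose)) - z F (i ::ₘ m.erase h.choose))
      + ρ ⁅e i, e h.choose⁆ (z F (m.erase h.choose))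
  else z F (i ::ₘ m)

theorem step_le (ρ : Act F L I) {i : I} {m : Multiset I} (h : ∀ k ∈ m, i ≤ k) :
    step e ρ i m = z F (i ::ₘ m) := by
  rw [step, dif_neg]
  rintro ⟨j, h1, h2, -⟩
  exact absurd (h j h2) (not_le.2 h1)

theorem step_cons (ρ : Act F L I) {i j : I} {m : Multiset I} (hj : j < i) (h : ∀ k ∈ m, j ≤ k) :
    step e ρ i (j ::ₘ m) = z F (i ::ₘ j ::ₘ m) + ρ (e j) (ρ (e i) (z F m) - z F (i ::ₘ m))
      + ρ ⁅e i, e j⁆ (z F m) := by
  have h0 : ∀ k ∈ j ::ₘ m, j ≤ k := fun k hk => by
    rcases Multiset.mem_cons.1 hk with rfl | hk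
    exacts [le_rfl, h k hk]
  have h1 : ∃ j', j' < i ∧ j' ∈ j ::ₘ m ∧ ∀ k ∈ j ::ₘ m, j' ≤ k :=
    ⟨j, hj, Multiset.mem_cons_self _ _, h0⟩
  have h2 : h1.choose = j :=
    le_antisymm (h1.choose_spec.2.2 j (Multiset.mem_cons_self _ _)) (h0 _ h1.choose_spec.2.1)
  rw [step, dif_pos h1, h2, Multiset.erase_cons_head]

theorem cases_min (i : I) (m : Multiset I) :
    (∀ k ∈ m, i ≤ k) ∨ ∃ j m', j < i ∧ (∀ k ∈ m', j ≤ k) ∧ m = j ::ₘ m' := by
  by_cases h : ∀ k ∈ m, i ≤ k
  · exact Or.inl h
  · right
    push Not at h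
    obtain ⟨k, hk, hki⟩ := h
    obtain ⟨j, hj, hmin⟩ := Finset.exists_min_image m.toFinset id ⟨k, Multiset.mem_toFinset.2 hk⟩
    rw [Multiset.mem_toFinset] at hj
    refine ⟨j, m.erase j, (hmin k (Multiset.mem_toFinset.2 hk)).trans_lt hki,
      fun k' hk' => hmin k' (Multiset.mem_toFinset.2 (Multiset.mem_of_mem_erase hk')),
      (Multiset.cons_erase hj).symm⟩

theorem Good.step {ρ : Act F L I} (h : Good e ρ) : Good e (mk e (step e ρ)) := by
  intro i m
  rw [mk_apply]
  rcases cases_min i m with h1 | ⟨j, m', h1, h2, rfl⟩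
  · rw [step_le e ρ h1, sub_self]
    exact zero_mem _
  · rw [step_cons e ρ h1 h2, add_assoc, add_sub_cancel_left, Multiset.card_cons]
    exact add_mem (h.mem e _ (h i m')) (h.mem e _ (z_mem le_rfl))

omit [LinearOrder I] in
theorem act_congr {ρ ρ' : Act F L I} {j : ℕ}
    (h : ∀ i (m : Multiset I), m.card ≤ j → ρ (e i) (z F m) = ρ' (e i) (z F m)) (x : L)
    {v : M F I} (hv : v ∈ Fil F I j) : ρ x v = ρ' x v := by
  have : LinearMap.applyₗ v ∘ₗ ρ = LinearMap.applyₗ v ∘ₗ ρ' :=
    e.ext fun i => eq_of_Fil (h i) hv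
  exact LinearMap.congr_fun this x

theorem step_congr {ρ ρ' : Act F L I} (hρ : Good e ρ) {i : I} {m : Multiset I}
    (h : ∀ i (m' : Multiset I), m'.card < m.card → ρ (e i) (z F m') = ρ' (e i) (z F m')) :
    step e ρ i m = step e ρ' i m := by
  rcases cases_min i m with h1 | ⟨j, m', h1, h2, rfl⟩
  · rw [step_le e ρ h1, step_le e ρ' h1]
  · have h3 := fun x v => act_congr e (ρ := ρ) (ρ' := ρ') (j := m'.card)
      (fun i m'' hm => h i m'' (by simp; omega)) x (v := v)
    rw [step_cons e ρ h1 h2, step_cons e ρ' h1 h2, h3 _ _ (hρ i m'), h3 _ _ (z_mem le_rfl),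
      h3 _ _ (z_mem le_rfl)]

noncomputable def rN : ℕ → Act F L I
  | 0 => mk e fun i m => z F (i ::ₘ m)
  | N + 1 => mk e (step e (rN N))

theorem rN_good (N : ℕ) : Good e (rN e N) := by
  induction N with
  | zero => intro i m; rw [rN, mk_apply, sub_self]; exact zero_mem _
  | succ N ih => exact ih.step

theorem rN_stable (N : ℕ) : ∀ N', N ≤ N' → ∀ i (m : Multiset I), m.card < N →
    rN e N (e i) (z F m) = rN e N' (e i) (z F m) := by
  induction N with
  | zero => intro N' _ i m h; omega
  | succ N ih =>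
    intro N' hN' i m h2
    obtain ⟨N'', rfl⟩ : ∃ N'', N' = N'' + 1 := ⟨N' - 1, by omega⟩
    rw [rN, rN, mk_apply, mk_apply]
    exact step_congr e (rN_good e N) fun i m' hm => ih N'' (by omega) i m' (by omega)

noncomputable def rho : Act F L I := mk e fun i m => rN e (m.card + 1) (e i) (z F m)

theorem rho_good : Good e (rho e) := fun i m => by
  rw [rho, mk_apply]
  exact rN_good e _ i m

theorem rho_step (i : I) (m : Multiset I) : rho e (e i) (z F m) = step e (rho e) i m := by
  rw [rho, mk_apply, rN, mk_apply]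
  refine step_congr e (rN_good e _) fun i' m' hm => ?_
  rw [mk_apply]
  exact (rN_stable e _ _ (by omega) i' m' (by omega)).symm

theorem rho_le {i : I} {m : Multiset I} (h : ∀ k ∈ m, i ≤ k) :
    rho e (e i) (z F m) = z F (i ::ₘ m) := by
  rw [rho_step, step_le e _ h]

theorem rho_lt {i j : I} {m : Multiset I} (hj : j < i) (h : ∀ k ∈ m, j ≤ k) :
    rho e (e i) (rho e (e j) (z F m)) =
      rho e (e j) (rho e (e i) (z F m)) + rho e ⁅e i, e j⁆ (z F m) := by
  rw [rho_le e h, rho_step, step_cons e _ hj h, map_sub, rho_le e (m := i ::ₘ m) fun k hk => by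
    rcases Multiset.mem_cons.1 hk with rfl | hk
    exacts [hj.le, h k hk], Multiset.cons_swap]
  abel

theorem rho_lie_aux (n : ℕ) : ∀ v ∈ Fil F I n, ∀ x y : L,
    rho e x (rho e y v) = rho e y (rho e x v) + rho e ⁅x, y⁆ v := by
  induction n using Nat.strong_induction_on with
  | _ n ih =>
    have key : ∀ m : Multiset I, m.card ≤ n → ∀ i j : I, j < i →
        rho e (e i) (rho e (e j) (z F m)) =
          rho e (e j) (rho e (e i) (z F m)) + rho e ⁅e i, e j⁆ (z F m) := by
      intro m hm i j hij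
      rcases cases_min j m with h1 | ⟨k, m', h1, h2, rfl⟩
      · exact rho_lt e hij h1
      · rw [Multiset.card_cons] at hm
        have ih' := ih m'.card (by omega)
        have hz := ih' _ (z_mem (m := m') le_rfl)
        have h3 : ∀ i j : I, k < i → k < j → rho e (e i) (rho e (e k) (rho e (e j) (z F m'))) =
            rho e (e k) (rho e (e i) (rho e (e j) (z F m'))) +
              rho e ⁅e i, e k⁆ (rho e (e j) (z F m')) := by
          intro i j hi hj
          have h4 := ih' _ (rho_good e j m') (e i) (e k)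
          have h5 := rho_lt e (m := j ::ₘ m') hi fun k' hk' => by
            rcases Multiset.mem_cons.1 hk' with rfl | hk'
            exacts [hj.le, h2 k' hk']
          simp only [map_sub] at h4
          linear_combination (norm := abel) h4 + h5
        have h6 : ⁅⁅e i, e j⁆, e k⁆ = ⁅⁅e i, e k⁆, e j⁆ + ⁅e i, ⁅e j, e k⁆⁆ := by
          rw [leibniz_lie (e i) (e j) (e k), ← lie_skew ⁅e i, e k⁆ (e j)]
          abel
        rw [← rho_le e h2, hz (e j) (e k), hz (e i) (e k), hz ⁅e i, e j⁆ (e k), map_add, map_add,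
          h3 i j (h1.trans hij) h1, h3 j i h1 (h1.trans hij), hz (e i) (e j), hz ⁅e i, e k⁆ (e j),
          hz (e i) ⁅e j, e k⁆, h6]
        simp only [map_add, LinearMap.add_apply]
        abel
    intro v hv x y
    have h1 : ∀ i j : I, rho e (e i) (rho e (e j) v) =
        rho e (e j) (rho e (e i) v) + rho e ⁅e i, e j⁆ v := fun i j => by
      refine eq_of_Fil (φ := rho e (e i) * rho e (e j))
        (ψ := rho e (e j) * rho e (e i) + rho e ⁅e i, e j⁆) (fun m hm => ?_) hv
      simp only [Module.End.mul_apply, LinearMap.add_apply]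
      rcases lt_trichotomy j i with h | rfl | h
      · exact key m hm i j h
      · simp
      · rw [key m hm j i h, ← lie_skew (e i) (e j), map_neg, LinearMap.neg_apply]
        abel
    let φ : L →ₗ[F] L →ₗ[F] M F I := LinearMap.mk₂ F
      (fun x y => rho e x (rho e y v) - (rho e y (rho e x v) + rho e ⁅x, y⁆ v))
      (fun x x' y => by simp only [map_add, LinearMap.add_apply, add_lie]; abel)
      (fun c x y => by simp only [map_smul, LinearMap.smul_apply, smul_lie, smul_sub, smul_add])
      (fun x y y' => by simp only [map_add, LinearMap.add_apply, lie_add]; abel)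
      (fun c x y => by simp only [map_smul, LinearMap.smul_apply, lie_smul, smul_sub, smul_add])
    have h2 : φ = 0 := e.ext fun i => e.ext fun j => sub_eq_zero.2 (h1 i j)
    exact sub_eq_zero.1 (LinearMap.congr_fun₂ h2 x y)

noncomputable def rhoLie : L →ₗ⁅F⁆ Module.End F (M F I) :=
  { rho e with
    map_lie' := fun {x y} => LinearMap.ext fun v => by
      obtain ⟨j, hj⟩ := exists_Fil v
      have := rho_lie_aux e j v hj x y
      change rho e ⁅x, y⁆ v = rho e x (rho e y v) - rho e y (rho e x v)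
      rw [this, add_sub_cancel_left] }

noncomputable def gen (i : I) : UniversalEnvelopingAlgebra F L :=
  UniversalEnvelopingAlgebra.ι F (e i)

noncomputable def pi : M F I →ₗ[F] UniversalEnvelopingAlgebra F L :=
  Finsupp.linearCombination F fun m => ev (gen e) (m.sort (· ≤ ·))

theorem pi_z (m : Multiset I) : pi e (z F m) = ev (gen e) (m.sort (· ≤ ·)) := by
  simp [pi, z]

theorem pi_cons {i : I} {m : Multiset I} (h : ∀ k ∈ m, i ≤ k) :
    pi e (z F (i ::ₘ m)) = gen e i * pi e (z F m) := by
  rw [pi_z, pi_z, Multiset.sort_cons _ _ _ h, ev_cons]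

theorem pi_rho_aux (n : ℕ) : ∀ v ∈ Fil F I n, ∀ x : L,
    pi e (rho e x v) = UniversalEnvelopingAlgebra.ι F x * pi e v := by
  induction n using Nat.strong_induction_on with
  | _ n ih =>
    intro v hv x
    have h1 : ∀ i, pi e (rho e (e i) v) = gen e i * pi e v := fun i => by
      refine eq_of_Fil (φ := pi e ∘ₗ rho e (e i)) (ψ := LinearMap.mulLeft F (gen e i) ∘ₗ pi e)
        (fun m hm => ?_) hv
      simp only [LinearMap.comp_apply, LinearMap.mulLeft_apply]
      rcases cases_min i m with h1 | ⟨j, m', h1, h2, rfl⟩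
      · rw [rho_le e h1, pi_cons e h1]
      · rw [Multiset.card_cons] at hm
        have ih' := ih m'.card (by omega)
        have h3 : ∀ k ∈ i ::ₘ m', j ≤ k := fun k hk => by
          rcases Multiset.mem_cons.1 hk with rfl | hk
          exacts [h1.le, h2 k hk]
        rw [rho_step, step_cons e _ h1 h2, map_add, map_add, ih' _ (rho_good e i m'),
          ih' _ (z_mem le_rfl), map_sub, ih' _ (z_mem le_rfl), Multiset.cons_swap, pi_cons e h3,
          pi_cons e h2, LieHom.map_lie, LieRing.of_associative_ring_bracket]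
        simp only [gen]
        noncomm_ring
    have : pi e ∘ₗ LinearMap.applyₗ v ∘ₗ rho e = LinearMap.mulRight F (pi e v) ∘ₗ
        (UniversalEnvelopingAlgebra.ι F : L →ₗ⁅F⁆ _).toLinearMap := e.ext h1
    exact LinearMap.congr_fun this x

theorem pi_rho (x : L) (v : M F I) :
    pi e (rho e x v) = UniversalEnvelopingAlgebra.ι F x * pi e v := by
  obtain ⟨j, hj⟩ := exists_Fil v
  exact pi_rho_aux e j v hj x

noncomputable def psi : UniversalEnvelopingAlgebra F L →ₐ[F] Module.End F (M F I) :=
  UniversalEnvelopingAlgebra.lift F (rhoLie e)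

theorem psi_ι (x : L) : psi e (UniversalEnvelopingAlgebra.ι F x) = rho e x :=
  UniversalEnvelopingAlgebra.lift_ι_apply F _ x

theorem psi_ev (l : List I) (hl : l.Pairwise (· ≤ ·)) :
    psi e (ev (gen e) l) (z F 0) = z F (l : Multiset I) := by
  induction l with
  | nil => simp
  | cons i l ih =>
    rw [List.pairwise_cons] at hl
    rw [ev_cons, map_mul, Module.End.mul_apply, ih hl.2, gen, psi_ι,
      rho_le e fun k hk => hl.1 k (Multiset.mem_coe.1 hk), Multiset.cons_coe]

theorem pi_injective : Injective (pi e) := by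
  have : LinearMap.applyₗ (z F 0) ∘ₗ (psi e).toLinearMap ∘ₗ pi e = LinearMap.id := by
    refine Finsupp.lhom_ext' fun m => LinearMap.ext_ring ?_
    have := psi_ev e _ (m.pairwise_sort (· ≤ ·))
    rw [Multiset.sort_eq, ← pi_z] at this
    exact this
  exact LeftInverse.injective (g := fun u => psi e u (z F 0)) fun v => LinearMap.congr_fun this v

omit [LinearOrder I] in
theorem adjoin_ι : Algebra.adjoin F (Set.range (UniversalEnvelopingAlgebra.ι F : L → _)) = ⊤ := by
  set S := Algebra.adjoin F (Set.range (UniversalEnvelopingAlgebra.ι F : L → _))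
  let f : L →ₗ⁅F⁆ S :=
    { toFun := fun x => ⟨UniversalEnvelopingAlgebra.ι F x, Algebra.subset_adjoin ⟨x, rfl⟩⟩
      map_add' := fun x y => Subtype.ext (map_add _ x y)
      map_smul' := fun c x => Subtype.ext (map_smul _ c x)
      map_lie' := fun {x y} => Subtype.ext (LieHom.map_lie _ x y) }
  have : S.val.comp (UniversalEnvelopingAlgebra.lift F f) = AlgHom.id F _ := by
    ext x
    simp [f]
  rw [eq_top_iff]
  intro u _
  rw [← show S.val (UniversalEnvelopingAlgebra.lift F f u) = u from AlgHom.congr_fun this u]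
  exact Subtype.property _

theorem pi_surjective : Surjective (pi e) := by
  have key : ∀ x ∈ Algebra.adjoin F (Set.range (UniversalEnvelopingAlgebra.ι F : L → _)),
      ∀ y ∈ LinearMap.range (pi e), x * y ∈ LinearMap.range (pi e) := by
    intro x hx
    induction hx using Algebra.adjoin_induction with
    | mem x hx =>
      obtain ⟨σ, rfl⟩ := hx
      rintro _ ⟨v, rfl⟩
      exact ⟨_, pi_rho e σ v⟩
    | algebraMap r =>
      intro y hy
      rw [← Algebra.smul_def]
      exact Submodule.smul_mem _ _ hy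
    | add x x' _ _ h1 h2 =>
      intro y hy
      rw [add_mul]
      exact add_mem (h1 y hy) (h2 y hy)
    | mul x x' _ _ h1 h2 =>
      intro y hy
      rw [mul_assoc]
      exact h1 _ (h2 y hy)
  intro x
  have := key x (adjoin_ι (F := F) (L := L) ▸ Algebra.mem_top) 1 ⟨z F 0, by simp [pi_z]⟩
  rwa [mul_one] at this

/-- the ordered monomials form a basis of the universal enveloping algebra -/
theorem exists_basis : ∃ b : Module.Basis (Multiset I) F (UniversalEnvelopingAlgebra F L),
    ∀ m, b m = ev (gen e) (m.sort (· ≤ ·)) :=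
  ⟨Finsupp.basisSingleOne.map (LinearEquiv.ofBijective (pi e) ⟨pi_injective e, pi_surjective e⟩),
    fun m => pi_z e m⟩

include e in
theorem ι_injective : Injective (UniversalEnvelopingAlgebra.ι F : L → _) := by
  have h1 : LinearMap.applyₗ (z F 0) ∘ₗ rho e = e.constr F fun i => z F {i} :=
    e.ext fun i => by
      rw [Module.Basis.constr_basis]
      exact rho_le e (by simp)
  have h2 : Injective (e.constr F fun i => z F ({i} : Multiset I)) :=
    e.injective_constr_of_linearIndependent
      ((Finsupp.linearIndependent_single_one F _).comp _ fun _ _ h => Multiset.singleton_inj.1 h)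
  refine Injective.of_comp (f := fun u => psi e u (z F 0)) ?_
  rw [← h1] at h2
  intro x y h
  simp only [comp_apply, psi_ι] at h
  exact h2 h

end Pool.Agent.Lib.MP_4d37d6_al.Lie.PBW
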