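import Pool.Agent.Lib.MP_4d37d6_al.Lie.Core
import Pool.Agent.Lib.MP_4d37d6_al.Lie.PBW
import Pool.Agent.Lib.MP_4d37d6_al.Lie.Gl

/-!
The embedding theorem for Lie algebras with a basis indexed by a recursive set of numbers and
computable structure constants.
-/

set_option autoImplicit false

namespace Pool.Agent.Lib.MP_4d37d6_al.Lie

open Function

attribute [local instance 100] LieRing.ofAssociativeRing

abbrev CombN := List ((ℤ × ℕ) × List ℕ)

def denN (ch : ℕ) (L : CombN) : ℕ := (L.map fun t => if ch ∣ t.1.2 then 1 else t.1.2).prod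

/-- the relation `L = 0` with the denominators cleared -/
def relN (ch : ℕ) (L : CombN) : Terms ℕ :=
  L.flatMap fun t =>
    List.replicate (if ch ∣ t.1.2 then 0 else t.1.1.natAbs * (denN ch L / t.1.2))
      (decide (t.1.1 < 0), t.2)

theorem pr_relN (ch : ℕ) : Primrec (relN ch) := by
  have hdvd : ∀ {α : Type} [Primcodable α] {f : α → ℕ}, Primrec f → PrimrecPred fun a => ch ∣ f a :=
    fun hf => (Primrec.eq.comp (Primrec.nat_mod.comp hf (Primrec.const ch))
      (Primrec.const 0)).of_eq fun N => (Nat.dvd_iff_mod_eq_zero ..).symm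
  have h1 : Primrec (denN ch) :=
    pr_prod.comp (Primrec.list_map Primrec.id (Primrec.ite
      (hdvd (Primrec.snd.comp (Primrec.fst.comp Primrec.snd))) (Primrec.const 1)
      (Primrec.snd.comp (Primrec.fst.comp Primrec.snd))).to₂)
  have hz : Primrec fun q : CombN × ((ℤ × ℕ) × List ℕ) => q.2.1.1 :=
    Primrec.fst.comp (Primrec.fst.comp Primrec.snd)
  have hd : Primrec fun q : CombN × ((ℤ × ℕ) × List ℕ) => q.2.1.2 :=
    Primrec.snd.comp (Primrec.fst.comp Primrec.snd)
  exact Primrec.list_flatMap Primrec.id (pr_replicate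
      (Primrec.ite (hdvd hd) (Primrec.const 0) (Primrec.nat_mul.comp (pr_natAbs.comp hz)
        (Primrec.nat_div.comp (h1.comp Primrec.fst) hd)))
      ((pr_neg.comp hz).decide.pair (Primrec.snd.comp Primrec.snd))).to₂

section

variable {F : Type*} [Field F] {Q : Type*} [Ring Q] [Algebra F Q]

def valN (F : Type*) [Field F] {Q : Type*} [Ring Q] [Algebra F Q] (a : ℕ → Q)
    (L : CombN) : Q := (L.map fun t => ((t.1.1 : F) / (t.1.2 : F)) • ev a t.2).sum

theorem denN_ne_zero (L : CombN) : (denN (ringChar F) L : F) ≠ 0 := by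
  unfold denN
  induction L with
  | nil => simp
  | cons t L ih =>
    rw [List.map_cons, List.prod_cons, Nat.cast_mul]
    refine mul_ne_zero ?_ ih
    split_ifs with h
    · simp
    · exact fun h' => h ((ringChar.spec F _).1 h')

theorem poly_relN (a : ℕ → Q) (L : CombN) :
    poly a (relN (ringChar F) L) = (denN (ringChar F) L : F) • valN F a L := by
  have key : ∀ L' : CombN, (∀ t ∈ L', t ∈ L) → poly a (L'.flatMap fun t =>
      List.replicate (if ringChar F ∣ t.1.2 then 0
        else t.1.1.natAbs * (denN (ringChar F) L / t.1.2)) (decide (t.1.1 < 0), t.2)) =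
      (denN (ringChar F) L : F) • valN F a L' := by
    intro L' hL'
    induction L' with
    | nil => simp [valN]
    | cons t L' ih =>
      rw [List.flatMap_cons, poly_append, ih fun q hq => hL' q (by simp [hq]), poly_replicate,
        valN, valN, List.map_cons, List.sum_cons, smul_add]
      congr 1
      split_ifs with h
      · simp [(ringChar.spec F _).2 h]
      · have h0 : (t.1.2 : F) ≠ 0 := fun h' => h ((ringChar.spec F _).1 h')
        have hdvd : t.1.2 ∣ denN (ringChar F) L := by
          refine List.dvd_prod (List.mem_map.2 ⟨t, hL' t (by simp), ?_⟩)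
          rw [if_neg h]
        have htv : (t.1.1.natAbs : F) • tv a (decide (t.1.1 < 0), t.2) = (t.1.1 : F) • ev a t.2 := by
          have := sum_replicate_sign (ev a) t.1.1 t.2
          rw [List.map_replicate, List.sum_replicate] at this
          rw [Nat.cast_smul_eq_nsmul, Int.cast_smul_eq_zsmul]
          exact this
        rw [← Nat.cast_smul_eq_nsmul F, Nat.cast_mul, mul_comm, mul_smul, htv, Nat.cast_div hdvd h0,
          smul_smul, smul_smul]
        congr 1
        field_simp
  exact key L fun t ht => ht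

theorem poly_relN_eq_zero (a : ℕ → Q) (L : CombN) :
    poly a (relN (ringChar F) L) = 0 ↔ valN F a L = 0 := by
  rw [poly_relN, smul_eq_zero, or_iff_right (denN_ne_zero L)]

end

theorem cp_sorted : ComputablePred fun l : List ℕ => l.Pairwise (· ≤ ·) := by
  have h1 : PrimrecPred fun p : (List ℕ × ℕ) × ℕ =>
      p.1.2 < p.2 → p.1.1.getD p.1.2 0 ≤ p.1.1.getD p.2 0 := by
    refine ((Primrec.nat_lt.comp (Primrec.snd.comp Primrec.fst) Primrec.snd).not.or
      (Primrec.nat_le.comp
        ((Primrec.list_getD 0).comp (Primrec.fst.comp Primrec.fst) (Primrec.snd.comp Primrec.fst))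
        ((Primrec.list_getD 0).comp (Primrec.fst.comp Primrec.fst) Primrec.snd))).of_eq
      fun p => imp_iff_not_or.symm
  have h2 := cp_forall_mem (f := fun p : List ℕ × ℕ => List.range p.1.length)
    (R := fun p j => p.2 < j → p.1.getD p.2 0 ≤ p.1.getD j 0)
    (Primrec.list_range.comp (Primrec.list_length.comp Primrec.fst)).to_comp h1.computablePred
  have h3 := cp_forall_mem (f := fun l : List ℕ => List.range l.length)
    (R := fun l i => ∀ j ∈ List.range l.length, i < j → l.getD i 0 ≤ l.getD j 0)
    (Primrec.list_range.comp Primrec.list_length).to_comp h2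
  refine h3.of_eq fun l => ?_
  rw [List.pairwise_iff_getElem]
  simp only [List.mem_range]
  constructor
  · intro h i j hi hj hij
    simpa [hi, hj] using h i hi j hj hij
  · intro h i hi j hj hij
    simpa [hi, hj] using h i j hi hj hij

universe u

theorem lie_main {F : Type u} [Field F] (hF : ∀ K : Subfield F, K = ⊤) {L : Type*} [LieRing L]
    [LieAlgebra F L] (C : Set ℕ) (hC : ComputablePred fun k => k ∈ C) (v : ℕ → L)
    (hv0 : ∀ k, k ∉ C → v k = 0) (e : Module.Basis C F L) (he : ∀ k, e k = v k)
    (f : ℕ × ℕ → List ((ℤ × ℕ) × ℕ)) (hf : Computable f)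
    (hfv : ∀ k ∈ C, ∀ k' ∈ C, ⁅v k, v k'⁆ =
      ((f (k, k')).map fun t => ((t.1.1 : F) / (t.1.2 : F)) • v t.2).sum) :
    ∃ (G : Type u) (_ : LieRing G) (_ : LieAlgebra F G),
      LieAlgebra.IsSimple F G ∧ LieFP F G ∧ ∃ φ : L →ₗ⁅F⁆ G, Injective φ := by
  classical
  let a : ℕ → UniversalEnvelopingAlgebra F L := fun k => UniversalEnvelopingAlgebra.ι F (v k)
  let B : Set (List ℕ) := {l | l.Pairwise (· ≤ ·) ∧ ∀ k ∈ l, k ∈ C}
  have hB : ComputablePred fun l => l ∈ B :=
    cp_and cp_sorted (cp_forall_mem Computable.id (cp_comp hC Computable.snd))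
  obtain ⟨b, hb⟩ := PBW.exists_basis e
  let β : Multiset C → B := fun m => ⟨(m.sort (· ≤ ·)).map Subtype.val,
    List.Pairwise.map _ (fun _ _ h => h) (Multiset.pairwise_sort m _), by
      intro k hk
      obtain ⟨k, -, rfl⟩ := List.mem_map.1 hk
      exact k.2⟩
  have hβ : Bijective β := by
    constructor
    · intro m m' h
      have h1 := (List.map_injective_iff.2 Subtype.val_injective) (congrArg Subtype.val h)
      rw [← Multiset.sort_eq m (· ≤ ·), h1, Multiset.sort_eq]
    · rintro ⟨l, h1, h2⟩
      obtain ⟨l, rfl⟩ : ∃ l' : List C, l'.map Subtype.val = l :=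
        ⟨l.attachWith _ h2, by simp⟩
      refine ⟨(l : Multiset C), Subtype.ext ?_⟩
      change List.map _ _ = List.map _ _
      congr 1
      rw [Multiset.coe_sort]
      rw [List.pairwise_map] at h1
      have h3 : l.Pairwise (· ≤ ·) := h1
      exact List.mergeSort_eq_self _ h3
  let bs := b.reindex (Equiv.ofBijective β hβ)
  have hbs : ∀ l, bs l = ev a l.1 := by
    intro l
    obtain ⟨m, rfl⟩ := hβ.2 l
    have : bs (β m) = b m := by
      rw [Module.Basis.reindex_apply]
      congr 1
      exact (Equiv.ofBijective β hβ).symm_apply_apply m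
    rw [this, hb, ev_map]
    congr 1
    funext i
    simp [PBW.gen, a, he]
  let cb : ℕ × ℕ → CombN := fun p => [((1, 1), [p.2, p.1]), ((-1, 1), [p.1, p.2])] ++
    (f p).map fun t => (t.1, [t.2])
  have hcb : Computable cb := by
    refine Computable.list_append.comp ?_ (comp_list_map hf ?_)
    · exact (Primrec.list_cons.comp ((Primrec.const _).pair (Primrec.list_cons.comp Primrec.snd
        (Primrec.list_cons.comp Primrec.fst (Primrec.const []))))
        (Primrec.list_cons.comp ((Primrec.const _).pair (Primrec.list_cons.comp Primrec.fst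
        (Primrec.list_cons.comp Primrec.snd (Primrec.const [])))) (Primrec.const []))).to_comp
    · exact ((Primrec.fst.comp Primrec.snd).pair (Primrec.list_cons.comp
        (Primrec.snd.comp Primrec.snd) (Primrec.const []))).to_comp
  have hval : ∀ (Q : Type u) [Ring Q] [Algebra F Q] (a' : ℕ → Q) (p : ℕ × ℕ),
      valN F a' (cb p) = 0 ↔ ⁅a' p.1, a' p.2⁆ =
        ((f p).map fun t => ((t.1.1 : F) / (t.1.2 : F)) • a' t.2).sum := by
    intro Q _ _ a' p
    rw [LieRing.of_associative_ring_bracket, eq_comm (a := _ - _), ← sub_eq_zero (b := _ - _)]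
    refine Eq.congr_left ?_
    simp only [valN, cb, List.map_append, List.map_map, List.sum_append, List.map_cons,
      List.map_nil, List.sum_cons, List.sum_nil, comp_def, ev_cons, ev_nil, mul_one]
    simp only [Int.cast_one, Nat.cast_one, div_one, one_smul, Int.cast_neg, neg_smul]
    abel
  have hval' : ∀ (a' : ℕ → UniversalEnvelopingAlgebra F L) (p : ℕ × ℕ),
      valN F a' (cb p) = 0 ↔ ⁅a' p.1, a' p.2⁆ =
        ((f p).map fun t => ((t.1.1 : F) / (t.1.2 : F)) • a' t.2).sum := by
    intro a' p
    rw [LieRing.of_associative_ring_bracket, eq_comm (a := _ - _), ← sub_eq_zero (b := _ - _)]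
    refine Eq.congr_left ?_
    simp only [valN, cb, List.map_append, List.map_map, List.sum_append, List.map_cons,
      List.map_nil, List.sum_cons, List.sum_nil, comp_def, ev_cons, ev_nil, mul_one]
    simp only [Int.cast_one, Nat.cast_one, div_one, one_smul, Int.cast_neg, neg_smul]
    abel
  let gR : ℕ → Terms ℕ := fun j =>
    if j.unpair.1 ∈ C then (if j.unpair.2 ∈ C then relN (ringChar F) (cb j.unpair) else [])
    else [(false, [j.unpair.1])]
  have hgc : Computable gR :=
    comp_ite (cp_comp hC (Primrec.fst.comp Primrec.unpair).to_comp)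
      (comp_ite (cp_comp hC (Primrec.snd.comp Primrec.unpair).to_comp)
        ((pr_relN _).to_comp.comp (hcb.comp Primrec.unpair.to_comp)) (Computable.const _))
      (Primrec.list_cons.comp ((Primrec.const _).pair (Primrec.list_cons.comp
        (Primrec.fst.comp Primrec.unpair) (Primrec.const []))) (Primrec.const [])).to_comp
  suffices H : Algebra.adjoin F (Set.range a) = ⊤ ∧ (∀ j, poly a (gR j) = 0) ∧
      ∀ (Q : Type u) [Ring Q] [Algebra F Q] (a' : ℕ → Q), (∀ j, poly a' (gR j) = 0) →
        ∃ φ : UniversalEnvelopingAlgebra F L →ₐ[F] Q, ∀ i, φ (a i) = a' i by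
    obtain ⟨m, R, hS, hcen, hperf, φ, hφ⟩ := core a (exists_frac hF) H.1 B hB ⟨by simp, by simp⟩ bs
      hbs gR hgc H.2.1 H.2.2
    obtain ⟨G, _, _, h1, h2, ψ, hψ⟩ := exists_simple_lie' hperf (fp_quot R)
    exact ⟨G, _, _, h1, h2, (ψ.comp φ.toLieHom).comp (UniversalEnvelopingAlgebra.ι F),
      (hψ.comp hφ).comp (PBW.ι_injective e)⟩
  refine ⟨?_, fun j => ?_, fun Q _ _ a' ha' => ?_⟩
  · rw [eq_top_iff, ← PBW.adjoin_ι, Algebra.adjoin_le_iff]
    rintro _ ⟨x, rfl⟩
    have hx : x ∈ Submodule.span F (Set.range e) := by rw [e.span_eq]; trivial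
    induction hx using Submodule.span_induction with
    | mem x hx => obtain ⟨k, rfl⟩ := hx; exact Algebra.subset_adjoin ⟨k, by simp [a, he]⟩
    | zero => rw [map_zero]; exact zero_mem _
    | add x y _ _ hx hy => rw [map_add]; exact add_mem hx hy
    | smul c x _ hx => rw [map_smul]; exact Subalgebra.smul_mem _ hx c
  · simp only [gR]
    split_ifs with h1 h2
    · rw [poly_relN_eq_zero (F := F), hval', ← LieHom.map_lie, hfv _ h1 _ h2, map_list_sum,
        List.map_map]
      simp [comp_def, a]
    · rfl
    · simp [a, hv0 _ h1]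
  · have h0 : ∀ k, k ∉ C → a' k = 0 := fun k hk => by
      simpa [gR, hk] using ha' (Nat.pair k 0)
    let lam : L →ₗ[F] Q := e.constr F fun k => a' k
    have h1 : ∀ k, lam (v k) = a' k := fun k => by
      by_cases hk : k ∈ C
      · rw [← he ⟨k, hk⟩, Module.Basis.constr_basis]
      · rw [hv0 k hk, h0 k hk, map_zero]
    have h2 : ((LieAlgebra.ad F L).toLinearMap).compr₂ lam =
        ((LieAlgebra.ad F Q).toLinearMap).compl₁₂ lam lam :=
      e.ext fun k => e.ext fun k' => by
        have h3 := ha' (Nat.pair k k')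
        simp only [gR, Nat.unpair_pair, k.2, k'.2, if_true] at h3
        rw [poly_relN_eq_zero (F := F), hval] at h3
        simp only [LinearMap.compr₂_apply, LinearMap.compl₁₂_apply, LieHom.coe_toLinearMap,
          LieAlgebra.ad_apply, he, h1]
        rw [h3, hfv _ k.2 _ k'.2, map_list_sum, List.map_map]
        simp [comp_def, h1]
    let lam' : L →ₗ⁅F⁆ Q := { lam with
      map_lie' := fun {x y} => by simpa using LinearMap.congr_fun₂ h2 x y }
    exact ⟨UniversalEnvelopingAlgebra.lift F lam', fun k => by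
      rw [UniversalEnvelopingAlgebra.lift_ι_apply]; exact h1 k⟩

end Pool.Agent.Lib.MP_4d37d6_al.Lie
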