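import Pool.Agent.Lib.MP_4d37d6_al.Lie.Words

/-!
The defining relations and their consequences in an arbitrary ring.
-/

set_option autoImplicit false

namespace Pool.Agent.Lib.MP_4d37d6_al.Lie

open Function

variable {K Γ : Type}

def gC (l : K × Γ) : Gen K Γ := Sum.inl l
def gX (ξ : X) : Gen K Γ := Sum.inr ξ

/-- the word which represents the `i`-th generator of `A` -/
def aw (i : ℕ) : List (Gen K Γ) := gX X.a :: (List.replicate i (gX X.s) ++ [gX X.b])

variable [Fintype K]

noncomputable def flatC (c : Cfg K Γ) : List (Gen K Γ) :=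
  (Finset.univ : Finset K).toList.flatMap fun k => (c k).map fun γ => gC (k, γ)

noncomputable def flatM (μ : Mid K Γ) : List (Gen K Γ) := flatC μ.1 ++ μ.2.flatMap aw

noncomputable def flatT (tl : Tail K Γ) : List (Gen K Γ) :=
  tl.flatMap fun p => gX p.1 :: flatM p.2

noncomputable def flat (ω : Word K Γ) : List (Gen K Γ) := flatM ω.1 ++ flatT ω.2

@[simp] theorem flatC_nil : (flatC nil : List (Gen K Γ)) = [] := by simp [flatC]

@[simp] theorem flatM_one : (flatM one : List (Gen K Γ)) = [] := by simp [flatM, one]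

@[simp] theorem flatT_nil : (flatT [] : List (Gen K Γ)) = [] := rfl

@[simp] theorem flatT_cons (ξ : X) (μ : Mid K Γ) (tl : Tail K Γ) :
    flatT ((ξ, μ) :: tl) = gX ξ :: flat (μ, tl) := by simp [flatT, flat]

theorem flatT_append (tl tl' : Tail K Γ) : flatT (tl ++ tl') = flatT tl ++ flatT tl' := by
  simp [flatT]

@[simp] theorem flat_consX (ξ : X) (ω : Word K Γ) : flat (consX ξ ω) = gX ξ :: flat ω := by
  simp [flat, consX]

theorem flat_aT (i : ℕ) (ω : Word K Γ) : gX X.a :: flat (aT i ω) = aw i ++ flat ω := by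
  induction i with
  | zero => simp [aT, aw, flat]
  | succ i ih =>
    have h1 : aT (i + 1) ω = consX X.s (aT i ω) := rfl
    rw [h1, flat_consX]
    simp only [aw, List.cons_append, List.cons.injEq, true_and, List.replicate_succ] at ih ⊢
    exact ih

@[simp] theorem flat_one : flat ((one, []) : Word K Γ) = [] := by simp [flat]

section

variable {T : Type*} [Ring T] (g : Gen K Γ → T)

noncomputable def evC (c : Cfg K Γ) : T := ev g (flatC c)

def gA (i : ℕ) : T := ev g (aw i)

def evA (b : List ℕ) : T := ev g (b.flatMap aw)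

omit [Fintype K] in
theorem evA_eq_ev (b : List ℕ) : evA g b = ev (gA g) b := ev_flatMap g aw b

omit [Fintype K] in
theorem poly_flatMap_aw (t : Terms ℕ) :
    poly g (t.map fun p => (p.1, p.2.flatMap aw)) = poly (gA g) t := by
  induction t with
  | nil => simp
  | cons p t ih =>
    obtain ⟨s, l⟩ := p
    have := evA_eq_ev g l
    rw [evA] at this
    cases s <;> simp [ih, this]

theorem ev_flat (c : Cfg K Γ) (b : List ℕ) (tl : Tail K Γ) :
    ev g (flat ((c, b), tl)) = evC g c * evA g b * ev g (flatT tl) := by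
  simp [flat, flatM, evC, evA, mul_assoc]

@[simp] theorem evC_nil : evC g nil = 1 := by simp [evC]

omit [Fintype K] in
@[simp] theorem evA_nil : evA g [] = 1 := rfl

theorem evC_eq (c : Cfg K Γ) : evC g c =
    ((Finset.univ : Finset K).toList.map fun k => ev (fun γ => g (gC (k, γ))) (c k)).prod := by
  rw [evC, flatC, ev_flatMap]
  simp only [ev_map]
  rfl

def CommC : Prop := ∀ l l' : K × Γ, l.1 ≠ l'.1 → Commute (g (gC l)) (g (gC l'))

variable {g}

theorem evC_cat (h : CommC g) (u c : Cfg K Γ) : evC g (cat u c) = evC g u * evC g c := by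
  simp only [evC_eq, cat_apply, ev_append]
  refine prod_map_mul_of_comm _ _ _ (Finset.nodup_toList _) fun k k' hk => ?_
  refine Commute.list_prod_left _ _ fun x hx => Commute.list_prod_right _ _ fun y hy => ?_
  obtain ⟨γ, -, rfl⟩ := List.mem_map.1 hx
  obtain ⟨γ', -, rfl⟩ := List.mem_map.1 hy
  exact h _ _ hk

variable (g) in
theorem evC_stk [DecidableEq K] (k : K) (l : List Γ) :
    evC g (stk k l) = ev (fun γ => g (gC (k, γ))) l := by
  rw [evC_eq]
  have : ∀ ks : List K, ks.Nodup → (ks.map fun k' => ev (fun γ => g (gC (k', γ))) (stk k l k')).prod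
      = if k ∈ ks then ev (fun γ => g (gC (k, γ))) l else 1 := by
    intro ks hks
    induction ks with
    | nil => simp
    | cons k' ks ih =>
      rw [List.nodup_cons] at hks
      rw [List.map_cons, List.prod_cons, ih hks.2]
      by_cases hk : k' = k
      · subst hk
        simp [hks.1]
      · simp [stk_ne hk, Ne.symm hk]
  rw [this _ (Finset.nodup_toList _)]
  simp

variable (g) in
theorem evC_single [DecidableEq K] (k : K) (γ : Γ) : evC g (stk k [γ]) = g (gC (k, γ)) := by
  simp [evC_stk]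

theorem commute_evC {z : T} (h : ∀ l, Commute (g (gC l)) z) (c : Cfg K Γ) :
    Commute (evC g c) z := by
  refine Commute.list_prod_left _ _ fun x hx => ?_
  simp only [flatC, List.mem_map, List.mem_flatMap] at hx
  obtain ⟨_, ⟨k, -, γ, -, rfl⟩, rfl⟩ := hx
  exact h _

end

namespace Setup

variable [DecidableEq K] (S : Setup K Γ) (ι : Cfg K Γ) {T : Type*} [Ring T] (g : Gen K Γ → T)

def tokv : Tok K Γ → T
  | none => -1
  | some σ => g σ

/-- the relations for the loading heads -/
structure RelsE : Prop where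
  comm : CommC g
  e1skip : ∀ γ, γ ≠ S.inl 2 → γ ≠ S.bot → g (gX .e1) * g (gC (S.kIn, γ)) = g (gX .e1)
  e1sep : g (gX .e1) * g (gC (S.kIn, S.inl 2)) = g (gX .e1) + g (gX .e2)
  e1bot : g (gX .e1) * g (gC (S.kIn, S.bot)) = 0
  e2tok : ∀ τ, g (gX .e2) * evC g (S.inW (S.tk τ)) = tokv g τ * g (gX .e2)
  e2sep : g (gX .e2) * g (gC (S.kIn, S.inl 2)) = g (gX .e3)
  e2bot : g (gX .e2) * g (gC (S.kIn, S.bot)) = 0
  e3abs : ∀ l, g (gX .e3) * g (gC l) = g (gX .e3)
  e3w : g (gX .e3) * g (gX .w) = 1

/-- all the defining relations -/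
structure Rels : Prop extends S.RelsE g where
  zC : ∀ l, Commute (g (gC l)) (g (gX .z))
  zw : Commute (g (gX .w)) (g (gX .z))
  zt : g (gX .z) * g (gX .t) = g (gX .t) * g (gX .z) - g (gX .e1)
  rule : ∀ ρ u v, S.rule ρ = some (u, v) →
    g (gX .E) * evC g (cat (stk S.kCert [ρ]) u) = g (gX .E) * evC g (cat (stk S.kHist [ρ]) v)
  acc : g (gX .E) * g (gC (S.kSt, S.acc)) = 0
  init : g (gX .E) * evC g ι = g (gX .e1)

/-- the code of one signed monomial -/
def strT (p : Bool × List (Gen K Γ)) : List (Fin 3) :=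
  (bif p.1 then S.tk none else []) ++ p.2.flatMap fun σ => S.tk (some σ)

/-- the code of a sum of signed monomials -/
def str (t : Terms (Gen K Γ)) : List (Fin 3) := (t.flatMap fun p => 2 :: S.strT p) ++ [2]

variable {S ι g}

omit [Fintype K] in
theorem inW_append (s s' : List (Fin 3)) : S.inW (s ++ s') = cat (S.inW s) (S.inW s') := by
  simp [inW, stk_append]

omit [Fintype K] in
theorem inW_cons (i : Fin 3) (s : List (Fin 3)) :
    S.inW (i :: s) = cat (stk S.kIn [S.inl i]) (S.inW s) := by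
  simp only [inW, List.map_cons]
  exact stk_cons _ _ _

omit [Fintype K] in
@[simp] theorem inW_nil : S.inW [] = nil := by simp [inW]

theorem RelsE.e3_evC (h : S.RelsE g) (c : Cfg K Γ) : g (gX .e3) * evC g c = g (gX .e3) := by
  induction c using Cfg.ind with
  | h0 => simp
  | h1 k γ c ih => rw [evC_cat h.comm, evC_single, ← mul_assoc, h.e3abs, ih]

theorem RelsE.e1_skip (h : S.RelsE g) (s : List (Fin 3)) (hs : 2 ∉ s) :
    g (gX .e1) * evC g (S.inW s) = g (gX .e1) := by
  induction s with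
  | nil => simp
  | cons i s ih =>
    rw [List.mem_cons, not_or] at hs
    rw [inW_cons, evC_cat h.comm, evC_single, ← mul_assoc,
      h.e1skip _ (fun e => hs.1 (S.inl_inj e).symm) (S.inl_ne_bot i), ih hs.2]

omit [Fintype K] [DecidableEq K] in
theorem two_notMem_tk (τ : Tok K Γ) : 2 ∉ S.tk τ := by
  simp [tk, List.mem_replicate]

omit [Fintype K] [DecidableEq K] in
theorem two_notMem_strT (p : Bool × List (Gen K Γ)) : 2 ∉ S.strT p := by
  obtain ⟨s, l⟩ := p
  cases s <;> simp [strT, two_notMem_tk]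

theorem RelsE.e2_strT (h : S.RelsE g) (p : Bool × List (Gen K Γ)) :
    g (gX .e2) * evC g (S.inW (S.strT p)) = tv g p * g (gX .e2) := by
  obtain ⟨s, l⟩ := p
  have h1 : g (gX .e2) * evC g (S.inW (l.flatMap fun σ => S.tk (some σ))) = ev g l * g (gX .e2) := by
    induction l with
    | nil => simp
    | cons σ l ih =>
      rw [List.flatMap_cons, inW_append, evC_cat h.comm, ← mul_assoc, h.e2tok, mul_assoc, ih,
        ev_cons, mul_assoc]
      rfl
  cases s with
  | false => simpa [strT] using h1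
  | true =>
    simp only [strT, cond_true, tv_true]
    rw [inW_append, evC_cat h.comm, ← mul_assoc, h.e2tok, mul_assoc, h1]
    simp [tokv]

theorem RelsE.e2_str (h : S.RelsE g) (t : Terms (Gen K Γ)) :
    g (gX .e2) * evC g (S.inW (S.str t)) = g (gX .e3) := by
  obtain ⟨s, hs⟩ : ∃ s, S.str t = 2 :: s := by
    cases t with
    | nil => exact ⟨[], rfl⟩
    | cons p t => exact ⟨_, by simp only [str, List.flatMap_cons, List.cons_append]; rfl⟩
  rw [hs, inW_cons, evC_cat h.comm, evC_single, ← mul_assoc, h.e2sep, h.e3_evC]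

theorem RelsE.e1_str (h : S.RelsE g) (t : Terms (Gen K Γ)) :
    g (gX .e1) * evC g (S.inW (S.str t)) * g (gC (S.kIn, S.bot)) = poly g t * g (gX .e3) := by
  induction t with
  | nil =>
    have : S.str [] = [2] := rfl
    rw [this, inW_cons, inW_nil, cat_nil, evC_single, h.e1sep, add_mul, h.e1bot, h.e2bot]
    simp
  | cons p t ih =>
    have : S.str (p :: t) = 2 :: (S.strT p ++ S.str t) := by simp [str]
    rw [this, inW_cons, inW_append, evC_cat h.comm, evC_cat h.comm, evC_single, ← mul_assoc,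
      ← mul_assoc, h.e1sep, add_mul, h.e1_skip _ (two_notMem_strT p), h.e2_strT, add_mul, add_mul,
      ih, mul_assoc (tv g p), h.e2_str, mul_assoc (tv g p), h.e3abs, poly_cons, add_mul, add_comm]

theorem RelsE.e1_load (h : S.RelsE g) {c : Cfg K Γ} {t : Terms (Gen K Γ)} {r : List Γ}
    (hc : c S.kIn = (S.str t).map S.inl ++ S.bot :: r) :
    g (gX .e1) * evC g c = poly g t * g (gX .e3) := by
  have h1 : c S.kIn = ((S.str t).map S.inl ++ [S.bot]) ++ r := by simp [hc]
  rw [eq_cat_stk h1, stk_append, evC_cat h.comm, evC_cat h.comm, evC_single, ← mul_assoc,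
    ← mul_assoc]
  have := h.e1_str t
  rw [inW] at this
  rw [this, mul_assoc, h.e3_evC]

theorem Rels.step (h : S.Rels ι g) {c c' : Cfg K Γ} (hs : S.Step c c') :
    g (gX .E) * evC g c = g (gX .E) * evC g c' := by
  obtain ⟨ρ, u, v, c₀, hρ, rfl, rfl⟩ := hs
  rw [evC_cat h.comm _ c₀, evC_cat h.comm _ c₀, ← mul_assoc, ← mul_assoc, h.rule ρ u v hρ]

theorem Rels.reach (h : S.Rels ι g) {c c' : Cfg K Γ} (hs : Relation.ReflTransGen S.Step c c') :
    g (gX .E) * evC g c = g (gX .E) * evC g c' := by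
  induction hs with
  | refl => rfl
  | tail _ h2 ih => rw [ih, h.step h2]

theorem Rels.dead (h : S.Rels ι g) {c : Cfg K Γ} (hd : S.Dead c) : g (gX .E) * evC g c = 0 := by
  obtain ⟨c', hr, hacc⟩ := hd
  obtain ⟨r, hr'⟩ : ∃ r, c' S.kSt = [S.acc] ++ r := by
    cases hc : c' S.kSt with
    | nil => simp [hc] at hacc
    | cons a r => exact ⟨r, by simpa [hc] using hacc⟩
  rw [h.reach hr, eq_cat_stk hr', evC_cat h.comm, evC_single, ← mul_assoc, h.acc, zero_mul]

theorem Rels.poly_eq_zero (h : S.Rels ι g) {c : Cfg K Γ} {t : Terms (Gen K Γ)} {r : List Γ}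
    (hc : c S.kIn = (S.str t).map S.inl ++ S.bot :: r) (hd : S.Dead (cat ι c)) :
    poly g t = 0 := by
  have h1 := h.dead hd
  rw [evC_cat h.comm, ← mul_assoc, h.init, h.e1_load hc] at h1
  rw [← mul_one (poly g t), ← h.e3w, ← mul_assoc, h1, zero_mul]

/-- every monomial is a commutator -/
theorem Rels.exists_comm (h : S.Rels ι g) (l : List (Gen K Γ)) :
    ∃ u v : T, ev g l = u * v - v * u := by
  have h1 := h.e1_str [(false, l)]
  have h2 : Commute (evC g (S.inW (S.str [(false, l)])) * g (gC (S.kIn, S.bot)) * g (gX .w))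
      (g (gX .z)) := ((commute_evC h.zC _).mul_left (h.zC _)).mul_left h.zw
  refine ⟨g (gX .t) * (evC g (S.inW (S.str [(false, l)])) * g (gC (S.kIn, S.bot)) * g (gX .w)),
    g (gX .z), ?_⟩
  rw [mul_assoc, h2.eq, ← mul_assoc, ← mul_assoc (g (gX .z)), ← sub_mul, h.zt, sub_sub_cancel,
    ← mul_assoc, ← mul_assoc, h1, mul_assoc, h.e3w]
  simp

end Setup

end Pool.Agent.Lib.MP_4d37d6_al.Lie
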