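import Pool.Agent.Lib.MP_4d37d6_al.Lie.Tensor

/-!
Steinberg relations in a Lie algebra: from generators to all words.
-/

set_option autoImplicit false

namespace Pool.Agent.Lib.MP_4d37d6_al.Lie

open Function

universe u

attribute [local instance 100] LieRing.ofAssociativeRing

variable {F : Type u} [Field F] {L : Type*} [LieRing L] {Z : Type}

/-- the Steinberg relations on generators -/
structure StRel (g : Fin 5 → Fin 5 → Option Z → L) : Prop where
  comm : ∀ i j k l o o', i ≠ j → k ≠ l → j ≠ k → i ≠ l → ⁅g i j o, g k l o'⁆ = 0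
  left : ∀ i j k o, i ≠ j → j ≠ k → i ≠ k → ⁅g i j none, g j k o⁆ = g i k o
  right : ∀ i j k o, i ≠ j → j ≠ k → i ≠ k → ⁅g i j o, g j k none⁆ = g i k o

/-- a third index -/
def pk (i k : Fin 5) : Fin 5 := if i ≠ 0 ∧ k ≠ 0 then 0 else if i ≠ 1 ∧ k ≠ 1 then 1 else 2

theorem pk_ne : ∀ i k, i ≠ pk i k ∧ pk i k ≠ k := by decide

theorem exists_ne4 : ∀ i j k l : Fin 5, ∃ q, q ≠ i ∧ q ≠ j ∧ q ≠ k ∧ q ≠ l := by decide

/-- the element attached to a word -/
def xw (g : Fin 5 → Fin 5 → Option Z → L) : List Z → Fin 5 → Fin 5 → L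
  | [], i, k => g i k none
  | s :: w, i, k => ⁅g i (pk i k) (some s), xw g w (pk i k) k⁆

namespace StRel

variable {g : Fin 5 → Fin 5 → Option Z → L} (h : StRel g)
include h

theorem xw_single (s : Z) {i k : Fin 5} (hik : i ≠ k) : xw g [s] i k = g i k (some s) :=
  h.right _ _ _ _ (pk_ne i k).1 (pk_ne i k).2 hik

theorem AB (m : ℕ) :
    (∀ u v : List Z, u.length + v.length ≤ m → ∀ i j k l, i ≠ j → k ≠ l → j ≠ k → i ≠ l →
      ⁅xw g u i j, xw g v k l⁆ = 0) ∧
    (∀ u v : List Z, u.length + v.length ≤ m → ∀ i j k, i ≠ j → j ≠ k → i ≠ k →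
      ⁅xw g u i j, xw g v j k⁆ = xw g (u ++ v) i k) := by
  induction m with
  | zero =>
    constructor
    · intro u v huv i j k l h1 h2 h3 h4
      obtain rfl : u = [] := List.length_eq_zero_iff.1 (by omega)
      obtain rfl : v = [] := List.length_eq_zero_iff.1 (by omega)
      exact h.comm _ _ _ _ _ _ h1 h2 h3 h4
    · intro u v huv i j k h1 h2 h3
      obtain rfl : u = [] := List.length_eq_zero_iff.1 (by omega)
      obtain rfl : v = [] := List.length_eq_zero_iff.1 (by omega)
      exact h.left _ _ _ _ h1 h2 h3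
  | succ m ih =>
    obtain ⟨A, B⟩ := ih
    have A2 : ∀ (u : List Z) s v, 1 ≤ u.length → 1 ≤ v.length → u.length + v.length ≤ m →
        ∀ i j k l, i ≠ j → k ≠ l → j ≠ k → i ≠ l → ⁅xw g u i j, xw g (s :: v) k l⁆ = 0 := by
      intro u s v hu hv huv i j k l h1 h2 h3 h4
      obtain ⟨q, q1, q2, q3, q4⟩ := exists_ne4 i j k l
      have e := B [s] v (by simp; omega) k q l q3.symm q4 h2
      rw [List.singleton_append] at e
      rw [← e, leibniz_lie, A u [s] (by simp; omega) i j k q h1 q3.symm h3 q1.symm,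
        A u v huv i j q l h1 q4 q2.symm h4]
      simp
    have A1 : ∀ u v : List Z, 1 ≤ u.length → 1 ≤ v.length → u.length + v.length ≤ m + 1 →
        ∀ i j k l, i ≠ j → k ≠ l → j ≠ k → i ≠ l → ⁅xw g u i j, xw g v k l⁆ = 0 := by
      intro u v hu hv huv i j k l h1 h2 h3 h4
      match u, v, hu, hv, huv with
      | [s], [s'], _, _, _ =>
        rw [h.xw_single _ h1, h.xw_single _ h2]
        exact h.comm _ _ _ _ _ _ h1 h2 h3 h4
      | u, s :: s' :: v, hu, _, huv =>
        exact A2 u s (s' :: v) hu (by simp) (by simp at huv ⊢; omega) i j k l h1 h2 h3 h4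
      | s :: s' :: u, v, _, hv, huv =>
        rw [← lie_skew, A2 v s (s' :: u) hv (by simp) (by simp at huv ⊢; omega) k l i j h2 h1
          h4.symm h3.symm, neg_zero]
    have A0 : ∀ v : List Z, v.length ≤ m + 1 →
        ∀ i j k l, i ≠ j → k ≠ l → j ≠ k → i ≠ l → ⁅xw g [] i j, xw g v k l⁆ = 0 := by
      intro v hv i j k l h1 h2 h3 h4
      match v, hv with
      | [], _ => exact h.comm _ _ _ _ _ _ h1 h2 h3 h4
      | [s], _ =>
        rw [h.xw_single _ h2]
        exact h.comm _ _ _ _ _ _ h1 h2 h3 h4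
      | s :: s' :: v, hv =>
        obtain ⟨p1, p2⟩ := pk_ne k l
        have e : xw g (s :: s' :: v) k l =
            ⁅xw g [s] k (pk k l), xw g (s' :: v) (pk k l) l⁆ := by
          rw [h.xw_single _ p1]; rfl
        rw [e, leibniz_lie]
        generalize pk k l = p at p1 p2
        have hv1 : (s' :: v).length ≤ m := by simp at hv ⊢; omega
        have hm : 1 ≤ m := by simp at hv1; omega
        by_cases c1 : p = i
        · subst c1
          rw [A [] (s' :: v) (by simpa using hv1) p j p l h1 p2 h1.symm h4, ← lie_skew (xw g [] p j),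
            B [s] [] (by simpa using hm) k p j p1 h1 h3.symm, neg_lie, List.append_nil,
            A1 [s] (s' :: v) (by simp) (by simp) (by simp at hv1 ⊢; omega) k j p l h3.symm p2
              h1.symm h2]
          simp
        · by_cases c2 : p = j
          · subst c2
            rw [A [] [s] (by simpa using hm) i p k p h1 p1 h3 h1,
              B [] (s' :: v) (by simpa using hv1) i p l h1 p2 h4, List.nil_append,
              A1 [s] (s' :: v) (by simp) (by simp) (by simp at hv1 ⊢; omega) k p i l p1 h4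
                h1.symm h2]
            simp
          · rw [A [] [s] (by simpa using hm) i j k p h1 p1 h3 (Ne.symm c1),
              A [] (s' :: v) (by simpa using hv1) i j p l h1 p2 (Ne.symm c2) h4]
            simp
    have A' : ∀ u v : List Z, u.length + v.length ≤ m + 1 →
        ∀ i j k l, i ≠ j → k ≠ l → j ≠ k → i ≠ l → ⁅xw g u i j, xw g v k l⁆ = 0 := by
      intro u v huv i j k l h1 h2 h3 h4
      match u, v, huv with
      | [], v, huv => exact A0 v (by simpa using huv) i j k l h1 h2 h3 h4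
      | u, [], huv =>
        rw [← lie_skew, A0 u (by simpa using huv) k l i j h2 h1 h4.symm h3.symm, neg_zero]
      | s :: u, s' :: v, huv => exact A1 _ _ (by simp) (by simp) huv i j k l h1 h2 h3 h4
    have C : ∀ s (v : List Z), v.length ≤ m → ∀ i j k, i ≠ j → j ≠ k → i ≠ k →
        ⁅xw g [s] i j, xw g v j k⁆ = xw g (s :: v) i k := by
      intro s v hv i j k h1 h2 h3
      obtain ⟨p1, p2⟩ := pk_ne i k
      have e : xw g (s :: v) i k = ⁅xw g [s] i (pk i k), xw g v (pk i k) k⁆ := by
        rw [h.xw_single _ p1]; rfl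
      rw [e]
      generalize pk i k = p at p1 p2
      by_cases c : j = p
      · rw [c]
      · have e1 := B [] v (by simpa using hv) j p k c p2 h2
        rw [List.nil_append] at e1
        rw [← e1, leibniz_lie, A' [s] v (by simp; omega) i j p k h1 p2 c h3, lie_zero, add_zero,
          h.xw_single _ h1, h.xw_single _ p1, xw, h.right _ _ _ _ h1 c p1]
    refine ⟨A', ?_⟩
    intro u v huv i j k h1 h2 h3
    obtain ⟨q, q1, q2, q3, -⟩ := exists_ne4 i j k k
    match u, v, huv with
    | [], [], _ => exact h.left _ _ _ _ h1 h2 h3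
    | [], s :: v, huv =>
      have hv : v.length ≤ m := by simpa using huv
      rw [← C s v hv j q k q2.symm q3 h2, leibniz_lie,
        A [] v (by simpa using hv) i j q k h1 q3 q2.symm h3, lie_zero, add_zero, List.nil_append,
        ← C s v hv i q k q1.symm q3 h3, h.xw_single _ q2.symm, h.xw_single _ q1.symm, xw,
        h.left _ _ _ _ h1 q2.symm q1.symm]
    | s :: u, v, huv =>
      have hv : u.length + v.length ≤ m := by simp at huv; omega
      rw [← C s u (by omega) i q j q1.symm q2 h1, lie_lie, B u v hv q j k q2 h2 q3,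
        A' [s] v (by simp; omega) i q j k q1.symm h2 q2 h3, lie_zero, sub_zero,
        C s (u ++ v) (by simpa using hv) i q k q1.symm q3 h3, List.cons_append]

end StRel

variable [LieAlgebra F L]

theorem basisFreeMonoid_apply (w : FreeMonoid Z) :
    FreeAlgebra.basisFreeMonoid F Z w = FreeMonoid.lift (FreeAlgebra.ι F) w := by
  simp [FreeAlgebra.basisFreeMonoid, FreeAlgebra.equivMonoidAlgebraFreeMonoid]

variable (F) in
/-- linear extension to the free algebra -/
noncomputable def XF (g : Fin 5 → Fin 5 → Option Z → L) (i j : Fin 5) :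
    FreeAlgebra F Z →ₗ[F] L :=
  (FreeAlgebra.basisFreeMonoid F Z).constr F fun w => xw g w.toList i j

theorem XF_basis (g : Fin 5 → Fin 5 → Option Z → L) (i j : Fin 5) (w : FreeMonoid Z) :
    XF F g i j (FreeAlgebra.basisFreeMonoid F Z w) = xw g w.toList i j := by
  simp [XF]

theorem map_xw {L' : Type*} [LieRing L'] [LieAlgebra F L'] (φ : L →ₗ⁅F⁆ L')
    (g : Fin 5 → Fin 5 → Option Z → L) (w : List Z) (i j : Fin 5) :
    φ (xw g w i j) = xw (fun i j o => φ (g i j o)) w i j := by
  induction w generalizing i with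
  | nil => rfl
  | cons s w ih => rw [xw, LieHom.map_lie, ih, xw]

theorem map_XF {L' : Type*} [LieRing L'] [LieAlgebra F L'] (φ : L →ₗ⁅F⁆ L')
    (g : Fin 5 → Fin 5 → Option Z → L) (i j : Fin 5) (a : FreeAlgebra F Z) :
    φ (XF F g i j a) = XF F (fun i j o => φ (g i j o)) i j a := by
  have : φ.toLinearMap ∘ₗ XF F g i j = XF F (fun i j o => φ (g i j o)) i j :=
    (FreeAlgebra.basisFreeMonoid F Z).ext fun w => by
      rw [LinearMap.comp_apply, XF_basis, XF_basis]
      exact map_xw φ g _ i j
  exact congr($this a)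

namespace StRel

variable {g : Fin 5 → Fin 5 → Option Z → L} (h : StRel g)
include h

theorem XF_comm {i j k l : Fin 5} (h1 : i ≠ j) (h2 : k ≠ l) (h3 : j ≠ k) (h4 : i ≠ l)
    (a b : FreeAlgebra F Z) : ⁅XF F g i j a, XF F g k l b⁆ = 0 := by
  have : ((LieAlgebra.ad F L).toLinearMap ∘ₗ XF F g i j).compl₂ (XF F g k l) = 0 :=
    (FreeAlgebra.basisFreeMonoid F Z).ext fun u => (FreeAlgebra.basisFreeMonoid F Z).ext fun v => by
      simpa [XF_basis] using (h.AB _).1 _ _ le_rfl i j k l h1 h2 h3 h4
  simpa using congr($this a b)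

theorem XF_mul {i j k : Fin 5} (h1 : i ≠ j) (h2 : j ≠ k) (h3 : i ≠ k)
    (a b : FreeAlgebra F Z) : ⁅XF F g i j a, XF F g j k b⁆ = XF F g i k (a * b) := by
  have : ((LieAlgebra.ad F L).toLinearMap ∘ₗ XF F g i j).compl₂ (XF F g j k) =
      (LinearMap.mul F _).compr₂ (XF F g i k) :=
    (FreeAlgebra.basisFreeMonoid F Z).ext fun u => (FreeAlgebra.basisFreeMonoid F Z).ext fun v => by
      have e : FreeAlgebra.basisFreeMonoid F Z u * FreeAlgebra.basisFreeMonoid F Z v =
          FreeAlgebra.basisFreeMonoid F Z (u * v) := by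
        simp [basisFreeMonoid_apply]
      simpa [XF_basis, e] using (h.AB _).2 _ _ le_rfl i j k h1 h2 h3
  simpa using congr($this a b)

omit h in
theorem XF_one (i j : Fin 5) : XF F g i j 1 = g i j none := by
  have := XF_basis (F := F) g i j 1
  rw [basisFreeMonoid_apply, map_one] at this
  exact this

theorem XF_ι {i j : Fin 5} (hij : i ≠ j) (s : Z) :
    XF F g i j (FreeAlgebra.ι F s) = g i j (some s) := by
  have := XF_basis (F := F) g i j (FreeMonoid.of s)
  rw [basisFreeMonoid_apply, FreeMonoid.lift_eval_of] at this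
  rw [this, ← h.xw_single s hij]
  rfl

theorem XF_span {T : Set (FreeAlgebra F Z)} (hT : ∀ r ∈ T, ∀ i j, i ≠ j → XF F g i j r = 0)
    {a : FreeAlgebra F Z} (ha : a ∈ TwoSidedIdeal.span T) :
    ∀ i j, i ≠ j → XF F g i j a = 0 := by
  induction ha using TwoSidedIdeal.span_induction with
  | mem x hx => exact hT x hx
  | zero => simp
  | add x y _ _ hx hy => intro i j hij; rw [map_add, hx i j hij, hy i j hij, add_zero]
  | neg x _ hx => intro i j hij; rw [map_neg, hx i j hij, neg_zero]
  | left_absorb b x _ hx =>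
    intro i j hij
    obtain ⟨p1, p2⟩ := pk_ne i j
    rw [← h.XF_mul p1 p2 hij, hx _ _ p2, lie_zero]
  | right_absorb b x _ hx =>
    intro i j hij
    obtain ⟨p1, p2⟩ := pk_ne i j
    rw [← h.XF_mul p1 p2 hij, hx _ _ p1, zero_lie]

end StRel

end Pool.Agent.Lib.MP_4d37d6_al.Lie
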