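import Pool.Agent.Lib.MP_4d37d6_al.Lie.Pres

/-!
The tensor square of a finitely presented central simple algebra spanned by commutators.
-/

set_option autoImplicit false

namespace Pool.Agent.Lib.MP_4d37d6_al.Lie

open Function TensorProduct

universe u

variable {F : Type u} [Field F]

/-- finitely presented associative algebra -/
def FP (F R : Type u) [Field F] [Ring R] [Algebra F R] : Prop :=
  ∃ (X : Type) (_ : Finite X) (ψ : FreeAlgebra F X →ₐ[F] R) (T : Set (FreeAlgebra F X)),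
    T.Finite ∧ Surjective ψ ∧ ∀ a, ψ a = 0 ↔ a ∈ TwoSidedIdeal.span T

/-- every cyclic one-cocycle is a coboundary -/
def HC (F R : Type u) [Field F] [Ring R] [Algebra F R] : Prop :=
  ∀ (V : Type u) [AddCommGroup V] [Module F V] (t : R →ₗ[F] R →ₗ[F] V),
    (∀ a b c, t (a * b) c = t a (b * c) + t b (c * a)) →
    ∃ τ : R →ₗ[F] V, ∀ a b, τ (a * b - b * a) = t a b

theorem exists_lift {A B C : Type*} [Ring A] [Ring B] [Ring C] [Algebra F A] [Algebra F B]
    [Algebra F C] (f : A →ₐ[F] B) (hf : Surjective f) (g : A →ₐ[F] C)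
    (h : ∀ a, f a = 0 → g a = 0) : ∃ k : B →ₐ[F] C, ∀ a, k (f a) = g a := by
  let k₀ : B →+* C := RingHom.liftOfSurjective (f : A →+* B) hf ⟨(g : A →+* C), fun a ha => h a ha⟩
  have hk : ∀ a, k₀ (f a) = g a := fun a =>
    RingHom.liftOfSurjective_comp_apply (f : A →+* B) hf ⟨(g : A →+* C), fun a ha => h a ha⟩ a
  refine ⟨{ k₀ with commutes' := fun c => ?_ }, hk⟩
  have := hk (algebraMap F A c)
  rw [f.commutes, g.commutes] at this
  exact this

theorem fp_quot {m : ℕ} (R : Finset (FreeAlgebra F (Fin m))) :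
    FP F (TwoSidedIdeal.span (R : Set (FreeAlgebra F (Fin m)))).ringCon.Quotient := by
  refine ⟨Fin m, inferInstance, RingCon.mkₐ F _, R, R.finite_toSet, RingCon.mk'_surjective _,
    fun a => ?_⟩
  conv_rhs => rw [← TwoSidedIdeal.ker_ringCon_mk' (TwoSidedIdeal.span _), TwoSidedIdeal.mem_ker]
  rfl

section

variable {S : Type u} [Ring S] [Algebra F S]

theorem fp_tensor (h : FP F S) : FP F (S ⊗[F] S) := by
  classical
  obtain ⟨X, hX, ψ, T, hT, hψ, hker⟩ := h
  let il : FreeAlgebra F X →ₐ[F] FreeAlgebra F (X ⊕ X) :=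
    FreeAlgebra.lift F fun x => FreeAlgebra.ι F (Sum.inl x)
  let ir : FreeAlgebra F X →ₐ[F] FreeAlgebra F (X ⊕ X) :=
    FreeAlgebra.lift F fun x => FreeAlgebra.ι F (Sum.inr x)
  let ψ₂ : FreeAlgebra F (X ⊕ X) →ₐ[F] S ⊗[F] S :=
    FreeAlgebra.lift F (Sum.elim (fun x => ψ (FreeAlgebra.ι F x) ⊗ₜ 1)
      (fun x => 1 ⊗ₜ ψ (FreeAlgebra.ι F x)))
  have hl : ψ₂.comp il = Algebra.TensorProduct.includeLeft.comp ψ := by
    ext x; simp [ψ₂, il]
  have hr : ψ₂.comp ir = Algebra.TensorProduct.includeRight.comp ψ := by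
    ext x; simp [ψ₂, ir]
  have hl' : ∀ a, ψ₂ (il a) = ψ a ⊗ₜ 1 := fun a => congr($hl a)
  have hr' : ∀ a, ψ₂ (ir a) = 1 ⊗ₜ ψ a := fun a => congr($hr a)
  let cm : X × X → FreeAlgebra F (X ⊕ X) := fun p =>
    FreeAlgebra.ι F (Sum.inl p.1) * FreeAlgebra.ι F (Sum.inr p.2) -
      FreeAlgebra.ι F (Sum.inr p.2) * FreeAlgebra.ι F (Sum.inl p.1)
  let T₂ : Set (FreeAlgebra F (X ⊕ X)) := il '' T ∪ ir '' T ∪ Set.range cm
  refine ⟨X ⊕ X, inferInstance, ψ₂, T₂, ((hT.image _).union (hT.image _)).union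
    (Set.finite_range _), ?_, fun a => ⟨fun ha => ?_, fun ha => ?_⟩⟩
  · intro z
    induction z with
    | zero => exact ⟨0, map_zero _⟩
    | tmul x y =>
      obtain ⟨x, rfl⟩ := hψ x
      obtain ⟨y, rfl⟩ := hψ y
      exact ⟨il x * ir y, by rw [map_mul, hl', hr']; simp⟩
    | add x y hx hy =>
      obtain ⟨x, rfl⟩ := hx
      obtain ⟨y, rfl⟩ := hy
      exact ⟨x + y, map_add _ _ _⟩
  · set I := TwoSidedIdeal.span T₂ with hI
    let mk : FreeAlgebra F (X ⊕ X) →ₐ[F] I.ringCon.Quotient := RingCon.mkₐ F I.ringCon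
    have hmk : ∀ x, mk x = 0 ↔ x ∈ I := fun x => by
      conv_rhs => rw [← TwoSidedIdeal.ker_ringCon_mk' I, TwoSidedIdeal.mem_ker]
      rfl
    have key : ∀ j : FreeAlgebra F X →ₐ[F] FreeAlgebra F (X ⊕ X), j '' T ⊆ T₂ →
        ∃ k : S →ₐ[F] I.ringCon.Quotient, ∀ a, k (ψ a) = mk (j a) := by
      intro j hj
      refine exists_lift ψ hψ (mk.comp j) fun b hb => ?_
      have h1 : TwoSidedIdeal.span T ≤ TwoSidedIdeal.ker (mk.comp j) := by
        rw [TwoSidedIdeal.span_le]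
        intro r hr
        rw [SetLike.mem_coe, TwoSidedIdeal.mem_ker]
        exact (hmk _).2 (TwoSidedIdeal.subset_span (hj ⟨r, hr, rfl⟩))
      exact (TwoSidedIdeal.mem_ker _).1 (h1 ((hker b).1 hb))
    obtain ⟨k₁, hk₁⟩ := key il (Set.subset_union_left.trans Set.subset_union_left)
    obtain ⟨k₂, hk₂⟩ := key ir (Set.subset_union_right.trans Set.subset_union_left)
    have hc0 : ∀ x y, Commute (mk (il (FreeAlgebra.ι F x))) (mk (ir (FreeAlgebra.ι F y))) := by
      intro x y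
      have := (hmk _).2 (TwoSidedIdeal.subset_span (s := T₂) (Or.inr ⟨(x, y), rfl⟩))
      simp only [cm, map_sub, map_mul, sub_eq_zero] at this
      simpa [il, ir, Commute, SemiconjBy] using this
    have hc1 : ∀ x b, Commute (mk (il (FreeAlgebra.ι F x))) (mk (ir b)) := by
      intro x b
      induction b using FreeAlgebra.induction with
      | grade0 c => rw [AlgHom.commutes, AlgHom.commutes]; exact (Algebra.commutes c _).symm
      | grade1 y => exact hc0 x y
      | mul b b' hb hb' => rw [map_mul, map_mul]; exact hb.mul_right hb'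
      | add b b' hb hb' => rw [map_add, map_add]; exact hb.add_right hb'
    have hc2 : ∀ a b, Commute (mk (il a)) (mk (ir b)) := by
      intro a b
      induction a using FreeAlgebra.induction with
      | grade0 c => rw [AlgHom.commutes, AlgHom.commutes]; exact Algebra.commutes c _
      | grade1 y => exact hc1 y b
      | mul b b' hb hb' => rw [map_mul, map_mul]; exact hb.mul_left hb'
      | add b b' hb hb' => rw [map_add, map_add]; exact hb.add_left hb'
    have hc : ∀ x y, Commute (k₁ x) (k₂ y) := by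
      intro x y
      obtain ⟨x, rfl⟩ := hψ x
      obtain ⟨y, rfl⟩ := hψ y
      rw [hk₁, hk₂]; exact hc2 x y
    have hfin : (Algebra.TensorProduct.lift k₁ k₂ hc).comp ψ₂ = mk := by
      ext (x | x)
      · simp [ψ₂, hk₁, il]
      · simp [ψ₂, hk₂, ir]
    rw [← hmk, ← hfin, AlgHom.comp_apply, ha, map_zero]
  · have h1 : TwoSidedIdeal.span T₂ ≤ TwoSidedIdeal.ker ψ₂ := by
      rw [TwoSidedIdeal.span_le]
      rintro r ((⟨r, hr, rfl⟩ | ⟨r, hr, rfl⟩) | ⟨p, rfl⟩)
      · rw [SetLike.mem_coe, TwoSidedIdeal.mem_ker, hl',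
          (hker r).2 (TwoSidedIdeal.subset_span hr), zero_tmul]
      · rw [SetLike.mem_coe, TwoSidedIdeal.mem_ker, hr',
          (hker r).2 (TwoSidedIdeal.subset_span hr), tmul_zero]
      · rw [SetLike.mem_coe, TwoSidedIdeal.mem_ker]
        simp [cm, ψ₂]
    exact (TwoSidedIdeal.mem_ker _).1 (h1 ha)

theorem perf_tensor (h : Perf F S) : Perf F (S ⊗[F] S) := by
  rw [Perf, eq_top_iff]
  rintro z -
  induction z with
  | zero => exact zero_mem _
  | add x y hx hy => exact add_mem hx hy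
  | tmul x y =>
    have hx : x ∈ Submodule.span F {r : S | ∃ u v, r = u * v - v * u} := by rw [h]; trivial
    induction hx using Submodule.span_induction with
    | mem x hx =>
      obtain ⟨a, b, rfl⟩ := hx
      exact Submodule.subset_span ⟨a ⊗ₜ 1, b ⊗ₜ y, by simp [sub_tmul]⟩
    | zero => rw [zero_tmul]; exact zero_mem _
    | add x x' _ _ h1 h2 => rw [add_tmul]; exact add_mem h1 h2
    | smul c x _ h1 => rw [← smul_tmul']; exact Submodule.smul_mem _ _ h1

theorem hc_tensor (h : Perf F S) : HC F (S ⊗[F] S) := by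
  intro V _ _ t ht
  have hcomm : ∀ b c a : S ⊗[F] S, b * c = c * b →
      t b (c * a - a * c) = t c (b * a - a * b) := by
    intro b c a hbc
    have h1 := ht b c a
    have h2 := ht c b a
    rw [hbc, h2] at h1
    rw [map_sub, map_sub, sub_eq_sub_iff_add_eq_add, ← h1]
  let κ : S ⊗[F] S →ₗ[F] S := TensorProduct.lift (LinearMap.mul F S - (LinearMap.mul F S).flip)
  have hκ : ∀ a b, κ (a ⊗ₜ b) = a * b - b * a := fun a b => by simp [κ]
  have hκs : LinearMap.range κ = ⊤ := by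
    rw [eq_top_iff, ← h, Submodule.span_le]
    rintro _ ⟨a, b, rfl⟩
    exact ⟨a ⊗ₜ b, hκ a b⟩
  obtain ⟨ρ, hρ⟩ := κ.exists_rightInverse_of_surjective hκs
  have hρ' : ∀ s, κ (ρ s) = s := fun s => congr($hρ s)
  let Φ : S →ₗ[F] S ⊗[F] S →ₗ[F] V :=
    { toFun := fun r => TensorProduct.lift
        ((t ∘ₗ TensorProduct.mk F S S 1).compl₂ (TensorProduct.mk F S S r))
      map_add' := fun r r' => by ext c s; simp
      map_smul' := fun a r => by ext c s; simp }
  have hΦ : ∀ r c s, Φ r (c ⊗ₜ s) = t (1 ⊗ₜ c) (r ⊗ₜ s) := fun r c s => by simp [Φ]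
  have hΦ1 : ∀ b r w, Φ (b * r - r * b) w = t (b ⊗ₜ 1) (r ⊗ₜ κ w) := by
    intro b r w
    induction w with
    | zero => simp
    | add x y hx hy => rw [map_add, hx, hy, map_add, tmul_add, map_add]
    | tmul c s =>
      have := hcomm (b ⊗ₜ 1) (1 ⊗ₜ c) (r ⊗ₜ s) (by simp)
      rw [hΦ, hκ, tmul_sub, sub_tmul]
      simpa using this.symm
  have hΦ2 : ∀ r w, κ w = 0 → Φ r w = 0 := by
    intro r w hw
    have hx : r ∈ Submodule.span F {r : S | ∃ u v, r = u * v - v * u} := by rw [h]; trivial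
    induction hx using Submodule.span_induction with
    | mem x hx =>
      obtain ⟨a, b, rfl⟩ := hx
      rw [hΦ1, hw, tmul_zero, map_zero]
    | zero => simp
    | add x x' _ _ h1 h2 => rw [map_add, LinearMap.add_apply, h1, h2, add_zero]
    | smul c x _ h1 => rw [map_smul, LinearMap.smul_apply, h1, smul_zero]
  let τ : S ⊗[F] S →ₗ[F] V := TensorProduct.lift (Φ.compl₂ ρ)
  have hτ : ∀ r s, τ (r ⊗ₜ s) = Φ r (ρ s) := fun r s => by simp [τ]
  have h1 : ∀ (b : S) (x : S ⊗[F] S), τ (b ⊗ₜ 1 * x - x * b ⊗ₜ 1) = t (b ⊗ₜ 1) x := by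
    intro b x
    induction x with
    | zero => simp
    | add x y hx hy => rw [map_add, ← hx, ← hy, ← map_add, mul_add, add_mul]; congr 1; abel
    | tmul r s =>
      have := hΦ1 b r (ρ s)
      rw [hρ', ← hτ, sub_tmul] at this
      simpa using this
  have h2 : ∀ (c : S) (x : S ⊗[F] S), τ (1 ⊗ₜ c * x - x * 1 ⊗ₜ c) = t (1 ⊗ₜ c) x := by
    intro c x
    induction x with
    | zero => simp
    | add x y hx hy => rw [map_add, ← hx, ← hy, ← map_add, mul_add, add_mul]; congr 1; abel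
    | tmul r s =>
      have h3 := hΦ2 r (ρ (c * s - s * c) - c ⊗ₜ s) (by rw [map_sub, hρ', hκ, sub_self])
      rw [map_sub, sub_eq_zero, ← hτ, hΦ, tmul_sub] at h3
      simpa using h3
  refine ⟨τ, fun a x => ?_⟩
  induction a with
  | zero => simp
  | add a b ha hb =>
    rw [map_add, LinearMap.add_apply, ← ha, ← hb, ← map_add, mul_add, add_mul]; congr 1; abel
  | tmul b c =>
    have e : (b ⊗ₜ[F] c : S ⊗[F] S) = b ⊗ₜ 1 * 1 ⊗ₜ c := by simp
    conv_rhs => rw [e, ht, ← h1, ← h2, ← map_add]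
    congr 1
    rw [← mul_assoc, ← e, mul_assoc x, ← e, mul_assoc _ x]
    abel

section Coeff

variable {κ : Type u} [DecidableEq κ] (𝒞 : Module.Basis κ F S)

theorem coeff_mul (u v : S) (x : S ⊗[F] S) (i : κ) :
    equivFinsuppOfBasisRight 𝒞 (u ⊗ₜ 1 * x * v ⊗ₜ 1) i =
      u * equivFinsuppOfBasisRight 𝒞 x i * v := by
  induction x with
  | zero => simp
  | add x y hx hy => simp only [mul_add, add_mul, map_add, Finsupp.add_apply, hx, hy]
  | tmul r s => simp

theorem exists_eq_one_tmul [Algebra.IsCentral F S] (y : S ⊗[F] S)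
    (hy : ∀ u : S, u ⊗ₜ 1 * y = y * u ⊗ₜ 1) : ∃ b, y = 1 ⊗ₜ b := by
  classical
  let 𝒞 := Module.Basis.ofVectorSpace F S
  let c := equivFinsuppOfBasisRight (M := S) 𝒞 y
  have h1 : ∀ i, ∃ a : F, c i = algebraMap F S a := by
    intro i
    rw [← Algebra.IsCentral.mem_center_iff F, Subalgebra.mem_center_iff]
    intro u
    have e1 := coeff_mul 𝒞 u 1 y i
    have e2 := coeff_mul 𝒞 1 u y i
    rw [← Algebra.TensorProduct.one_def, mul_one, mul_one, hy] at e1
    rw [← Algebra.TensorProduct.one_def, one_mul, one_mul] at e2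
    exact e1.symm.trans e2
  choose a ha using h1
  refine ⟨∑ i ∈ c.support, a i • 𝒞 i, ?_⟩
  have h2 : y = (equivFinsuppOfBasisRight (M := S) 𝒞).symm c := by simp [c]
  rw [h2, equivFinsuppOfBasisRight_symm_apply, Finsupp.sum, tmul_sum]
  refine Finset.sum_congr rfl fun i _ => ?_
  rw [ha, Algebra.algebraMap_eq_smul_one, smul_tmul]

end Coeff

theorem central_tensor [Nontrivial S] [Algebra.IsCentral F S] :
    Algebra.IsCentral F (S ⊗[F] S) := by
  refine ⟨fun z hz => ?_⟩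
  rw [Subalgebra.mem_center_iff] at hz
  obtain ⟨b, rfl⟩ := exists_eq_one_tmul z fun u => hz _
  have hinj : Injective (Algebra.TensorProduct.includeRight : S →ₐ[F] S ⊗[F] S) :=
    Algebra.TensorProduct.includeRight_injective (algebraMap F S).injective
  have hb : b ∈ Subalgebra.center F S := by
    rw [Subalgebra.mem_center_iff]
    intro v
    apply hinj
    simpa using hz (1 ⊗ₜ v)
  obtain ⟨a, rfl⟩ := (Algebra.IsCentral.mem_center_iff F).1 hb
  exact ⟨a, by simp [Algebra.algebraMap_eq_smul_one, smul_tmul', Algebra.TensorProduct.one_def]⟩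

theorem simple_tensor [IsSimpleRing S] [Algebra.IsCentral F S] : IsSimpleRing (S ⊗[F] S) := by
  classical
  have hinj : Injective (Algebra.TensorProduct.includeRight : S →ₐ[F] S ⊗[F] S) :=
    Algebra.TensorProduct.includeRight_injective (algebraMap F S).injective
  have : Nontrivial (S ⊗[F] S) := hinj.nontrivial
  refine IsSimpleRing.of_eq_bot_or_eq_top fun J => ?_
  rw [or_iff_not_imp_left]
  intro hJ
  let 𝒞 := Module.Basis.ofVectorSpace F S
  let c := equivFinsuppOfBasisRight (M := S) 𝒞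
  have hex : ∃ n, ∃ x ∈ J, x ≠ 0 ∧ (c x).support.card = n := by
    by_contra hcon
    refine hJ (eq_bot_iff.2 fun x hx => ?_)
    rw [TwoSidedIdeal.mem_bot]
    by_contra h0
    exact hcon ⟨_, x, hx, h0, rfl⟩
  obtain ⟨x, hxJ, hx0, hxn⟩ := Nat.find_spec hex
  have hmin : ∀ y ∈ J, (c y).support.card < (c x).support.card → y = 0 := by
    intro y hy hlt
    by_contra h0
    exact Nat.find_min hex (hxn ▸ hlt) ⟨y, hy, h0, rfl⟩
  have hcx : c x ≠ 0 := fun h => hx0 (c.map_eq_zero_iff.1 h)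
  obtain ⟨i₀, hi₀⟩ := Finsupp.support_nonempty_iff.2 hcx
  have hl : ∀ u y i, c (u ⊗ₜ 1 * y) i = u * c y i := fun u y i => by
    have e1 := coeff_mul 𝒞 u 1 y i
    rwa [← Algebra.TensorProduct.one_def, mul_one, mul_one] at e1
  have hr : ∀ u y i, c (y * u ⊗ₜ 1) i = c y i * u := fun u y i => by
    have e1 := coeff_mul 𝒞 1 u y i
    rwa [← Algebra.TensorProduct.one_def, one_mul, one_mul] at e1
  let K : TwoSidedIdeal S := TwoSidedIdeal.mk'
    {r | ∃ y ∈ J, (∀ i, c x i = 0 → c y i = 0) ∧ c y i₀ = r}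
    ⟨0, J.zero_mem, by simp, by simp⟩
    (by
      rintro _ _ ⟨y, hy, h1, rfl⟩ ⟨y', hy', h1', rfl⟩
      exact ⟨y + y', J.add_mem hy hy', fun i hi => by simp [h1 i hi, h1' i hi], by simp⟩)
    (by
      rintro _ ⟨y, hy, h1, rfl⟩
      exact ⟨-y, J.neg_mem hy, fun i hi => by simp [h1 i hi], by simp⟩)
    (by
      rintro u _ ⟨y, hy, h1, rfl⟩
      exact ⟨u ⊗ₜ 1 * y, J.mul_mem_left _ _ hy, fun i hi => by rw [hl, h1 i hi, mul_zero], hl _ _ _⟩)
    (by
      rintro _ u ⟨y, hy, h1, rfl⟩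
      exact ⟨y * u ⊗ₜ 1, J.mul_mem_right _ _ hy, fun i hi => by rw [hr, h1 i hi, zero_mul],
        hr _ _ _⟩)
  have hK : (1 : S) ∈ K := IsSimpleRing.one_mem_of_ne_zero_mem K (Finsupp.mem_support_iff.1 hi₀)
    (by rw [TwoSidedIdeal.mem_mk']; exact ⟨x, hxJ, fun _ h => h, rfl⟩)
  rw [TwoSidedIdeal.mem_mk'] at hK
  obtain ⟨y, hyJ, hy1, hy2⟩ := hK
  obtain ⟨b, rfl⟩ := exists_eq_one_tmul y fun u => by
    rw [← sub_eq_zero]
    refine hmin _ (J.sub_mem (J.mul_mem_left _ _ hyJ) (J.mul_mem_right _ _ hyJ)) ?_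
    refine Finset.card_lt_card ⟨fun i hi => ?_, fun hsub => ?_⟩
    · rw [Finsupp.mem_support_iff] at hi ⊢
      intro h0
      apply hi
      rw [map_sub, Finsupp.sub_apply, hl, hr, hy1 i h0, mul_zero, zero_mul, sub_zero]
    · have := hsub hi₀
      rw [Finsupp.mem_support_iff, map_sub, Finsupp.sub_apply, hl, hr, hy2] at this
      simp at this
  have hb : b ≠ 0 := by
    rintro rfl
    simp at hy2
  have h1 : (1 : S) ∈ J.comap (Algebra.TensorProduct.includeRight : S →ₐ[F] S ⊗[F] S) :=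
    IsSimpleRing.one_mem_of_ne_zero_mem _ hb (by rw [TwoSidedIdeal.mem_comap]; exact hyJ)
  rw [TwoSidedIdeal.mem_comap, map_one] at h1
  exact (TwoSidedIdeal.one_mem_iff J).1 h1

end

end Pool.Agent.Lib.MP_4d37d6_al.Lie
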