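import Pool.Agent.Lib.MP_4d37d6_al.Unital

/-!
Normal form words.
-/

set_option autoImplicit false

namespace Pool.Agent.Lib.MP_4d37d6_al.Lie

open Function

/-- the special generators -/
inductive X
  | E | e1 | e2 | e3 | x | y | w | a | s | b | z | t
  deriving DecidableEq

instance : Fintype X :=
  ⟨{X.E, X.e1, X.e2, X.e3, X.x, X.y, X.w, X.a, X.s, X.b, X.z, X.t}, fun ξ => by cases ξ <;> simp⟩

/-- generators of the algebra -/
abbrev Gen (K Γ : Type) := (K × Γ) ⊕ X

abbrev Tok (K Γ : Type) := Option (Gen K Γ)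

abbrev Mid (K Γ : Type) := Cfg K Γ × List ℕ

abbrev Tail (K Γ : Type) := List (X × Mid K Γ)

abbrev Word (K Γ : Type) := Mid K Γ × Tail K Γ

abbrev Data (K Γ : Type) := Word K Γ × ℕ × List (Bool × Word K Γ)

structure Setup (K Γ : Type) extends Mach K Γ where
  B : Set (List ℕ)
  data : ℕ → Data K Γ
  cdata : ℕ → (K × Γ) × ℕ
  tidx : Tok K Γ → ℕ
  ch : ℕ
  tidx_inj : Injective tidx
  data_surj : ∀ d j, ∃ N, j ≤ N ∧ data N = d
  cdata_surj : Surjective cdata
  nil_mem : [] ∈ B

variable {K Γ : Type}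

def one : Mid K Γ := (nil, [])

def consX (ξ : X) (ω : Word K Γ) : Word K Γ := (one, (ξ, ω.1) :: ω.2)

/-- the code of the `i`-th generator of `A` without its first letter, followed by a word -/
def aT (i : ℕ) (ω : Word K Γ) : Word K Γ :=
  (one, List.replicate i (X.s, one) ++ (X.b, ω.1) :: ω.2)

def IsA (ω : Word K Γ) : Prop := ∃ i ω', ω = aT i ω'

theorem aT_inj {i i' : ℕ} {ω ω' : Word K Γ} (h : aT i ω = aT i' ω') : i = i' ∧ ω = ω' := by
  simp only [aT, Prod.mk.injEq, true_and] at h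
  induction i generalizing i' with
  | zero =>
    cases i' with
    | zero =>
      simp only [List.replicate_zero, List.nil_append, List.cons.injEq, Prod.mk.injEq,
        true_and] at h
      exact ⟨rfl, Prod.ext h.1 h.2⟩
    | succ i' => simp [List.replicate_succ] at h
  | succ i ih =>
    cases i' with
    | zero => simp [List.replicate_succ] at h
    | succ i' =>
      simp only [List.replicate_succ, List.cons_append, List.cons.injEq, true_and] at h
      exact ⟨by rw [(ih h).1], (ih h).2⟩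

theorem IsA.append {μ : Mid K Γ} {tl : Tail K Γ} (h : IsA (μ, tl)) (T : Tail K Γ) :
    IsA (μ, tl ++ T) := by
  obtain ⟨i, ω', h⟩ := h
  refine ⟨i, (ω'.1, ω'.2 ++ T), ?_⟩
  simp only [aT, Prod.mk.injEq] at h ⊢
  simp [h.1, h.2]

theorem IsA.of_append_y {μ ν : Mid K Γ} {tl T : Tail K Γ} (h : IsA (μ, tl ++ (X.y, ν) :: T)) :
    IsA (μ, tl) := by
  obtain ⟨i, ω', h⟩ := h
  simp only [aT, Prod.mk.injEq] at h
  obtain ⟨rfl, h⟩ := h
  suffices H : ∃ r, tl = List.replicate i (X.s, one) ++ (X.b, ω'.1) :: r by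
    obtain ⟨r, rfl⟩ := H
    exact ⟨i, (ω'.1, r), rfl⟩
  induction i generalizing tl with
  | zero =>
    cases tl with
    | nil => simp at h
    | cons p tl =>
      simp only [List.cons_append, List.replicate_zero, List.nil_append, List.cons.injEq] at h
      exact ⟨tl, by simp [h.1]⟩
  | succ i ih =>
    cases tl with
    | nil => simp [List.replicate_succ] at h
    | cons p tl =>
      simp only [List.replicate_succ, List.cons_append, List.cons.injEq] at h
      obtain ⟨r, rfl⟩ := ih h.2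
      exact ⟨r, by simp [h.1, List.replicate_succ]⟩

theorem IsA.of_append_one {μ ν : Mid K Γ} {tl : Tail K Γ} {η : X} (hη : η ≠ X.b)
    (h : IsA (μ, tl ++ [(η, ν)])) : IsA (μ, tl) := by
  obtain ⟨i, ω, h⟩ := h
  simp only [aT, Prod.mk.injEq] at h
  obtain ⟨rfl, h2⟩ := h
  rcases List.eq_nil_or_concat ω.2 with h3 | ⟨r, p, h3⟩
  · rw [h3] at h2
    have := (List.append_inj' h2 rfl).2
    simp [hη] at this
  · rw [h3, List.concat_eq_append] at h2
    have h4 : tl ++ [(η, ν)] = (List.replicate i (X.s, one) ++ (X.b, ω.1) :: r) ++ [p] := by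
      simpa using h2
    exact ⟨i, (ω.1, r), by rw [(List.append_inj' h4 rfl).1]; rfl⟩

namespace Setup

variable [DecidableEq K] (S : Setup K Γ)

def wtT (tl : Tail K Γ) : ℕ := (tl.map fun p => S.wtC p.2.1).sum

def wt (ω : Word K Γ) : ℕ := S.wtC ω.1.1 + S.wtT ω.2

omit [DecidableEq K] in
@[simp] theorem wtT_nil : S.wtT [] = 0 := rfl

omit [DecidableEq K] in
@[simp] theorem wtT_cons (p : X × Mid K Γ) (tl : Tail K Γ) :
    S.wtT (p :: tl) = S.wtC p.2.1 + S.wtT tl := by simp [wtT]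

omit [DecidableEq K] in
@[simp] theorem wtT_append (tl tl' : Tail K Γ) : S.wtT (tl ++ tl') = S.wtT tl + S.wtT tl' := by
  simp [wtT]

omit [DecidableEq K] in
theorem wt_mk (c : Cfg K Γ) (b : List ℕ) (tl : Tail K Γ) :
    S.wt ((c, b), tl) = S.wtC c + S.wtT tl := rfl

omit [DecidableEq K] in
@[simp] theorem wt_consX (ξ : X) (ω : Word K Γ) : S.wt (consX ξ ω) = S.wt ω := by
  simp [wt, consX, one]

omit [DecidableEq K] in
theorem wtC_le_wtT {tl : Tail K Γ} {p : X × Mid K Γ} (h : p ∈ tl) : S.wtC p.2.1 ≤ S.wtT tl :=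
  List.single_le_sum (fun _ _ => Nat.zero_le _) _ (List.mem_map.2 ⟨p, h, rfl⟩)

/-- a word in the three input letters, placed on the input stack -/
def inW (s : List (Fin 3)) : Cfg K Γ := stk S.kIn (s.map S.inl)

/-- the code of a token -/
def tk (τ : Tok K Γ) : List (Fin 3) := List.replicate (S.tidx τ + 1) 0 ++ [1]

def idx (N : ℕ) : Mid K Γ := (S.inW (List.replicate N 0), [])

theorem wtC_inW (s : List (Fin 3)) : S.wtC (S.inW s) = s.length := by
  rw [inW, S.wtC_stk_in, List.length_map]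

@[simp] theorem wtC_idx (N : ℕ) : S.wtC (S.idx N).1 = N := by
  simp [idx, wtC_inW]

theorem idx_inj {N N' : ℕ} (h : S.idx N = S.idx N') : N = N' := by
  rw [← S.wtC_idx N, h, S.wtC_idx]

def ell (N : ℕ) : Word K Γ := (S.data N).1

/-- the right multiplier followed by a word -/
def vT (N : ℕ) (ω : Word K Γ) : Tail K Γ := (X.y, S.idx N) :: (X.w, ω.1) :: ω.2

def glue (N : ℕ) (o ω : Word K Γ) : Word K Γ := (o.1, o.2 ++ S.vT N ω)

def red (N : ℕ) (o ω : Word K Γ) : Word K Γ := (S.idx N, (X.w, o.1) :: (o.2 ++ S.vT N ω))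

def IsRed (ω : Word K Γ) : Prop := ∃ N ω', S.wt (S.ell N) < N ∧ ω = S.red N (S.ell N) ω'

def irr (ι : Cfg K Γ) : X → Word K Γ → Prop
  | X.E, ω => S.bwd ω.1.1 = none ∧ strip ι ω.1.1 = none ∧ ¬ S.Dead ω.1.1
  | X.e1, ω => ω.1.1 S.kIn = []
  | X.e2, ω => (∀ τ, strip (S.inW (S.tk τ)) ω.1.1 = none) ∧
      (ω.1.1 S.kIn).head? ≠ some (S.inl 2) ∧ (ω.1.1 S.kIn).head? ≠ some S.bot
  | X.e3, ω => ω.1.1 = nil ∧ ¬ (ω.1.2 = [] ∧ ω.2.head?.map Prod.fst = some X.w)
  | X.x, ω => ¬ S.IsRed ω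
  | X.y, _ => True
  | X.w, _ => True
  | X.a, ω => ¬ IsA ω
  | X.s, _ => True
  | X.b, _ => True
  | X.z, ω => ω.1.1 = nil ∧ ¬ (ω.1.2 = [] ∧
      (ω.2.head?.map Prod.fst = some X.w ∨ ω.2.head?.map Prod.fst = some X.t))
  | X.t, _ => True

def IrrAll (ι : Cfg K Γ) : Tail K Γ → Prop
  | [] => True
  | p :: tl => S.irr ι p.1 (p.2, tl) ∧ IrrAll ι tl

def NFT (ι : Cfg K Γ) (tl : Tail K Γ) : Prop := (∀ p ∈ tl, p.2.2 ∈ S.B) ∧ S.IrrAll ι tl

/-- normal form words -/
def NF (ι : Cfg K Γ) (ω : Word K Γ) : Prop := ω.1.2 ∈ S.B ∧ S.NFT ι ω.2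

variable {S} {ι : Cfg K Γ}

theorem NFT_nil : S.NFT ι [] := ⟨by simp, trivial⟩

theorem NFT_cons {ξ : X} {μ : Mid K Γ} {tl : Tail K Γ} :
    S.NFT ι ((ξ, μ) :: tl) ↔ S.NF ι (μ, tl) ∧ S.irr ι ξ (μ, tl) := by
  simp only [NFT, NF, IrrAll, List.forall_mem_cons]
  tauto

theorem NF_consX {ξ : X} {ω : Word K Γ} :
    S.NF ι (consX ξ ω) ↔ S.NF ι ω ∧ S.irr ι ξ ω := by
  rw [NF, consX]
  simp only [one, S.nil_mem, true_and]
  exact NFT_cons

theorem NF_one : S.NF ι (one, []) := ⟨S.nil_mem, NFT_nil⟩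

theorem NF.change {c : Cfg K Γ} {b : List ℕ} {tl : Tail K Γ} (h : S.NF ι ((c, b), tl))
    (c' : Cfg K Γ) : S.NF ι ((c', b), tl) := h

theorem IsRed.append {μ : Mid K Γ} {tl : Tail K Γ} (h : S.IsRed (μ, tl)) (T : Tail K Γ) :
    S.IsRed (μ, tl ++ T) := by
  obtain ⟨N, ω', hw, h⟩ := h
  refine ⟨N, (ω'.1, ω'.2 ++ T), hw, ?_⟩
  simp only [red, vT, Prod.mk.injEq] at h ⊢
  obtain ⟨h1, h2⟩ := h
  simp [h1, h2]

theorem irr_of_append {ξ : X} {μ : Mid K Γ} {tl T : Tail K Γ} (h : S.irr ι ξ (μ, tl ++ T)) :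
    S.irr ι ξ (μ, tl) := by
  cases ξ with
  | e3 =>
    refine ⟨h.1, fun h' => h.2 ⟨h'.1, ?_⟩⟩
    have h2 := h'.2
    cases tl with
    | nil => simp at h2
    | cons p tl => simpa using h2
  | x => exact fun h' => h (h'.append T)
  | a => exact fun h' => h (h'.append T)
  | z =>
    refine ⟨h.1, fun h' => h.2 ⟨h'.1, ?_⟩⟩
    have h2 := h'.2
    cases tl with
    | nil => simp at h2
    | cons p tl => simpa using h2
  | _ => exact h

theorem NFT_of_append_left {tl T : Tail K Γ} (h : S.NFT ι (tl ++ T)) : S.NFT ι tl := by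
  refine ⟨fun p hp => h.1 p (List.mem_append_left _ hp), ?_⟩
  have h2 := h.2
  clear h
  induction tl with
  | nil => trivial
  | cons p tl ih => exact ⟨irr_of_append h2.1, ih h2.2⟩

theorem NFT_of_append_right {tl T : Tail K Γ} (h : S.NFT ι (tl ++ T)) : S.NFT ι T := by
  refine ⟨fun p hp => h.1 p (List.mem_append_right _ hp), ?_⟩
  have h2 := h.2
  clear h
  induction tl with
  | nil => exact h2
  | cons p tl ih => exact ih h2.2

theorem NFT_vT {N : ℕ} {ω : Word K Γ} : S.NFT ι (S.vT N ω) ↔ S.NF ι ω := by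
  rw [vT, NFT_cons, NF, NFT_cons]
  simp [irr, idx, S.nil_mem]

theorem not_isRed_append_vT {μ : Mid K Γ} {tl : Tail K Γ} {N : ℕ} {ω : Word K Γ}
    (h : ¬ S.IsRed (μ, tl)) (hw : S.wt (μ, tl) < N) : ¬ S.IsRed (μ, tl ++ S.vT N ω) := by
  rintro ⟨m, ω'', hm, heq⟩
  simp only [red, Prod.mk.injEq] at heq
  obtain ⟨h1, h2⟩ := heq
  have hmN : m < N := by
    have : S.wtC μ.1 = m := by rw [h1, wtC_idx]
    simp only [wt] at hw
    omega
  rw [← List.cons_append, List.append_eq_append_iff] at h2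
  rcases h2 with ⟨r, h3, h4⟩ | ⟨r, h3, h4⟩
  · -- the right multiplier lies inside `ell m`, or is the one of the redex
    cases r with
    | nil =>
      simp only [vT, List.nil_append, List.cons.injEq, Prod.mk.injEq, true_and] at h4
      have := S.idx_inj h4.1
      omega
    | cons p r =>
      simp only [vT, List.cons_append, List.cons.injEq] at h4
      have hp : p ∈ (X.w, (S.ell m).1) :: (S.ell m).2 := by rw [h3]; simp
      rw [← h4.1] at hp
      simp only [List.mem_cons, Prod.mk.injEq, reduceCtorEq, false_and, false_or] at hp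
      have := S.wtC_le_wtT hp
      simp only [wtC_idx, wt] at this hm
      omega
  · match r, h3, h4 with
    | [], h3, h4 =>
      simp only [vT, List.nil_append, List.cons.injEq, Prod.mk.injEq, true_and] at h4
      have := S.idx_inj h4.1
      omega
    | [p], h3, h4 =>
      simp [vT] at h4
    | p :: q :: r, h3, h4 =>
      simp only [vT, List.cons_append, List.cons.injEq] at h4
      refine h ⟨m, (ω''.1, r), hm, ?_⟩
      simp only [red, vT, Prod.mk.injEq]
      refine ⟨h1, ?_⟩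
      rw [h3, ← h4.1, ← h4.2.1]
      simp

theorem NFT_append_vT {tl : Tail K Γ} {N : ℕ} {ω : Word K Γ} (h : S.NFT ι tl)
    (hw : S.wtT tl < N) (hω : S.NF ι ω) : S.NFT ι (tl ++ S.vT N ω) := by
  induction tl with
  | nil => exact NFT_vT.2 hω
  | cons p tl ih =>
    obtain ⟨ξ, μ⟩ := p
    rw [NFT_cons] at h
    rw [List.cons_append, NFT_cons]
    simp only [wtT_cons] at hw
    refine ⟨⟨h.1.1, ih h.1.2 (by omega)⟩, ?_⟩
    have h2 := h.2
    cases ξ with
    | e3 =>
      refine ⟨h2.1, fun h' => h2.2 ⟨h'.1, ?_⟩⟩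
      have h3 := h'.2
      cases tl with
      | nil => simp [vT] at h3
      | cons p tl => simpa using h3
    | x => exact not_isRed_append_vT h2 hw
    | a => exact fun h' => h2 h'.of_append_y
    | z =>
      refine ⟨h2.1, fun h' => h2.2 ⟨h'.1, ?_⟩⟩
      have h3 := h'.2
      cases tl with
      | nil => simp [vT] at h3
      | cons p tl => simpa using h3
    | _ => exact h2

theorem not_isRed_append_one {μ : Mid K Γ} {tl : Tail K Γ} {η : X} (hη : η ≠ X.w)
    (h : ¬ S.IsRed (μ, tl)) : ¬ S.IsRed (μ, tl ++ [(η, one)]) := by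
  rintro ⟨m, ω, hm, heq⟩
  simp only [red, vT, Prod.mk.injEq] at heq
  obtain ⟨h1, h2⟩ := heq
  rcases List.eq_nil_or_concat ω.2 with h3 | ⟨r, p, h3⟩
  · rw [h3] at h2
    have h4 : tl ++ [(η, one)] = ((X.w, (S.ell m).1) :: ((S.ell m).2 ++
        [(X.y, S.idx m)])) ++ [(X.w, ω.1)] := by simpa using h2
    have := (List.append_inj' h4 rfl).2
    simp [hη] at this
  · refine h ⟨m, (ω.1, r), hm, ?_⟩
    rw [h3, List.concat_eq_append] at h2
    have h4 : tl ++ [(η, one)] = ((X.w, (S.ell m).1) :: ((S.ell m).2 ++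
        (X.y, S.idx m) :: (X.w, ω.1) :: r)) ++ [p] := by simpa using h2
    simp only [red, vT, Prod.mk.injEq]
    exact ⟨h1, (List.append_inj' h4 rfl).1⟩

theorem NFT_append_one {tl : Tail K Γ} {η : X} (hη : η = X.y ∨ η = X.s) (h : S.NFT ι tl) :
    S.NFT ι (tl ++ [(η, one)]) := by
  have hw : η ≠ X.w := by rcases hη with rfl | rfl <;> simp
  have ht : η ≠ X.t := by rcases hη with rfl | rfl <;> simp
  have hb : η ≠ X.b := by rcases hη with rfl | rfl <;> simp
  induction tl with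
  | nil => exact NFT_cons.2 ⟨NF_one, by rcases hη with rfl | rfl <;> trivial⟩
  | cons p tl ih =>
    obtain ⟨ξ, μ⟩ := p
    rw [NFT_cons] at h
    rw [List.cons_append, NFT_cons]
    refine ⟨⟨h.1.1, ih h.1.2⟩, ?_⟩
    have h2 := h.2
    cases ξ with
    | e3 =>
      refine ⟨h2.1, fun h' => h2.2 ⟨h'.1, ?_⟩⟩
      have h3 := h'.2
      cases tl with
      | nil => simp [hw] at h3
      | cons p tl => simpa using h3
    | x => exact not_isRed_append_one hw h2
    | a => exact fun h' => h2 (h'.of_append_one hb)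
    | z =>
      refine ⟨h2.1, fun h' => h2.2 ⟨h'.1, ?_⟩⟩
      have h3 := h'.2
      cases tl with
      | nil => simp [hw, ht] at h3
      | cons p tl => simpa using h3
    | _ => exact h2

theorem NF_aT {i : ℕ} {ω : Word K Γ} : S.NF ι (aT i ω) ↔ S.NF ι ω := by
  induction i with
  | zero => exact (NF_consX (ξ := X.b)).trans (and_iff_left trivial)
  | succ i ih => exact ((NF_consX (ξ := X.s) (ω := aT i ω)).trans (and_iff_left trivial)).trans ih

omit [DecidableEq K] in
theorem wt_aT (i : ℕ) (ω : Word K Γ) : S.wt (aT i ω) = S.wt ω := by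
  simp [wt, aT, one, wtT]

theorem NF_glue {N : ℕ} {o ω : Word K Γ} (ho : S.NF ι o) (hw : S.wt o < N) (hω : S.NF ι ω) :
    S.NF ι (S.glue N o ω) :=
  ⟨ho.1, NFT_append_vT ho.2 (by simp only [wt] at hw; omega) hω⟩

theorem NF_red_iff {N : ℕ} {o ω : Word K Γ} : S.NF ι (S.red N o ω) ↔ S.NF ι (S.glue N o ω) := by
  rw [red, NF, NFT_cons]
  simp [irr, idx, S.nil_mem, glue]

theorem NF_of_red {N : ℕ} {o ω : Word K Γ} (h : S.NF ι (S.red N o ω)) :
    S.NF ι o ∧ S.NF ι ω := by
  rw [NF_red_iff] at h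
  exact ⟨⟨h.1, NFT_of_append_left h.2⟩, NFT_vT.1 (NFT_of_append_right h.2)⟩

theorem red_inj {N : ℕ} {o o' ω ω' : Word K Γ} (ho : S.wt o < N) (ho' : S.wt o' < N)
    (h : S.red N o ω = S.red N o' ω') : o = o' ∧ ω = ω' := by
  simp only [red, Prod.mk.injEq, true_and, List.cons.injEq] at h
  obtain ⟨h1, h2⟩ := h
  have key : ∀ {a a' : Word K Γ} {b b' : Word K Γ} {r : Tail K Γ}, S.wt a' < N →
      a'.2 = a.2 ++ r → S.vT N b = r ++ S.vT N b' → r = [] := by
    intro a a' b b' r ha h3 h4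
    cases r with
    | nil => rfl
    | cons p r =>
      simp only [vT, List.cons_append, List.cons.injEq] at h4
      have hp : p ∈ a'.2 := by rw [h3]; simp
      rw [← h4.1] at hp
      have := S.wtC_le_wtT hp
      simp only [wtC_idx, wt] at this ha
      omega
  have h2' := h2
  rw [List.append_eq_append_iff] at h2'
  have h5 : o.2 = o'.2 := by
    rcases h2' with ⟨r, h3, h4⟩ | ⟨r, h3, h4⟩
    · have := key ho' h3 h4
      subst this
      simpa using h3.symm
    · have := key ho h3 h4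
      subst this
      simpa using h3
  rw [h5, List.append_cancel_left_eq] at h2
  simp only [vT, List.cons.injEq, Prod.mk.injEq, true_and] at h2
  exact ⟨Prod.ext h1 h5, Prod.ext h2.1 h2.2⟩

theorem red_index {N N' : ℕ} {o o' ω ω' : Word K Γ} (h : S.red N o ω = S.red N' o' ω') :
    N = N' := S.idx_inj (congrArg Prod.fst h)

theorem not_isRed_red {N : ℕ} {o ω : Word K Γ} (ho : S.wt o < N) (hne : o ≠ S.ell N) :
    ¬ S.IsRed (S.red N o ω) := by
  rintro ⟨N', ω', hw, h⟩
  obtain rfl := red_index h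
  exact hne (red_inj ho hw h).1

theorem wt_red (N : ℕ) (o ω : Word K Γ) : S.wt (S.red N o ω) = 2 * N + S.wt o + S.wt ω := by
  simp [wt, red, vT]
  omega

/-- the codes of the tokens form a prefix code -/
theorem tk_unique {τ τ' : Tok K Γ} {c c' : Cfg K Γ}
    (h : cat (S.inW (S.tk τ)) c = cat (S.inW (S.tk τ')) c') : τ = τ' := by
  have h1 := congrFun h S.kIn
  simp only [inW, tk, cat_apply, stk_same, List.map_append, List.map_replicate, List.map_cons,
    List.map_nil, List.append_assoc, List.singleton_append] at h1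
  apply S.tidx_inj
  have h01 : S.inl 0 ≠ S.inl 1 := fun h => absurd (S.inl_inj h) (by decide)
  have key : ∀ (a b : ℕ) (l l' : List Γ), List.replicate a (S.inl 0) ++ S.inl 1 :: l =
      List.replicate b (S.inl 0) ++ S.inl 1 :: l' → a = b := by
    intro a
    induction a with
    | zero =>
      intro b l l' h
      cases b with
      | zero => rfl
      | succ b => simp [List.replicate_succ, h01.symm] at h
    | succ a ih =>
      intro b l l' h
      cases b with
      | zero => simp [List.replicate_succ, h01] at h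
      | succ b =>
        simp only [List.replicate_succ, List.cons_append, List.cons.injEq, true_and] at h
        rw [ih b l l' h]
  have := key _ _ _ _ h1
  omega

theorem head_cat_tk (τ : Tok K Γ) (c : Cfg K Γ) :
    ((cat (S.inW (S.tk τ)) c) S.kIn).head? = some (S.inl 0) := by
  simp [inW, tk, List.replicate_succ]

omit [DecidableEq K] in
theorem length_tk (τ : Tok K Γ) : 2 ≤ (S.tk τ).length := by
  simp [tk]

end Setup

end Pool.Agent.Lib.MP_4d37d6_al.Lie
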